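import Pool.Agent.Helper774.KSing.Sec

open scoped ENNReal

noncomputable section

namespace Pool.Agent.Helper774.KSing

open Pool.Agent.Helper774.KStab (TorusField IntVal)

variable {n : ℕ} {K : Type} [Field K] [Algebra ℂ K]

private theorem w_prod {ι : Type} [DecidableEq ι] (w : IntVal K) (f : ι → K) (s : Finset ι)
    (hf : ∀ i ∈ s, f i ≠ 0) : w.w (∏ i ∈ s, f i) = ∑ i ∈ s, w.w (f i) := by
  induction s using Finset.induction_on with
  | empty =>
    have := w.triv 1 one_ne_zero
    simpa using this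
  | insert a s ha ih =>
    rw [Finset.prod_insert ha, Finset.sum_insert ha, w.mul, ih]
    · intro i hi
      exact hf i (Finset.mem_insert_of_mem hi)
    · exact hf a (Finset.mem_insert_self a s)
    · exact Finset.prod_ne_zero_iff.mpr (fun i hi => hf i (Finset.mem_insert_of_mem hi))

theorem losses_int (w : IntVal K) (k : ℤ) (hk : k ≠ 0) : ((k : ℤ) : K) ≠ 0 ∧ w.w ((k : ℤ) : K) = 0 := by
  have h1 : ((k : ℤ) : K) = algebraMap ℂ K ((k : ℤ) : ℂ) := (map_intCast (algebraMap ℂ K) k).symm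
  have h2 : ((k : ℤ) : ℂ) ≠ 0 := by exact_mod_cast hk
  rw [h1]
  refine ⟨?_, w.triv _ h2⟩
  rw [Ne, FaithfulSMul.algebraMap_eq_zero_iff]
  exact h2

theorem losses (T : TorusField n K) (R : Matrix (Fin n) (Fin n) ℤ) (hR : R.det ≠ 0)
    (w : IntVal K) (A : ℤ)
    (hA : ∀ g : Fin n → K, Matrix.det (Matrix.of fun i j => T.θ i (g j)) ≠ 0 →
      ∑ j, w.w (g j) ≤ w.w (Matrix.det (Matrix.of fun i j => T.θ i (g j))) + A) :
    ∃ μ : Fin n → ℤ, (∀ i, 0 ≤ μ i) ∧ ∑ i, μ i ≤ A ∧
      ∀ (i : Fin n) (g : K), (∀ j < i, dth T R j g = 0) → dth T R i g ≠ 0 →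
        w.w g ≤ w.w (dth T R i g) + μ i := by
  classical
  obtain ⟨d, ex, hd, hex⟩ := exists_dual R hR
  -- the triangular choice
  have key : ∀ g : Fin n → K, (∀ i, (∀ j < i, dth T R j (g i) = 0) ∧ dth T R i (g i) ≠ 0) →
      ∑ i, (w.w (g i) - w.w (dth T R i (g i))) ≤ A := by
    intro g hg
    have hdet : Matrix.det (Matrix.of fun i j => dth T R i (g j)) = ∏ i, dth T R i (g i) := by
      rw [Matrix.det_of_lowerTriangular]
      · rfl
      · intro i j hij
        have hij' : i < j := by simpa using hij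
        exact (hg j).1 i hij'
    have hne : Matrix.det (Matrix.of fun i j => dth T R i (g j)) ≠ 0 := by
      rw [hdet]
      exact Finset.prod_ne_zero_iff.mpr (fun i _ => (hg i).2)
    have hne2 : Matrix.det (Matrix.of fun i j => T.θ i (g j)) ≠ 0 := by
      intro h0
      rw [det_dth, h0, mul_zero] at hne
      exact hne rfl
    have h := hA g hne2
    have hw : w.w (Matrix.det (Matrix.of fun i j => dth T R i (g j))) =
        w.w (Matrix.det (Matrix.of fun i j => T.θ i (g j))) := by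
      rw [det_dth, w.mul _ _ (losses_int w R.det hR).1 hne2, (losses_int w R.det hR).2, zero_add]
    rw [← hw, hdet, w_prod w _ _ (fun i _ => (hg i).2)] at h
    rw [Finset.sum_sub_distrib]
    linarith
  let e : Fin n → K := fun i => T.χ (ex i)
  have he0 : ∀ i, e i ≠ 0 := fun i => T.li.ne_zero _
  have heo : ∀ i j, j ≠ i → dth T R j (e i) = 0 := by
    intro i j hij
    show dth T R j (T.χ (ex i)) = 0
    rw [dth_chi, hex, Pi.single_eq_of_ne hij]
    simp
  have hes : ∀ i, dth T R i (e i) = ((d : ℤ) : K) * e i := by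
    intro i
    show dth T R i (T.χ (ex i)) = _ * T.χ (ex i)
    rw [dth_chi, hex, Pi.single_eq_same]
  have hdK := losses_int w d hd.ne'
  have hesw : ∀ i, w.w (dth T R i (e i)) = w.w (e i) := by
    intro i
    rw [hes, w.mul _ _ hdK.1 (he0 i), hdK.2, zero_add]
  have hegood : ∀ i, (∀ j < i, dth T R j (e i) = 0) ∧ dth T R i (e i) ≠ 0 := by
    intro i
    refine ⟨fun j hj => heo i j hj.ne, ?_⟩
    rw [hes]
    exact mul_ne_zero hdK.1 (he0 i)
  have hbdd : ∀ (i : Fin n) (g : K), (∀ j < i, dth T R j g = 0) → dth T R i g ≠ 0 →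
      w.w g - w.w (dth T R i g) ≤ A := by
    intro i g h1 h2
    have h := key (Function.update e i g) (by
      intro k
      by_cases hk : k = i
      · subst hk
        rw [Function.update_self]
        exact ⟨h1, h2⟩
      · rw [Function.update_of_ne hk]
        exact hegood k)
    rw [Finset.sum_eq_single i] at h
    · rw [Function.update_self] at h
      exact h
    · intro k _ hk
      rw [Function.update_of_ne hk, hesw]
      ring
    · intro hh
      exact absurd (Finset.mem_univ i) hh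
  have hmax : ∀ i : Fin n, ∃ μ : ℤ, (∃ g : K, (∀ j < i, dth T R j g = 0) ∧ dth T R i g ≠ 0 ∧
      w.w g - w.w (dth T R i g) = μ) ∧ ∀ z : ℤ, (∃ g : K, (∀ j < i, dth T R j g = 0) ∧
      dth T R i g ≠ 0 ∧ w.w g - w.w (dth T R i g) = z) → z ≤ μ := by
    intro i
    apply Int.exists_greatest_of_bdd
    · refine ⟨A, ?_⟩
      rintro z ⟨g, h1, h2, rfl⟩
      exact hbdd i g h1 h2
    · exact ⟨_, e i, (hegood i).1, (hegood i).2, rfl⟩
  choose μ hμ1 hμ2 using hmax
  choose g hg1 hg2 hg3 using hμ1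
  refine ⟨μ, ?_, ?_, ?_⟩
  · intro i
    apply hμ2 i 0
    refine ⟨e i, (hegood i).1, (hegood i).2, ?_⟩
    rw [hesw]
    ring
  · have := key g (fun i => ⟨hg1 i, hg2 i⟩)
    calc ∑ i, μ i = ∑ i, (w.w (g i) - w.w (dth T R i (g i))) :=
          Finset.sum_congr rfl (fun i _ => (hg3 i).symm)
      _ ≤ A := this
  · intro i g' h1 h2
    have := hμ2 i _ ⟨g', h1, h2, rfl⟩
    linarith

theorem lead_w_pow (w : IntVal K) (g : K) (hg : g ≠ 0) (D : ℕ) : w.w (g ^ D) = D * w.w g := by
  induction D with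
  | zero =>
    have := w.triv 1 one_ne_zero
    simpa using this
  | succ D ih =>
    rw [pow_succ, w.mul _ _ (pow_ne_zero _ hg) hg, ih]
    push_cast
    ring

theorem lead_dth_F (T : TorusField n K) (R : Matrix (Fin n) (Fin n) ℤ)
    (S : Finset (Fin n → ℤ)) (b : (Fin n → ℤ) → ℂ) (i : Fin n) :
    dth T R i (∑ v ∈ S, b v • T.χ v) =
      ∑ v ∈ S, (((Matrix.vecMul v R i : ℤ) : ℂ) * b v) • T.χ v := by
  rw [map_sum]
  refine Finset.sum_congr rfl fun v _ => ?_
  rw [Derivation.map_smul, dth_chi, mul_smul, smul_comm]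
  congr 1
  rw [Algebra.smul_def]
  simp

theorem lead_exists_a (R : Matrix (Fin n) (Fin n) ℤ) (hR : R.det ≠ 0) (i : Fin n)
    (a0 : Fin n → ℤ) : ∃ (D : ℕ) (a : Fin n → ℤ), 0 < D ∧
      (∀ j < i, Matrix.vecMul a R j = D * a0 j) ∧ Matrix.vecMul a R i = 0 := by
  classical
  obtain ⟨d, e, hd, he⟩ := exists_dual R hR
  refine ⟨d.toNat, ∑ j ∈ Finset.univ.filter (fun j => j < i), a0 j • e j, by omega, ?_, ?_⟩
  · intro j hj
    rw [Matrix.sum_vecMul, Finset.sum_apply, Finset.sum_eq_single j]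
    · rw [Matrix.smul_vecMul, he, Pi.smul_apply, Pi.single_eq_same, smul_eq_mul,
        Int.toNat_of_nonneg hd.le, mul_comm]
    · intro l _ hl
      rw [Matrix.smul_vecMul, he, Pi.smul_apply, Pi.single_eq_of_ne hl.symm, smul_zero]
    · intro h
      exact absurd (show j ∈ Finset.univ.filter (fun l => l < i) from
        Finset.mem_filter.mpr ⟨Finset.mem_univ _, hj⟩) h
  · rw [Matrix.sum_vecMul, Finset.sum_apply]
    refine Finset.sum_eq_zero (fun l hl => ?_)
    have hl' := (Finset.mem_filter.mp hl).2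
    rw [Matrix.smul_vecMul, he, Pi.smul_apply, Pi.single_eq_of_ne hl'.ne', smul_zero]

theorem lead_step (T : TorusField n K) (R : Matrix (Fin n) (Fin n) ℤ) (hR : R.det ≠ 0)
    (w : IntVal K) (μ : Fin n → ℤ) (hμ0 : ∀ i, 0 ≤ μ i)
    (hμ : ∀ (i : Fin n) (g : K), (∀ j < i, dth T R j g = 0) → dth T R i g ≠ 0 →
      w.w g ≤ w.w (dth T R i g) + μ i) (i : Fin n) (S : Finset (Fin n → ℤ))
    (a0 : Fin n → ℤ) (hS : ∀ u ∈ S, ∀ j < i, Matrix.vecMul u R j = a0 j)
    (b : (Fin n → ℤ) → ℂ) (k : ℤ)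
    (hne : ∑ v ∈ S, ((((Matrix.vecMul v R i : ℤ) : ℂ) - k) * b v) • T.χ v ≠ 0) :
    w.w (∑ v ∈ S, b v • T.χ v) ≤
      w.w (∑ v ∈ S, ((((Matrix.vecMul v R i : ℤ) : ℂ) - k) * b v) • T.χ v) + μ i := by
  have hchar : CharZero K :=
    charZero_of_injective_algebraMap (FaithfulSMul.algebraMap_injective ℂ K)
  set g := ∑ v ∈ S, b v • T.χ v with hg
  have hg' : ∑ v ∈ S, ((((Matrix.vecMul v R i : ℤ) : ℂ) - k) * b v) • T.χ v =
      dth T R i g - (k : ℂ) • g := by
    rw [hg, lead_dth_F, Finset.smul_sum, ← Finset.sum_sub_distrib]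
    refine Finset.sum_congr rfl fun v _ => ?_
    rw [smul_smul, ← sub_smul]
    congr 1
    ring
  rw [hg'] at hne ⊢
  have hg0 : g ≠ 0 := by
    intro h
    rw [h] at hne
    simp at hne
  obtain ⟨D, a, hD, ha1, ha2⟩ := lead_exists_a R hR i a0
  have hχa : T.χ (-a) ≠ 0 := T.χ_ne (-a)
  have hDK : (D : K) ≠ 0 := Nat.cast_ne_zero.mpr hD.ne'
  have hgD : g ^ D = g ^ (D - 1) * g := by
    rw [← pow_succ]
    congr 1
    omega
  have hpow : ∀ j, dth T R j (g ^ D * T.χ (-a)) =
      (D : K) * g ^ (D - 1) * T.χ (-a) * dth T R j g -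
        ((Matrix.vecMul a R j : ℤ) : K) * (g ^ D * T.χ (-a)) := by
    intro j
    rw [Derivation.leibniz, Derivation.leibniz_pow, dth_chi, Matrix.neg_vecMul, Pi.neg_apply,
      smul_eq_mul, smul_eq_mul, smul_eq_mul, nsmul_eq_mul]
    push_cast
    ring
  have hθj : ∀ j < i, dth T R j (g ^ D * T.χ (-a)) = 0 := by
    intro j hj
    have h1 : dth T R j g = ((a0 j : ℤ) : K) * g := by
      rw [hg, lead_dth_F, Finset.mul_sum]
      refine Finset.sum_congr rfl fun v hv => ?_
      rw [hS v hv j hj, mul_smul, Algebra.smul_def]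
      simp
    rw [hpow, h1, ha1 j hj, hgD]
    push_cast
    ring
  have hθi : dth T R i (g ^ D * T.χ (-a)) = (D : K) * (g ^ (D - 1) * (T.χ (-a) * dth T R i g)) := by
    rw [hpow, ha2]
    push_cast
    ring
  by_cases hcase : dth T R i g = 0
  · rw [hcase, zero_sub] at hne ⊢
    have hk : (k : ℂ) ≠ 0 := by
      intro hk
      rw [hk] at hne
      simp at hne
    rw [← neg_smul, w.smul _ (neg_ne_zero.mpr hk) _ hg0]
    have := hμ0 i
    omega
  · have h0 : dth T R i (g ^ D * T.χ (-a)) ≠ 0 := by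
      rw [hθi]
      exact mul_ne_zero hDK (mul_ne_zero (pow_ne_zero _ hg0) (mul_ne_zero hχa hcase))
    have h3 := hμ i (g ^ D * T.χ (-a)) hθj h0
    have h4 : w.w g ≤ w.w (dth T R i g) + μ i := by
      have hwD : w.w (D : K) = 0 := by
        have := w.triv (D : ℂ) (Nat.cast_ne_zero.mpr hD.ne')
        rwa [map_natCast] at this
      rw [hθi, w.mul _ _ (pow_ne_zero _ hg0) hχa, lead_w_pow w g hg0,
        w.mul _ _ hDK (mul_ne_zero (pow_ne_zero _ hg0) (mul_ne_zero hχa hcase)),
        w.mul _ _ (pow_ne_zero _ hg0) (mul_ne_zero hχa hcase), w.mul _ _ hχa hcase,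
        lead_w_pow w g hg0, hwD] at h3
      have hcast : ((D - 1 : ℕ) : ℤ) = (D : ℤ) - 1 := by omega
      rw [hcast] at h3
      have hexp : ((D : ℤ) - 1) * w.w g = (D : ℤ) * w.w g - w.w g := by ring
      rw [hexp] at h3
      omega
    by_cases hk : (k : ℂ) = 0
    · rw [hk, zero_smul, sub_zero]
      exact h4
    · have h5 : w.w (-((k : ℂ) • g)) = w.w g := by
        rw [← neg_smul, w.smul _ (neg_ne_zero.mpr hk) _ hg0]
      have h7 : -((k : ℂ) • g) ≠ 0 := by
        rw [neg_ne_zero]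
        exact smul_ne_zero hk hg0
      have h8 := w.add (dth T R i g) (-((k : ℂ) • g)) hcase h7 (by rwa [← sub_eq_add_neg])
      rw [← sub_eq_add_neg, h5] at h8
      have := hμ0 i
      rcases min_le_iff.mp h8 with h9 | h9 <;> omega

theorem lead_one (T : TorusField n K) (R : Matrix (Fin n) (Fin n) ℤ) (hR : R.det ≠ 0)
    (w : IntVal K) (μ : Fin n → ℤ) (hμ0 : ∀ i, 0 ≤ μ i)
    (hμ : ∀ (i : Fin n) (g : K), (∀ j < i, dth T R j g = 0) → dth T R i g ≠ 0 →
      w.w g ≤ w.w (dth T R i g) + μ i) (i : Fin n) (S : Finset (Fin n → ℤ))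
    (a0 : Fin n → ℤ) (hS : ∀ u ∈ S, ∀ j < i, Matrix.vecMul u R j = a0 j) (c : (Fin n → ℤ) → ℂ)
    (hc : ∀ u ∈ S, c u ≠ 0) (m U : ℤ) (hm : ∀ u ∈ S, -m ≤ Matrix.vecMul u R i)
    (hU : ∀ u ∈ S, Matrix.vecMul u R i ≤ U)
    (u1 : Fin n → ℤ) (hu1 : u1 ∈ S) (hu1U : Matrix.vecMul u1 R i = U) :
    w.w (∑ v ∈ S, c v • T.χ v) ≤
      w.w (∑ v ∈ S.filter (fun v => Matrix.vecMul v R i = U), c v • T.χ v) + (U + m) * μ i := by
  obtain ⟨N, hN⟩ : ∃ N : ℕ, (N : ℤ) = U + m := ⟨(U + m).toNat, by
    have := hm u1 hu1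
    rw [hu1U] at this
    omega⟩
  -- factors
  let φ : ℕ → (Fin n → ℤ) → ℂ := fun t u => ∏ s ∈ Finset.range t, (((Matrix.vecMul u R i : ℤ) : ℂ) - ((-m + s : ℤ) : ℂ))
  have hφ1 : ∀ t ≤ N, φ t u1 ≠ 0 := by
    intro t ht
    refine Finset.prod_ne_zero_iff.mpr fun s hs => ?_
    rw [Finset.mem_range] at hs
    rw [← Int.cast_sub, Int.cast_ne_zero]
    rw [hu1U]
    omega
  have key : ∀ t ≤ N, w.w (∑ v ∈ S, c v • T.χ v) ≤
      w.w (∑ v ∈ S, (φ t v * c v) • T.χ v) + t * μ i := by
    intro t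
    induction t with
    | zero =>
      intro _
      simp [φ]
    | succ t ih =>
      intro ht
      have h1 := ih (by omega)
      have h2 : ∀ v, φ (t + 1) v * c v = (((Matrix.vecMul v R i : ℤ) : ℂ) - ((-m + t : ℤ) : ℂ)) * (φ t v * c v) := by
        intro v
        simp only [φ, Finset.prod_range_succ]
        ring
      have h3 := lead_step T R hR w μ hμ0 hμ i S a0 hS (fun v => φ t v * c v) (-m + t) (by
        refine T.F_ne S _ u1 hu1 ?_
        rw [← h2]
        exact mul_ne_zero (hφ1 _ ht) (hc u1 hu1))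
      simp only [h2]
      push_cast at h3 ⊢
      linarith
  have hfin := key N le_rfl
  have hφN : ∀ v ∈ S, φ N v = if Matrix.vecMul v R i = U then (N.factorial : ℂ) else 0 := by
    intro v hv
    split_ifs with h
    · simp only [φ]
      rw [h]
      have : ∀ s ∈ Finset.range N, (((U : ℤ) : ℂ) - ((-m + s : ℤ) : ℂ)) = ((N - s : ℕ) : ℂ) := by
        intro s hs
        rw [Finset.mem_range] at hs
        rw [Nat.cast_sub hs.le, ← Int.cast_sub]
        have : U - (-m + (s:ℤ)) = (N : ℤ) - s := by omega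
        rw [this]
        push_cast
        ring
      rw [Finset.prod_congr rfl this, ← Nat.cast_prod]
      congr 1
      rw [← Finset.prod_range_reflect, ← Finset.prod_range_add_one_eq_factorial]
      refine Finset.prod_congr rfl fun s hs => ?_
      rw [Finset.mem_range] at hs
      omega
    · refine Finset.prod_eq_zero (i := (Matrix.vecMul v R i + m).toNat) ?_ ?_
      · rw [Finset.mem_range]
        have h1 := hU v hv
        have h2 := hm v hv
        omega
      · rw [← Int.cast_sub, Int.cast_eq_zero]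
        have h2 := hm v hv
        omega
  have hsum : ∑ v ∈ S, (φ N v * c v) • T.χ v =
      (N.factorial : ℂ) • ∑ v ∈ S.filter (fun v => Matrix.vecMul v R i = U), c v • T.χ v := by
    rw [Finset.sum_filter, Finset.smul_sum]
    refine Finset.sum_congr rfl fun v hv => ?_
    rw [hφN v hv]
    split_ifs with h
    · rw [mul_smul]
    · simp
  rw [hsum, w.smul _ (by exact_mod_cast N.factorial_ne_zero) _
    (T.F_ne _ c u1 (by simp [hu1, hu1U]) (hc u1 hu1)), hN] at hfin
  exact hfin

theorem lead (T : TorusField n K) (R : Matrix (Fin n) (Fin n) ℤ) (hR : R.det ≠ 0)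
    (w : IntVal K) (μ : Fin n → ℤ) (hμ0 : ∀ i, 0 ≤ μ i)
    (hμ : ∀ (i : Fin n) (g : K), (∀ j < i, dth T R j g = 0) → dth T R i g ≠ 0 →
      w.w g ≤ w.w (dth T R i g) + μ i)
    (m : ℤ) (c : (Fin n → ℤ) →₀ ℂ) (hc : c ≠ 0) (hm : ∀ u ∈ c.support, u ∈ Mset R (-m)) :
    ∃ u ∈ c.support, w.w (Finsupp.linearCombination ℂ T.χ c) ≤
      w.w (T.χ u) + ∑ i, (Matrix.vecMul u R i + m) * μ i := by
  classical
  have hF : Finsupp.linearCombination ℂ T.χ c = ∑ v ∈ c.support, c v • T.χ v := by
    rw [Finsupp.linearCombination_apply, Finsupp.sum]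
  have hcS : ∀ u ∈ c.support, c u ≠ 0 := fun u hu => Finsupp.mem_support_iff.mp hu
  have key : ∀ i : ℕ, i ≤ n → ∃ u0 ∈ c.support, w.w (∑ v ∈ c.support, c v • T.χ v) ≤
      w.w (∑ v ∈ c.support.filter (fun v => ∀ j : Fin n, (j : ℕ) < i → Matrix.vecMul v R j = Matrix.vecMul u0 R j), c v • T.χ v) +
      ∑ j ∈ Finset.univ.filter (fun j : Fin n => (j : ℕ) < i), (Matrix.vecMul u0 R j + m) * μ j := by
    intro i
    induction i with
    | zero =>
      intro _
      obtain ⟨u0, hu0⟩ := Finsupp.support_nonempty_iff.mpr hc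
      refine ⟨u0, hu0, ?_⟩
      simp
    | succ i ih =>
      intro hi
      obtain ⟨u0, hu0, hle⟩ := ih (by omega)
      set Si := c.support.filter (fun v => ∀ j : Fin n, (j : ℕ) < i → Matrix.vecMul v R j = Matrix.vecMul u0 R j) with hSi
      have hne : Si.Nonempty := ⟨u0, by simp [hSi, Finsupp.mem_support_iff.mp hu0]⟩
      let I : Fin n := ⟨i, by omega⟩
      obtain ⟨u1, hu1, hmax⟩ := Si.exists_max_image (fun v => Matrix.vecMul v R I) hne
      have hu1' := Finset.mem_filter.mp hu1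
      refine ⟨u1, hu1'.1, ?_⟩
      have hstep := lead_one T R hR w μ hμ0 hμ I Si (fun j => Matrix.vecMul u0 R j)
        (fun u hu j hj => (Finset.mem_filter.mp hu).2 j hj)
        c (fun u hu => hcS u (Finset.mem_filter.mp hu).1) m (Matrix.vecMul u1 R I)
        (fun u hu => hm u (Finset.mem_filter.mp hu).1 I) (fun u hu => hmax u hu) u1 hu1 rfl
      have hfil : Si.filter (fun v => Matrix.vecMul v R I = Matrix.vecMul u1 R I) =
          c.support.filter (fun v => ∀ j : Fin n, (j : ℕ) < i + 1 → Matrix.vecMul v R j = Matrix.vecMul u1 R j) := by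
        ext v
        simp only [hSi, Finset.mem_filter, and_assoc]
        refine and_congr_right fun _ => ?_
        constructor
        · rintro ⟨h1, h2⟩ j hj
          rcases Nat.lt_succ_iff_lt_or_eq.mp hj with h | h
          · rw [h1 j h, hu1'.2 j h]
          · have : j = I := Fin.ext h
            rw [this, h2]
        · intro h
          refine ⟨fun j hj => ?_, h I (Nat.lt_succ_self i)⟩
          rw [h j (by omega), hu1'.2 j hj]
      have hsum : ∑ j ∈ Finset.univ.filter (fun j : Fin n => (j : ℕ) < i + 1), (Matrix.vecMul u1 R j + m) * μ j =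
          (∑ j ∈ Finset.univ.filter (fun j : Fin n => (j : ℕ) < i), (Matrix.vecMul u0 R j + m) * μ j) +
            (Matrix.vecMul u1 R I + m) * μ I := by
        have : Finset.univ.filter (fun j : Fin n => (j : ℕ) < i + 1) =
            insert I (Finset.univ.filter (fun j : Fin n => (j : ℕ) < i)) := by
          ext j
          simp only [Finset.mem_filter, Finset.mem_univ, true_and, Finset.mem_insert]
          constructor
          · intro h
            rcases Nat.lt_succ_iff_lt_or_eq.mp h with h | h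
            · exact Or.inr h
            · exact Or.inl (Fin.ext h)
          · rintro (rfl | h)
            · exact Nat.lt_succ_self i
            · omega
        rw [this, Finset.sum_insert (by simp [I]), add_comm]
        congr 1
        refine Finset.sum_congr rfl fun j hj => ?_
        rw [hu1'.2 j (by simpa using hj)]
      rw [hfil] at hstep
      rw [hsum]
      linarith
  obtain ⟨u0, hu0, hle⟩ := key n le_rfl
  refine ⟨u0, hu0, ?_⟩
  rw [hF]
  have h1 : c.support.filter (fun v => ∀ j : Fin n, (j : ℕ) < n → Matrix.vecMul v R j = Matrix.vecMul u0 R j) = {u0} := by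
    ext v
    simp only [Finset.mem_filter, Finset.mem_singleton]
    constructor
    · rintro ⟨_, h⟩
      have h6 : Matrix.vecMul (v - u0) R = 0 := by
        rw [Matrix.sub_vecMul]
        funext j
        rw [Pi.sub_apply, h j j.2, sub_self]
        rfl
      exact sub_eq_zero.mp (Matrix.eq_zero_of_vecMul_eq_zero hR h6)
    · rintro rfl
      exact ⟨hu0, fun _ _ => rfl⟩
  have h2 : Finset.univ.filter (fun j : Fin n => (j : ℕ) < n) = Finset.univ := by
    ext j
    simp
  rw [h1, h2, Finset.sum_singleton, w.smul _ (hcS u0 hu0) _ (T.χ_ne u0)] at hle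
  exact hle

end Pool.Agent.Helper774.KSing
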