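import Pool.Agent.Helper774.KSing.Tor
import Pool.Agent.Helper774.KSing.Lead

open scoped ENNReal

noncomputable section

namespace Pool.Agent.Helper774.KSing

open Pool.Agent.Helper774.KStab (TorusField IntVal)
open Pool.Agent.Helper774.KStab (log_bound)

variable {n : ℕ} {K : Type} [Field K] [Algebra ℂ K]

theorem iv_fin {X : Variety} (E : X.DivVal) {x : X.K} (hx : x ≠ 0) :
    ∃ k : ℤ, E.v x = (k : WithTop ℤ) := by
  have h : E.v x ≠ ⊤ := by
    rw [Ne, AddValuation.top_iff]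
    exact hx
  obtain ⟨k, hk⟩ := WithTop.ne_top_iff_exists.1 h
  exact ⟨k, hk.symm⟩

/-- A divisorial valuation as an integer valued function. -/
def Variety.DivVal.intVal {X : Variety} (E : X.DivVal) : IntVal X.K where
  w x := (E.v x).untopD 0
  mul := by
    intro x y hx hy
    obtain ⟨k, hk⟩ := iv_fin E hx
    obtain ⟨l, hl⟩ := iv_fin E hy
    rw [AddValuation.map_mul, hk, hl, ← WithTop.coe_add, WithTop.untopD_coe, WithTop.untopD_coe,
      WithTop.untopD_coe]
  add := by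
    intro x y hx hy hxy
    obtain ⟨k, hk⟩ := iv_fin E hx
    obtain ⟨l, hl⟩ := iv_fin E hy
    obtain ⟨r, hr⟩ := iv_fin E hxy
    have h := E.v.map_add x y
    rw [hk, hl, hr] at h
    rw [hk, hl, hr, WithTop.untopD_coe, WithTop.untopD_coe, WithTop.untopD_coe]
    rw [← WithTop.coe_min] at h
    exact WithTop.coe_le_coe.1 h
  triv := by
    intro c hc
    rw [E.triv c hc]
    rfl

theorem Variety.DivVal.coe_intVal {X : Variety} (E : X.DivVal) (x : X.K) (hx : x ≠ 0) :
    E.v x = ((E.intVal.w x : ℤ) : WithTop ℤ) := by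
  obtain ⟨k, hk⟩ := iv_fin E hx
  show E.v x = (((E.v x).untopD 0 : ℤ) : WithTop ℤ)
  rw [hk, WithTop.untopD_coe]

/-- the valuation ring -/
def ivRing {X : Variety} (E : X.DivVal) : ValuationSubring X.K where
  carrier := {f | 0 ≤ E.v f}
  mul_mem' := by
    intro a b ha hb
    show 0 ≤ E.v (a * b)
    rw [AddValuation.map_mul]
    exact add_nonneg ha hb
  one_mem' := by
    show 0 ≤ E.v 1
    rw [AddValuation.map_one]
  add_mem' := by
    intro a b ha hb
    show 0 ≤ E.v (a + b)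
    exact (le_min ha hb).trans (E.v.map_add a b)
  zero_mem' := by
    show 0 ≤ E.v 0
    rw [AddValuation.map_zero]
    exact le_top
  neg_mem' := by
    intro a ha
    show 0 ≤ E.v (-a)
    rw [AddValuation.map_neg]
    exact ha
  mem_or_inv_mem' := by
    intro x
    by_cases hx : x = 0
    · left
      rw [hx]
      show 0 ≤ E.v 0
      rw [AddValuation.map_zero]
      exact le_top
    · have h1 := E.intVal.mul x x⁻¹ hx (inv_ne_zero hx)
      rw [mul_inv_cancel₀ hx] at h1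
      have h10 : E.intVal.w 1 = 0 := by
        have := E.intVal.triv 1 one_ne_zero
        rwa [map_one] at this
      rw [h10] at h1
      rcases le_total 0 (E.intVal.w x) with h | h
      · left
        show 0 ≤ E.v x
        rw [E.coe_intVal x hx]
        exact_mod_cast h
      · right
        show 0 ≤ E.v x⁻¹
        rw [E.coe_intVal _ (inv_ne_zero hx)]
        have : 0 ≤ E.intVal.w x⁻¹ := by omega
        exact_mod_cast this

theorem je2_chi_ne (T : TorusField n K) (u : Fin n → ℤ) : T.χ u ≠ 0 := by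
  intro h
  have h1 := T.χ_add u (-u)
  rw [add_neg_cancel, T.χ_zero, h, zero_mul] at h1
  exact one_ne_zero h1

/-- the valuation of the characters -/
def je2_psi (T : TorusField n K) (w : IntVal K) : (Fin n → ℤ) →+ ℤ :=
  AddMonoidHom.mk' (fun u => w.w (T.χ u)) (fun u v => by
    rw [T.χ_add, w.mul _ _ (je2_chi_ne T u) (je2_chi_ne T v)])

theorem je2_dual (R : Matrix (Fin n) (Fin n) ℤ) (hR : R.det ≠ 0) (d : ℤ) (e : Fin n → Fin n → ℤ)
    (he : ∀ i, Matrix.vecMul (e i) R = Pi.single i d) (u : Fin n → ℤ) :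
    d • u = ∑ j, (Matrix.vecMul u R j) • e j := by
  rw [← sub_eq_zero]
  apply Matrix.eq_zero_of_vecMul_eq_zero hR
  have h1 : Matrix.vecMulLinear R (d • u - ∑ j, (Matrix.vecMul u R j) • e j) = 0 := by
    rw [map_sub, map_smul, map_sum]
    simp only [map_smul, Matrix.vecMulLinear_apply, he]
    ext k
    simp only [Pi.sub_apply, Pi.smul_apply, smul_eq_mul, Finset.sum_apply, Pi.single_apply,
      Pi.zero_apply, mul_ite, mul_zero, Finset.sum_ite_eq, Finset.mem_univ, if_true]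
    ring
  exact h1

theorem je2_det_ne (R : Matrix (Fin n) (Fin n) ℤ) (d : ℤ) (hd : 0 < d)
    (e : Fin n → Fin n → ℤ) (he : ∀ i, Matrix.vecMul (e i) R = Pi.single i d) :
    (Matrix.of e).det ≠ 0 := by
  intro h0
  have h1 : Matrix.of e * R = d • (1 : Matrix (Fin n) (Fin n) ℤ) := by
    ext i k
    rw [Matrix.mul_apply_eq_vecMul]
    show Matrix.vecMul (e i) R k = _
    rw [he, Matrix.smul_apply, Matrix.one_apply, Pi.single_apply]
    by_cases h : i = k
    · subst h; simp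
    · rw [if_neg h, if_neg (Ne.symm h)]; simp
  have h2 := congrArg Matrix.det h1
  rw [Matrix.det_mul, h0, zero_mul, Matrix.det_smul, Matrix.det_one, mul_one] at h2
  exact (pow_pos hd _).ne h2

theorem je2_chart (T : TorusField n K) (D : SData n) (E : (toricVar T D).DivVal) :
    ∃ σ : D.ι, ∀ f ∈ cone T (D.R σ), f ∈ E.ring := by
  obtain ⟨σ, hσ⟩ := (toricVar T D).complete (ivRing E) (by
    intro c
    show 0 ≤ E.v (algebraMap ℂ K c)
    by_cases hc : c = 0
    · rw [hc, map_zero, AddValuation.map_zero]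
      exact le_top
    · rw [E.triv c hc])
  exact ⟨σ, fun f hf => hσ f hf⟩

theorem je2_int (w : IntVal K) (z : ℤ) (hz : z ≠ 0) : w.w ((z : ℤ) : K) = 0 := by
  have h := w.triv (z : ℂ) (by exact_mod_cast hz)
  rwa [map_intCast] at h

theorem je2_cast_ne (z : ℤ) (hz : z ≠ 0) : ((z : ℤ) : K) ≠ 0 := by
  intro h
  have h1 : algebraMap ℂ K (z : ℂ) = 0 := by rw [map_intCast]; exact h
  rw [map_eq_zero] at h1
  exact hz (by exact_mod_cast h1)

/-- the form `dχ(e_1) ∧ ... ∧ dχ(e_n)` -/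
theorem je2_form (T : TorusField n K) (D : SData n) (E : (toricVar T D).DivVal) (σ : D.ι)
    (hσ : ∀ f ∈ cone T (D.R σ), f ∈ E.ring) (d : ℤ) (hd : 0 < d) (e : Fin n → Fin n → ℤ)
    (he : ∀ i, Matrix.vecMul (e i) (D.R σ) = Pi.single i d) :
    ∃ a ∈ (toricVar T D).forms E.ring, E.v a = ((je2_psi T E.intVal (∑ l, e l) : ℤ) : WithTop ℤ) := by
  refine ⟨(toricVar T D).jac (fun j => T.χ (e j)), ⟨fun j => T.χ (e j), ?_, rfl⟩, ?_⟩
  · intro j
    apply hσ
    apply Algebra.subset_adjoin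
    refine ⟨e j, ?_, rfl⟩
    intro k
    rw [he, Pi.single_apply]
    split_ifs
    · exact hd.le
    · exact le_rfl
  · have h1 : (toricVar T D).jac (fun j => T.χ (e j)) =
        (((Matrix.of e).det : ℤ) : K) * T.χ (∑ l, e l) := by
      rw [toric_jac, det_chi]
    have hdet := je2_det_ne (D.R σ) d hd e he
    have h2 : (((Matrix.of e).det : ℤ) : K) ≠ 0 := je2_cast_ne _ hdet
    have h3 := je2_chi_ne T (∑ l, e l)
    rw [h1, E.coe_intVal _ (mul_ne_zero h2 h3), E.intVal.mul _ _ h2 h3,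
      je2_int E.intVal _ hdet, zero_add]
    rfl

theorem exists_k0 (T : TorusField n K) (D : SData n) (E : (toricVar T D).DivVal)
    (hlog : E.logDisc ≠ ⊤) :
    ∃ k0 : ℤ, (∃ a ∈ (toricVar T D).forms E.ring, E.v a = k0) ∧
      (∀ k : ℤ, (∃ a ∈ (toricVar T D).forms E.ring, E.v a = k) → k0 ≤ k) ∧
      ENNReal.ofReal (1 + E.canOrd - k0) ≤ E.logDisc := by
  obtain ⟨σ, hσ⟩ := je2_chart T D E
  obtain ⟨d, e, hd, he⟩ := exists_dual (D.R σ) (D.det_ne σ)
  have hne : ∃ k : ℤ, ∃ a ∈ (toricVar T D).forms E.ring, E.v a = k :=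
    ⟨_, je2_form T D E σ hσ d hd e he⟩
  have hle : ∀ k : ℤ, (∃ a ∈ (toricVar T D).forms E.ring, E.v a = k) →
      ENNReal.ofReal (1 + E.canOrd - k) ≤ E.logDisc := by
    intro k hk
    unfold Variety.DivVal.logDisc
    exact le_iSup₂ (f := fun (k : ℤ) (_ : k ∈ {k : ℤ | ∃ a ∈ (toricVar T D).forms E.ring,
        E.v a = k}) => ENNReal.ofReal (1 + E.canOrd - k)) k hk
  have hbdd : ∃ b : ℤ, ∀ k : ℤ, (∃ a ∈ (toricVar T D).forms E.ring, E.v a = k) → b ≤ k := by
    by_contra hcon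
    push Not at hcon
    apply hlog
    apply ENNReal.eq_top_of_forall_nnreal_le
    intro r
    obtain ⟨k, hk, hkb⟩ := hcon ⌊1 + E.canOrd - (r : ℝ)⌋
    refine le_trans ?_ (hle k hk)
    have h2 : (r : ℝ) ≤ 1 + E.canOrd - k := by
      have h3 := Int.floor_le (1 + E.canOrd - (r : ℝ))
      have h4 : (k : ℝ) < ((⌊1 + E.canOrd - (r : ℝ)⌋ : ℤ) : ℝ) := by exact_mod_cast hkb
      linarith
    calc (r : ENNReal) = ENNReal.ofReal (r : ℝ) := (ENNReal.ofReal_coe_nnreal).symm
      _ ≤ _ := ENNReal.ofReal_le_ofReal h2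
  obtain ⟨k0, hk0, hk0min⟩ := Int.exists_least_of_bdd hbdd hne
  exact ⟨k0, hk0, hk0min, hle k0 hk0⟩

theorem toric_bound (T : TorusField n K) (D : SData n) (E : (toricVar T D).DivVal)
    (hlog : E.logDisc ≠ ⊤) :
    0 < E.logDisc ∧ ∃ (σ : D.ι) (a : Fin n → ℝ), (∀ j, 0 ≤ a j) ∧
      ENNReal.ofReal (∑ j, a j) ≤ E.logDisc ∧
      ∀ (m : ℕ) (c : (Fin n → ℤ) →₀ ℂ), c ≠ 0 → (∀ u ∈ c.support, u ∈ D.pts m) →
        ∃ u ∈ c.support, E.ord m (Finsupp.linearCombination ℂ T.χ c) ≤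
          ∑ j, a j * ((Matrix.vecMul u (D.R σ) j : ℤ) + (m : ℝ)) := by
  classical
  obtain ⟨k0, hk0, hk0min, hld⟩ := exists_k0 T D E hlog
  obtain ⟨σ, hσ⟩ := je2_chart T D E
  obtain ⟨d, e, hd, he⟩ := exists_dual (D.R σ) (D.det_ne σ)
  set w : IntVal K := E.intVal with hw
  have hcoe : ∀ x : K, x ≠ 0 → E.v x = ((w.w x : ℤ) : WithTop ℤ) := fun x hx => E.coe_intVal x hx
  have hnorm : ∃ z : K, z ≠ 0 ∧ w.w z = 1 := by
    obtain ⟨z, hz⟩ := E.normalised
    have hz0 : z ≠ 0 := by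
      rintro rfl
      rw [AddValuation.map_zero] at hz
      exact absurd hz (by simp)
    refine ⟨z, hz0, ?_⟩
    have h1 := hcoe z hz0
    rw [hz] at h1
    have h2 : ((1 : ℤ) : WithTop ℤ) = ((w.w z : ℤ) : WithTop ℤ) := h1
    exact (WithTop.coe_injective h2).symm
  have hlb := log_bound (fun i => T.θ i) w hnorm k0 (by
    intro g hg hdet
    apply hk0min
    refine ⟨Matrix.det (Matrix.of fun i j => T.θ i (g j)), ⟨g, ?_, ?_⟩, hcoe _ hdet⟩
    · intro j
      show 0 ≤ E.v (g j)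
      by_cases h0 : g j = 0
      · rw [h0, AddValuation.map_zero]; exact le_top
      · rcases hg j with h | h
        · exact absurd h h0
        · rw [hcoe _ h0]
          exact_mod_cast h
    · exact (toric_jac T D g).symm)
  obtain ⟨μ, hμ0, hμs, hμ⟩ := losses T (D.R σ) (D.det_ne σ) w (1 - k0) hlb
  -- the linear form
  have hψ0 : ∀ j, 0 ≤ je2_psi T w (e j) := by
    intro j
    have h1 : T.χ (e j) ∈ cone T (D.R σ) := by
      apply Algebra.subset_adjoin
      refine ⟨e j, ?_, rfl⟩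
      intro k
      rw [he, Pi.single_apply]
      split_ifs
      · exact hd.le
      · exact le_rfl
    have h2 : 0 ≤ E.v (T.χ (e j)) := hσ _ h1
    rw [hcoe _ (je2_chi_ne _ _)] at h2
    have h3 : 0 ≤ w.w (T.χ (e j)) := by exact_mod_cast h2
    exact h3
  have hdR : (0 : ℝ) < d := by exact_mod_cast hd
  have hψ : ∀ u, d * je2_psi T w u = ∑ j, Matrix.vecMul u (D.R σ) j * je2_psi T w (e j) := by
    intro u
    have h1 := congrArg (je2_psi T w) (je2_dual (D.R σ) (D.det_ne σ) d e he u)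
    rw [map_sum, map_zsmul] at h1
    simp only [map_zsmul, smul_eq_mul] at h1
    exact h1
  have hψR : ∀ u, ((je2_psi T w u : ℤ) : ℝ) =
      ∑ j, ((Matrix.vecMul u (D.R σ) j : ℤ) : ℝ) * (((je2_psi T w (e j) : ℤ) : ℝ) / d) := by
    intro u
    have h1 : ((d * je2_psi T w u : ℤ) : ℝ) =
      ((∑ j, Matrix.vecMul u (D.R σ) j * je2_psi T w (e j) : ℤ) : ℝ) := by rw [hψ u]
    push_cast at h1
    have h2 : ∑ j, ((Matrix.vecMul u (D.R σ) j : ℤ) : ℝ) * (((je2_psi T w (e j) : ℤ) : ℝ) / d) =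
        (∑ j, ((Matrix.vecMul u (D.R σ) j : ℤ) : ℝ) * ((je2_psi T w (e j) : ℤ) : ℝ)) / d := by
      rw [Finset.sum_div]
      exact Finset.sum_congr rfl fun j _ => by ring
    rw [h2, ← h1]
    field_simp
  have hcan : E.canOrd = ∑ j, ((je2_psi T w (e j) : ℤ) : ℝ) / d := by
    have h1 := toric_canOrd T D E σ hσ (je2_psi T w (D.w σ)) (hcoe _ (je2_chi_ne T _))
    have hr : (0 : ℝ) < D.r := by exact_mod_cast D.r_pos
    rw [h1, hψR]
    simp only [D.w_self]
    push_cast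
    rw [← Finset.mul_sum]
    field_simp
  have hc0 : ∀ j, 0 ≤ ((je2_psi T w (e j) : ℤ) : ℝ) / d := by
    intro j
    have : (0 : ℝ) ≤ ((je2_psi T w (e j) : ℤ) : ℝ) := by exact_mod_cast hψ0 j
    positivity
  have hcan0 : 0 ≤ E.canOrd := by
    rw [hcan]
    exact Finset.sum_nonneg fun j _ => hc0 j
  have hμR : ∀ j, (0 : ℝ) ≤ μ j := fun j => by exact_mod_cast hμ0 j
  have hμsR : ∑ j, (μ j : ℝ) ≤ 1 - k0 := by exact_mod_cast hμs
  constructor
  · refine lt_of_lt_of_le ?_ hld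
    rw [ENNReal.ofReal_pos]
    have h1 : 0 ≤ ∑ j, (μ j : ℝ) := Finset.sum_nonneg fun j _ => hμR j
    rcases hcan0.lt_or_eq with h | h
    · linarith
    · have h2 : ∀ j, ((je2_psi T w (e j) : ℤ) : ℝ) / d = 0 := by
        intro j
        have h3 := (Finset.sum_eq_zero_iff_of_nonneg (fun j _ => hc0 j)).1
          (hcan.symm.trans h.symm)
        exact h3 j (Finset.mem_univ j)
      have h4 : je2_psi T w (∑ l, e l) = 0 := by
        have h5 := hψR (∑ l, e l)
        simp only [h2, mul_zero, Finset.sum_const_zero] at h5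
        exact_mod_cast h5
      have h6 := hk0min _ (je2_form T D E σ hσ d hd e he)
      rw [← hw, h4] at h6
      have h7 : (k0 : ℝ) ≤ 0 := by exact_mod_cast h6
      linarith
  · refine ⟨σ, fun j => ((je2_psi T w (e j) : ℤ) : ℝ) / d + μ j, ?_, ?_, ?_⟩
    · intro j
      exact add_nonneg (hc0 j) (hμR j)
    · refine le_trans (ENNReal.ofReal_le_ofReal ?_) hld
      rw [Finset.sum_add_distrib, ← hcan]
      linarith
    · intro m c hc hpts
      obtain ⟨u, hu, hest⟩ := lead T (D.R σ) (D.det_ne σ) w μ hμ0 hμ (m : ℤ) c hc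
        (fun u hu j => hpts u hu σ j)
      refine ⟨u, hu, ?_⟩
      have h1 : E.ord m (Finsupp.linearCombination ℂ T.χ c) =
          ((w.w (Finsupp.linearCombination ℂ T.χ c) : ℤ) : ℝ) + m * E.canOrd := rfl
      have h2 : ((w.w (Finsupp.linearCombination ℂ T.χ c) : ℤ) : ℝ) ≤
          ((je2_psi T w u : ℤ) : ℝ) +
            ∑ i, (((Matrix.vecMul u (D.R σ) i : ℤ) : ℝ) + m) * μ i := by
        have h3 : ((w.w (Finsupp.linearCombination ℂ T.χ c) : ℤ) : ℝ) ≤
            ((w.w (T.χ u) + ∑ i, (Matrix.vecMul u (D.R σ) i + (m : ℤ)) * μ i : ℤ) : ℝ) := by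
          exact_mod_cast hest
        push_cast at h3
        exact h3
      have h4 : ∑ j, (((je2_psi T w (e j) : ℤ) : ℝ) / d + μ j) *
          (((Matrix.vecMul u (D.R σ) j : ℤ) : ℝ) + m) =
          ((je2_psi T w u : ℤ) : ℝ) + m * E.canOrd +
            ∑ i, (((Matrix.vecMul u (D.R σ) i : ℤ) : ℝ) + m) * μ i := by
        rw [hψR u, hcan, Finset.mul_sum, ← Finset.sum_add_distrib, ← Finset.sum_add_distrib]
        exact Finset.sum_congr rfl fun j _ => by ring
      rw [h1, h4]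
      linarith

theorem toric_klt (T : TorusField n K) (D : SData n) : (toricVar T D).IsKlt := by
  intro E
  by_cases h : E.logDisc = ⊤
  · rw [h]; exact ENNReal.zero_lt_top
  · exact (toric_bound T D E h).1

theorem alpha_ge (T : TorusField n K) (D : SData n) (M : ℝ) (hM : 0 ≤ M)
    (h : ∀ (m : ℕ) (u : Fin n → ℤ), 1 ≤ m → u ∈ D.pts m → ∀ σ j,
      ((Matrix.vecMul u (D.R σ) j : ℤ) : ℝ) ≤ M * m) :
    ENNReal.ofReal (1 / (1 + M)) ≤ (toricVar T D).alpha := by
  refine le_iInf₂ fun p hp => ?_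
  obtain ⟨m, s⟩ := p
  obtain ⟨h1, h2, h3⟩ := hp
  have h1' : 1 ≤ m := h1
  have hM1 : (0 : ℝ) < 1 + M := by linarith
  have hm0 : (0 : ℝ) < m := by exact_mod_cast h1'
  obtain ⟨c, hc, hcs⟩ := Finsupp.mem_span_image_iff_linearCombination ℂ |>.1
    ((toric_antican T D m s).1 h2)
  have hc0 : c ≠ 0 := by
    rintro rfl
    apply h3
    show s = 0
    rw [← hcs, map_zero]
  have hsup : ∀ u ∈ c.support, u ∈ D.pts m := fun u hu => (Finsupp.mem_supported ℂ c).1 hc hu
  refine le_iSup₂_of_le (1 / (1 + M)) ⟨by positivity, fun E => ?_⟩ le_rfl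
  by_cases h4 : E.logDisc = ⊤
  · rw [h4]; exact le_top
  · obtain ⟨_, σ, a, ha, hs, hb⟩ := toric_bound T D E h4
    obtain ⟨u, hu, hord⟩ := hb m c hc0 hsup
    refine le_trans (ENNReal.ofReal_le_ofReal ?_) hs
    rw [hcs] at hord
    have h5 : ∑ j, a j * ((Matrix.vecMul u (D.R σ) j : ℤ) + (m : ℝ)) ≤
        (1 + M) * m * ∑ j, a j := by
      rw [Finset.mul_sum]
      refine Finset.sum_le_sum fun j _ => ?_
      have := h m u h1' (hsup u hu) σ j
      calc a j * ((Matrix.vecMul u (D.R σ) j : ℤ) + (m : ℝ)) ≤ a j * (M * m + m) :=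
            mul_le_mul_of_nonneg_left (by linarith) (ha j)
        _ = _ := by ring
    have h6 : E.ord m s ≤ (1 + M) * m * ∑ j, a j := hord.trans h5
    show 1 / (1 + M) * (E.ord m s / m) ≤ ∑ j, a j
    rw [div_mul_div_comm, one_mul, div_le_iff₀ (by positivity)]
    linarith

end Pool.Agent.Helper774.KSing
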