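import Mathlib

/-!
Normal complex varieties in the language of function fields (Zariski, Chevalley, Weil): the Fano
condition, divisorial valuations, log discrepancy, klt singularities, the expected vanishing
order `S`, K-semistability (stability threshold at least one), log canonical thresholds of effective
`ℚ`-divisors `D ∼ -K_X` and the alpha invariant of Tian.
-/

open scoped ENNReal

noncomputable section

namespace Pool.Agent.Helper774.KSing

/-- The local ring of the affine variety `Spec R` (with `R` a subalgebra of the function field `K`)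
at the prime ideal `p`, as a subset of `K`: all fractions `a / s` with `a, s ∈ R`, `s ∉ p`. -/
def locRing {K : Type} [Field K] [Algebra ℂ K] (R : Subalgebra ℂ K) (p : Ideal R) : Set K :=
  {z | ∃ a s : R, s ∉ p ∧ z * (s : K) = (a : K)}

/-- The local ring of `Spec R` at the centre of the valuation ring `V` (meant for `R ≤ V`):
all fractions `a / s` with `a, s ∈ R` and `s` a unit of `V`. -/
def locAtCentre {K : Type} [Field K] [Algebra ℂ K] (R : Subalgebra ℂ K)
    (V : ValuationSubring K) : Set K :=
  {z | ∃ a ∈ R, ∃ s ∈ R, s ≠ 0 ∧ s⁻¹ ∈ V ∧ z * s = a}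

/-- A normal complete (= proper) complex variety `X` of dimension `dim`, given by its function field
`K` and by finitely many affine charts `Spec (chart i)`, where `chart i` is a finitely generated
integrally closed subalgebra of `K` with fraction field `K`.
`separated`: if a valuation ring of `K` has a centre on two charts, the two local rings at the centres
are the same subring of `K` (so the charts glue to a separated variety, whose points are the
local rings of the charts).
`complete`: the valuative criterion of properness: every valuation ring of `K / ℂ` has a centre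
on some chart.
`der` is a basis of the `K`-vector space of `ℂ`-derivations of `K` (its cardinality is the
transcendence degree of `K` over `ℂ`, i.e. the dimension); it trivialises the
one-dimensional space of rational top differential forms by
`dg_1 ∧ ... ∧ dg_dim ↦ det (der i (g_j))`. The rational form with value `1` is called `ω₀`. -/
structure Variety where
  /-- dimension -/
  dim : ℕ
  /-- function field -/
  K : Type
  [fld : Field K]
  [alg : Algebra ℂ K]
  /-- index set of the charts -/
  ι : Type
  [fin : Finite ι]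
  /-- coordinate rings of the affine charts -/
  chart : ι → Subalgebra ℂ K
  frac : ∀ i, IsFractionRing (chart i) K
  fg : ∀ i, (chart i).FG
  normal : ∀ i, IsIntegrallyClosed (chart i)
  separated : ∀ (i j : ι) (V : ValuationSubring K), (∀ f ∈ chart i, f ∈ V) →
    (∀ f ∈ chart j, f ∈ V) → locAtCentre (chart i) V = locAtCentre (chart j) V
  complete : ∀ V : ValuationSubring K, (∀ c : ℂ, algebraMap ℂ K c ∈ V) →
    ∃ i, ∀ f ∈ chart i, f ∈ V
  /-- a basis of the derivations of the function field -/
  der : Module.Basis (Fin dim) K (Derivation ℂ K K)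

attribute [instance] Variety.fld Variety.alg Variety.fin

namespace Variety

variable (X : Variety)

/-- The points of the variety `X`, each represented by its local ring in the function field. -/
def points : Set (Set X.K) :=
  {A | ∃ (i : X.ι) (p : Ideal (X.chart i)), p.IsPrime ∧ A = locRing (X.chart i) p}

/-- The rational function `det (der i (g j))` which represents the rational top form
`dg_1 ∧ ... ∧ dg_dim = det (der i (g j)) ω₀`. -/
def jac (g : Fin X.dim → X.K) : X.K :=
  Matrix.det (Matrix.of fun i j => X.der i (g j))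

/-- The top forms `dg_1 ∧ ... ∧ dg_dim` with all `g_j` in `A`. -/
def forms (A : Set X.K) : Set X.K :=
  {a | ∃ g : Fin X.dim → X.K, (∀ j, g j ∈ A) ∧ a = X.jac g}

/-- The sections of the sheaf `O_X(-m K_X)` over `Spec A`, where `A` is the coordinate ring of a
chart (or a local ring of `X`): the rational functions `s` such that the rational `m`-fold
polyvector field `s · ω₀^(-m)` is regular in codimension one on `Spec A`. At the points
of codimension one the normal variety is smooth and the forms `dg_1 ∧ ... ∧ dg_dim` with `g_j ∈ A`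
generate the canonical sheaf, so the condition is that `s · a_1 ... a_m` is regular in
codimension one for all such forms `a_k`; as `A` is normal, this means that it lies in `A`. -/
def sections (m : ℕ) (A : Set X.K) : Set X.K :=
  {s | ∀ a : Fin m → X.K, (∀ k, a k ∈ X.forms A) → s * ∏ k, a k ∈ A}

/-- `H⁰(X, O_X(-m K_X))`. -/
def antican (m : ℕ) : Submodule ℂ X.K where
  carrier := {s | ∀ i : X.ι, s ∈ X.sections m (X.chart i : Set X.K)}
  add_mem' := by
    intro s t hs ht i a ha
    rw [add_mul]
    exact (X.chart i).add_mem (hs i a ha) (ht i a ha)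
  zero_mem' := by
    intro i a _
    rw [zero_mul]
    exact (X.chart i).zero_mem
  smul_mem' := by
    intro c s hs i a ha
    rw [smul_mul_assoc]
    exact (X.chart i).smul_mem (hs i a ha) c

/-- The section `s` of `O_X(-m K_X)` generates this sheaf at the point with local ring `A`. (So
`-m K_X` is a Cartier divisor at this point, and `s` does not vanish there.) -/
def GeneratesAt (m : ℕ) (s : X.K) (A : Set X.K) : Prop :=
  ∀ t : X.K, t ∈ X.sections m A ↔ ∃ b ∈ A, t = s * b

/-- `-K_X` is a `ℚ`-Cartier ample divisor: every point `A` of `X` lies in the locus `X_s` where a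
section `s ∈ H⁰(X, O_X(-m K_X))`, for some `m ≥ 1`, generates `O_X(-m K_X)`, such that `X_s`
is an affine variety `Spec R` (Stacks project, Definition 01PS, applied to the powers of the
line bundle `O_X(-r K_X)`, `r` divisible enough). A normal complete variety with this property is
projective (it carries an ample line bundle), i.e. it is a `ℚ`-Gorenstein Fano variety. -/
def IsFano : Prop :=
  ∀ A ∈ X.points, ∃ m : ℕ, 1 ≤ m ∧ ∃ s ∈ X.antican m, X.GeneratesAt m s A ∧
    ∃ R : Subalgebra ℂ X.K, R.FG ∧
      {A' | A' ∈ X.points ∧ X.GeneratesAt m s A'} =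
        {A' | ∃ p : Ideal R, p.IsPrime ∧ A' = locRing R p}

/-- Divisorial valuations of the function field, i.e. the valuations `ord_E` of the prime
divisors `E` over `X`: discrete, normalised, trivial on `ℂ`, with residue field of transcendence
degree `dim - 1` over `ℂ`. -/
structure DivVal where
  /-- the valuation -/
  v : AddValuation X.K (WithTop ℤ)
  triv : ∀ c : ℂ, c ≠ 0 → v (algebraMap ℂ X.K c) = 0
  normalised : ∃ z, v z = 1
  residue : ∃ t : Fin (X.dim - 1) → X.K, ∀ P : MvPolynomial (Fin (X.dim - 1)) ℂ, P ≠ 0 →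
    v (MvPolynomial.aeval t P) = 0

variable {X}

/-- The valuation ring of a divisorial valuation, as a subset of the function field. -/
def DivVal.ring (E : X.DivVal) : Set X.K := {f | 0 ≤ E.v f}

/-- `canOrd E = - ord_E (π^* K_X)`, where `K_X` is the divisor of `ω₀` on `X` and `π^* K_X` is its
pull-back as a `ℚ`-Cartier divisor: if `-r K_X` is Cartier at the centre of `E` and `g` is a local
generator of `O_X(-r K_X)` there, it is the number `-v(g) / r`. As `s^r ∈ g^m O` for every
local section `s` of `O_X(-m K_X)`, this number is the largest value of `-v(s) / m` on the nonzero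
sections `s` of `O_X(-m K_X)`, `m ≥ 1`, over a chart which contains the centre of `E`. -/
def DivVal.canOrd (E : X.DivVal) : ℝ :=
  sSup {x : ℝ | ∃ (i : X.ι) (m : ℕ) (s : X.K) (k : ℤ), (∀ f ∈ X.chart i, f ∈ E.ring) ∧ 1 ≤ m ∧
    s ∈ X.sections m (X.chart i : Set X.K) ∧ E.v s = k ∧ x = -(k : ℝ) / m}

/-- The log discrepancy `A_X(E) = 1 + ord_E (K_Y - π^* K_X)`, where `K_Y` is the divisor of `ω₀` on a
model `Y` which contains `E`: `ord_E (K_Y) = - k` for the least value `k` of `E` on the top forms
`dg_1 ∧ ... ∧ dg_dim` with all `g_j` in the valuation ring of `E` (these generate the canonical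
module of the valuation ring). -/
def DivVal.logDisc (E : X.DivVal) : ℝ≥0∞ :=
  ⨆ k ∈ {k : ℤ | ∃ a ∈ X.forms E.ring, E.v a = k}, ENNReal.ofReal (1 + E.canOrd - k)

variable (X) in
/-- Kawamata log terminal singularities: `A_X(E) > 0` for every prime divisor `E` over `X`. -/
def IsKlt : Prop := ∀ E : X.DivVal, 0 < E.logDisc

/-- The order of vanishing along `E` of the section `s · ω₀^(-m)` of `O_X(-m K_X)`. -/
def DivVal.ord (E : X.DivVal) (m : ℕ) (s : X.K) : ℝ := ((E.v s).untopD 0 : ℤ) + m * E.canOrd

/-- `H⁰(X, m (-K_X - t E))`: the sections `s` of `O_X(-m K_X)` with `ord_E(s) ≥ m t`. -/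
def DivVal.filt (E : X.DivVal) (m : ℕ) (t : ℝ) : Submodule ℂ X.K where
  carrier := {s | s ∈ X.antican m ∧ ∀ k : ℤ, E.v s = k → (m : ℝ) * t ≤ k + m * E.canOrd}
  add_mem' := by
    rintro s s' ⟨hs, hs2⟩ ⟨ht, ht2⟩
    refine ⟨(X.antican m).add_mem hs ht, fun k hk => ?_⟩
    have h := E.v.map_add s s'
    rw [hk] at h
    rcases min_le_iff.1 h with h1 | h1
    · obtain ⟨l, hl⟩ := WithTop.ne_top_iff_exists.1 (ne_top_of_le_ne_top (WithTop.coe_ne_top) h1)
      rw [← hl] at h1
      have h2 := hs2 l hl.symm
      have h3 : (l : ℝ) ≤ k := by exact_mod_cast h1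
      linarith
    · obtain ⟨l, hl⟩ := WithTop.ne_top_iff_exists.1 (ne_top_of_le_ne_top (WithTop.coe_ne_top) h1)
      rw [← hl] at h1
      have h2 := ht2 l hl.symm
      have h3 : (l : ℝ) ≤ k := by exact_mod_cast h1
      linarith
  zero_mem' := by
    refine ⟨(X.antican m).zero_mem, fun k hk => ?_⟩
    rw [AddValuation.map_zero] at hk
    exact absurd hk.symm (WithTop.coe_ne_top)
  smul_mem' := by
    rintro c s ⟨hs, hs2⟩
    refine ⟨(X.antican m).smul_mem c hs, fun k hk => ?_⟩
    by_cases hc : c = 0
    · subst hc
      rw [zero_smul, AddValuation.map_zero] at hk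
      exact absurd hk.symm (WithTop.coe_ne_top)
    · rw [Algebra.smul_def, AddValuation.map_mul, E.triv c hc, zero_add] at hk
      exact hs2 k hk

/-- The volume of `-K_X - t E`: the upper limit of `dim! * h⁰(X, m (-K_X - t E)) / m^dim`. -/
def DivVal.vol (E : X.DivVal) (t : ℝ) : ℝ≥0∞ :=
  Filter.limsup (fun m : ℕ =>
    ((Nat.factorial X.dim * Module.finrank ℂ (E.filt m t) : ℕ) : ℝ≥0∞) / (m : ℝ≥0∞) ^ X.dim)
    Filter.atTop

variable (X) in
/-- The volume of `-K_X`: the upper limit of `dim! * h⁰(X, -m K_X) / m^dim`. -/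
def vol : ℝ≥0∞ :=
  Filter.limsup (fun m : ℕ =>
    ((Nat.factorial X.dim * Module.finrank ℂ (X.antican m) : ℕ) : ℝ≥0∞) / (m : ℝ≥0∞) ^ X.dim)
    Filter.atTop

/-- `S_X(E) = (1 / vol(-K_X)) ∫_0^∞ vol(-K_X - t E) dt`. -/
def DivVal.S (E : X.DivVal) : ℝ≥0∞ :=
  (∫⁻ t in Set.Ioi (0 : ℝ), E.vol t) / X.vol

variable (X) in
/-- K-semistability: `δ(X) = inf_E A_X(E) / S_X(E) ≥ 1`, that is `S_X(E) ≤ A_X(E)` for every
prime divisor `E` over `X` (the valuative criterion of Fujita and Li). -/
def KSemistable : Prop := ∀ E : X.DivVal, E.S ≤ E.logDisc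

variable (X) in
/-- For a nonzero section `s` of `O_X(-m K_X)`, `m ≥ 1`, let `D = (1/m) div(s)`, an effective
`ℚ`-divisor with `D ∼_ℚ -K_X` (and every such divisor is of this form). The pair `(X, t D)` is log
canonical: `A_X(E) ≥ t · ord_E(D)` for every prime divisor `E` over `X`. -/
def IsLC (m : ℕ) (s : X.K) (t : ℝ) : Prop :=
  ∀ E : X.DivVal, ENNReal.ofReal (t * (E.ord m s / m)) ≤ E.logDisc

variable (X) in
/-- The log canonical threshold `lct(X; D) = sup {t ≥ 0 : (X, t D) is log canonical}` of
`D = (1/m) div(s)`. -/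
def lct (m : ℕ) (s : X.K) : ℝ≥0∞ := ⨆ t ∈ {t : ℝ | 0 ≤ t ∧ X.IsLC m s t}, ENNReal.ofReal t

variable (X) in
/-- Tian's alpha invariant: the infimum of `lct(X; D)` over all effective `ℚ`-divisors
`D ∼_ℚ -K_X`, i.e. over all `D = (1/m) div(s)` with `m ≥ 1` and `0 ≠ s ∈ H⁰(X, O_X(-m K_X))`. -/
def alpha : ℝ≥0∞ :=
  ⨅ p ∈ {p : ℕ × X.K | 1 ≤ p.1 ∧ p.2 ∈ X.antican p.1 ∧ p.2 ≠ 0}, X.lct p.1 p.2

end Variety

/-- The set `𝒜_n` of the alpha invariants of the K-semistable klt Fano varieties of dimension `n`. -/
def alphaSet (n : ℕ) : Set ℝ≥0∞ :=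
  {a | ∃ X : Variety, X.dim = n ∧ X.IsFano ∧ X.IsKlt ∧ X.KSemistable ∧ a = X.alpha}

end Pool.Agent.Helper774.KSing
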