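import Pool.Agent.Helper774.KSing.Kss

open scoped ENNReal

noncomputable section

namespace Pool.Agent.Helper774.KSing

open Pool.Agent.Helper774.KStab (TorusField IntVal)

/-- The maximal cones of the hexagonal fan: the rays are the orbits of `(1, 2m)` and `(-1, -m-1)` under the
automorphism `(x, y) ↦ (-y, x - y)` of order three. -/
def hexR (m : ℤ) : Fin 6 → Matrix (Fin 2) (Fin 2) ℤ
  | 0 => !![-2 * m, -1; 1 - 2 * m, -m - 1]
  | 1 => !![-1, 2 * m - 1; -m - 1, -1]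
  | 2 => !![2 * m - 1, m + 1; -1, m]
  | 3 => !![m + 1, 1; m, 2 * m]
  | 4 => !![1, -m; 2 * m, 1]
  | 5 => !![-m, -2 * m; 1, 1 - 2 * m]

/-- The vertices of the polytope, multiplied by `(2m²+1)(2m+1)`. -/
def hexW (m : ℤ) : Fin 6 → Fin 2 → ℤ
  | 0 => ![(2 * m + 1) * (2 - m), (2 * m + 1) * (2 * m - 1)]
  | 1 => ![-(2 * m ^ 2 + 1), 2 * (2 * m ^ 2 + 1)]
  | 2 => ![-((2 * m + 1) * (m + 1)), (2 * m + 1) * (2 - m)]
  | 3 => ![-(2 * m ^ 2 + 1), -(2 * m ^ 2 + 1)]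
  | 4 => ![(2 * m + 1) * (2 * m - 1), -((2 * m + 1) * (m + 1))]
  | 5 => ![2 * (2 * m ^ 2 + 1), -(2 * m ^ 2 + 1)]

theorem hex_det (m : ℤ) (hm : 1 ≤ m) : ∀ σ, (hexR m σ).det ≠ 0 := by
  intro σ
  fin_cases σ <;> simp only [hexR, Matrix.det_fin_two_of, ne_eq] <;> nlinarith

theorem hex_prim (m : ℤ) : ∀ σ j, ∃ u, Matrix.vecMul u (hexR m σ) j = 1 := by
  have h0 : Matrix.vecMul ![1, 0] (hexR m 4) 0 = 1 := by simp [hexR, Matrix.vecMul, dotProduct, Fin.sum_univ_two]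
  intro σ j
  fin_cases σ <;> fin_cases j
  · exact ⟨![-1, 1], by simp [hexR, Matrix.vecMul, dotProduct, Fin.sum_univ_two]⟩
  · exact ⟨![-1, 0], by simp [hexR, Matrix.vecMul, dotProduct, Fin.sum_univ_two]⟩
  · exact ⟨![-1, 0], by simp [hexR, Matrix.vecMul, dotProduct, Fin.sum_univ_two]⟩
  · exact ⟨![0, -1], by simp [hexR, Matrix.vecMul, dotProduct, Fin.sum_univ_two]⟩
  · exact ⟨![0, -1], by simp [hexR, Matrix.vecMul, dotProduct, Fin.sum_univ_two]⟩
  · exact ⟨![1, -1], by simp [hexR, Matrix.vecMul, dotProduct, Fin.sum_univ_two]⟩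
  · exact ⟨![1, -1], by simp [hexR, Matrix.vecMul, dotProduct, Fin.sum_univ_two]⟩
  · exact ⟨![1, 0], by simp [hexR, Matrix.vecMul, dotProduct, Fin.sum_univ_two]⟩
  · exact ⟨![1, 0], by simp [hexR, Matrix.vecMul, dotProduct, Fin.sum_univ_two]⟩
  · exact ⟨![0, 1], by simp [hexR, Matrix.vecMul, dotProduct, Fin.sum_univ_two]⟩
  · exact ⟨![0, 1], by simp [hexR, Matrix.vecMul, dotProduct, Fin.sum_univ_two]⟩
  · exact ⟨![-1, 1], by simp [hexR, Matrix.vecMul, dotProduct, Fin.sum_univ_two]⟩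

theorem hex_self (m : ℤ) : ∀ σ j, Matrix.vecMul (hexW m σ) (hexR m σ) j =
    -((2 * m ^ 2 + 1) * (2 * m + 1)) := by
  intro σ j
  fin_cases σ <;> fin_cases j <;>
    simp [hexR, hexW, Matrix.vecMul, dotProduct, Fin.sum_univ_two] <;> ring

theorem hex_vert (m : ℤ) (hm : 1 ≤ m) : ∀ σ τ j,
    -((2 * m ^ 2 + 1) * (2 * m + 1)) ≤ Matrix.vecMul (hexW m σ) (hexR m τ) j := by
  have h2 : 1 ≤ m ^ 2 := by nlinarith
  have h3 : m ^ 2 ≤ m ^ 3 := by nlinarith
  intro σ τ j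
  fin_cases σ <;> fin_cases τ <;> fin_cases j <;>
    simp [hexR, hexW, Matrix.vecMul, dotProduct, Fin.sum_univ_two] <;> nlinarith

theorem hex_strict (m : ℤ) (hm : 1 ≤ m) : ∀ σ τ j,
    Matrix.vecMul (hexW m σ) (hexR m τ) j = -((2 * m ^ 2 + 1) * (2 * m + 1)) →
      ∃ k, ∀ i, hexR m τ i j = hexR m σ i k := by
  have h2 : 1 ≤ m ^ 2 := by nlinarith
  have h3 : m ^ 2 ≤ m ^ 3 := by nlinarith
  intro σ τ j
  fin_cases σ <;> fin_cases τ <;> fin_cases j <;> intro h <;>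
    first
    | (refine ⟨0, ?_⟩; intro i; fin_cases i <;> rfl)
    | (refine ⟨1, ?_⟩; intro i; fin_cases i <;> rfl)
    | (exfalso; simp [hexR, hexW, Matrix.vecMul, dotProduct, Fin.sum_univ_two] at h; nlinarith)

theorem hex_nbr (m : ℤ) (hm : 1 ≤ m) : ∀ σ i, ∃ τ,
    (∀ j, j ≠ i → Matrix.vecMul (hexW m τ) (hexR m σ) j = -((2 * m ^ 2 + 1) * (2 * m + 1))) ∧
    Matrix.vecMul (hexW m τ) (hexR m σ) i ≠ -((2 * m ^ 2 + 1) * (2 * m + 1)) := by
  have h2 : 1 ≤ m ^ 2 := by nlinarith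
  have h3 : m ^ 2 ≤ m ^ 3 := by nlinarith
  have key : ∀ (σ τ : Fin 6) (i j : Fin 2), i ≠ j →
      Matrix.vecMul (hexW m τ) (hexR m σ) j = -((2 * m ^ 2 + 1) * (2 * m + 1)) →
      Matrix.vecMul (hexW m τ) (hexR m σ) i ≠ -((2 * m ^ 2 + 1) * (2 * m + 1)) →
      ∃ τ, (∀ j, j ≠ i → Matrix.vecMul (hexW m τ) (hexR m σ) j = -((2 * m ^ 2 + 1) * (2 * m + 1))) ∧
        Matrix.vecMul (hexW m τ) (hexR m σ) i ≠ -((2 * m ^ 2 + 1) * (2 * m + 1)) := by
    intro σ τ i j hij h1 h2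
    refine ⟨τ, fun j' hj' => ?_, h2⟩
    have : j' = j := by omega
    rw [this]; exact h1
  intro σ i
  fin_cases σ <;> fin_cases i
  · refine key 0 1 0 1 (by decide) ?_ ?_ <;> simp [hexR, hexW, Matrix.vecMul, dotProduct, Fin.sum_univ_two] <;> first | (intro h; nlinarith) | ring
  · refine key 0 5 1 0 (by decide) ?_ ?_ <;> simp [hexR, hexW, Matrix.vecMul, dotProduct, Fin.sum_univ_two] <;> first | (intro h; nlinarith) | ring
  · refine key 1 2 0 1 (by decide) ?_ ?_ <;> simp [hexR, hexW, Matrix.vecMul, dotProduct, Fin.sum_univ_two] <;> first | (intro h; nlinarith) | ring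
  · refine key 1 0 1 0 (by decide) ?_ ?_ <;> simp [hexR, hexW, Matrix.vecMul, dotProduct, Fin.sum_univ_two] <;> first | (intro h; nlinarith) | ring
  · refine key 2 3 0 1 (by decide) ?_ ?_ <;> simp [hexR, hexW, Matrix.vecMul, dotProduct, Fin.sum_univ_two] <;> first | (intro h; nlinarith) | ring
  · refine key 2 1 1 0 (by decide) ?_ ?_ <;> simp [hexR, hexW, Matrix.vecMul, dotProduct, Fin.sum_univ_two] <;> first | (intro h; nlinarith) | ring
  · refine key 3 4 0 1 (by decide) ?_ ?_ <;> simp [hexR, hexW, Matrix.vecMul, dotProduct, Fin.sum_univ_two] <;> first | (intro h; nlinarith) | ring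
  · refine key 3 2 1 0 (by decide) ?_ ?_ <;> simp [hexR, hexW, Matrix.vecMul, dotProduct, Fin.sum_univ_two] <;> first | (intro h; nlinarith) | ring
  · refine key 4 5 0 1 (by decide) ?_ ?_ <;> simp [hexR, hexW, Matrix.vecMul, dotProduct, Fin.sum_univ_two] <;> first | (intro h; nlinarith) | ring
  · refine key 4 3 1 0 (by decide) ?_ ?_ <;> simp [hexR, hexW, Matrix.vecMul, dotProduct, Fin.sum_univ_two] <;> first | (intro h; nlinarith) | ring
  · refine key 5 0 0 1 (by decide) ?_ ?_ <;> simp [hexR, hexW, Matrix.vecMul, dotProduct, Fin.sum_univ_two] <;> first | (intro h; nlinarith) | ring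
  · refine key 5 4 1 0 (by decide) ?_ ?_ <;> simp [hexR, hexW, Matrix.vecMul, dotProduct, Fin.sum_univ_two] <;> first | (intro h; nlinarith) | ring

/-- The data of the hexagonal toric surface. -/
def hexData (m : ℕ) (hm : 1 ≤ m) : SData 2 where
  pos := by norm_num
  ι := Fin 6
  R := hexR m
  det_ne := hex_det m (by exact_mod_cast hm)
  prim := hex_prim m
  r := (2 * m ^ 2 + 1) * (2 * m + 1)
  r_pos := Nat.one_le_iff_ne_zero.2 (by positivity)
  w := hexW m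
  w_self := by
    intro σ j
    rw [hex_self]; push_cast; ring
  vert := by
    intro σ τ j
    have := hex_vert m (by exact_mod_cast hm) σ τ j
    push_cast at this ⊢
    linarith
  strict := by
    intro σ τ j h
    refine hex_strict m (by exact_mod_cast hm) σ τ j ?_
    rw [h]; push_cast; ring
  nbr := by
    intro σ i
    obtain ⟨τ, h1, h2⟩ := hex_nbr m (by exact_mod_cast hm) σ i
    refine ⟨τ, fun j hj => ?_, fun h => h2 ?_⟩
    · rw [h1 j hj]; push_cast; ring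
    · rw [h]; push_cast; ring
  ne := ⟨(0 : Fin 6)⟩

open MeasureTheory

theorem lin_inv {n : ℕ} (M N : Matrix (Fin n) (Fin n) ℝ) (hM : M * N = 1) (hN : N * M = 1)
    (hdet : |M.det| = 1) (P : Set (Fin n → ℝ)) (hP : ∀ p ∈ P, M.mulVec p ∈ P)
    (hP' : ∀ p ∈ P, N.mulVec p ∈ P) (f : (Fin n → ℝ) → ℝ) :
    ∫ p in P, f (M.mulVec p) = ∫ p in P, f p := by
  have hinv : ∀ p, M.mulVec (N.mulVec p) = p := by
    intro p
    rw [Matrix.mulVec_mulVec, hM, Matrix.one_mulVec]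
  have hinv' : ∀ p, N.mulVec (M.mulVec p) = p := by
    intro p
    rw [Matrix.mulVec_mulVec, hN, Matrix.one_mulVec]
  have hmeas : Measurable fun p : Fin n → ℝ => M.mulVec p := by
    have : Continuous fun p : Fin n → ℝ => M.mulVec p := by fun_prop
    exact this.measurable
  have hmeas' : Measurable fun p : Fin n → ℝ => N.mulVec p := by
    have : Continuous fun p : Fin n → ℝ => N.mulVec p := by fun_prop
    exact this.measurable
  let e : (Fin n → ℝ) ≃ᵐ (Fin n → ℝ) :=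
    { toFun := fun p => M.mulVec p
      invFun := fun p => N.mulVec p
      left_inv := hinv'
      right_inv := hinv
      measurable_toFun := hmeas
      measurable_invFun := hmeas' }
  have hmp : MeasurePreserving e volume volume := by
    refine ⟨e.measurable, ?_⟩
    have h := Real.map_matrix_volume_pi_eq_smul_volume_pi (M := M) (by
      intro h0
      rw [h0] at hdet
      simp at hdet)
    have h2 : (Matrix.toLin' M : (Fin n → ℝ) → (Fin n → ℝ)) = e := by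
      funext p
      rw [Matrix.toLin'_apply]
      rfl
    rw [h2] at h
    rw [h, abs_inv, hdet]
    simp
  have hpre : e ⁻¹' P = P := by
    ext p
    constructor
    · intro h
      have h1 := hP' _ h
      have h2 : N.mulVec (e p) = p := hinv' p
      rwa [h2] at h1
    · intro h
      exact hP p h
  have h := hmp.setIntegral_preimage_emb e.measurableEmbedding f P
  rw [hpre] at h
  exact h

theorem mem_hex (m : ℕ) (hm : 1 ≤ m) (p : Fin 2 → ℝ) : p ∈ (hexData m hm).P ↔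
    (-1 ≤ p 0 + p 1 * (2 * m) ∧ -1 ≤ p 0 * (-2 * m) + p 1 * (1 - 2 * m) ∧
      -1 ≤ p 0 * (2 * m - 1) - p 1) ∧
    (-1 ≤ -p 0 + p 1 * (-m - 1) ∧ -1 ≤ p 0 * (m + 1) + p 1 * m ∧ -1 ≤ p 0 * (-m) + p 1) := by
  constructor
  · intro h
    have h1 := h (0 : Fin 6) 0
    have h2 := h (0 : Fin 6) 1
    have h3 := h (2 : Fin 6) 0
    have h4 := h (2 : Fin 6) 1
    have h5 := h (4 : Fin 6) 0
    have h6 := h (4 : Fin 6) 1
    simp [hexData, hexR, Fin.sum_univ_two] at h1 h2 h3 h4 h5 h6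
    refine ⟨⟨?_, ?_, ?_⟩, ⟨?_, ?_, ?_⟩⟩ <;> linarith
  · rintro ⟨⟨h1, h2, h3⟩, ⟨h4, h5, h6⟩⟩ (σ : Fin 6) j
    fin_cases σ <;> fin_cases j <;> simp [hexData, hexR, Fin.sum_univ_two] <;> linarith

theorem hex_bounded (m : ℕ) (hm : 1 ≤ m) : Bornology.IsBounded (hexData m hm).P := by
  refine (Metric.isBounded_Icc (fun _ => (-10 * m - 10 : ℝ)) (fun _ => 10 * m + 10)).subset ?_
  intro p hp
  obtain ⟨⟨h1, h2, h3⟩, ⟨h4, h5, h6⟩⟩ := (mem_hex m hm p).1 hp
  have hm' : (1 : ℝ) ≤ m := by exact_mod_cast hm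
  -- u0, u1, u2 sum to zero
  have e1 : p 0 + p 1 * (2 * m) ≤ 2 := by linarith
  have e3 : p 0 * (2 * m - 1) - p 1 ≤ 2 := by linarith
  -- D * p0 = (p·u0) * 1 + 2m * (p·u2)
  have hD : (0 : ℝ) < 4 * m ^ 2 - 2 * m + 1 := by nlinarith
  have k0 : (4 * (m : ℝ) ^ 2 - 2 * m + 1) * p 0 =
      (p 0 + p 1 * (2 * m)) + 2 * m * (p 0 * (2 * m - 1) - p 1) := by ring
  have k1 : (4 * (m : ℝ) ^ 2 - 2 * m + 1) * p 1 =
      (2 * m - 1) * (p 0 + p 1 * (2 * m)) - (p 0 * (2 * m - 1) - p 1) := by ring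
  have a0 : (4 * (m : ℝ) ^ 2 - 2 * m + 1) * p 0 ≤ 2 + 4 * m := by rw [k0]; nlinarith
  have a1 : -(1 + 2 * m) ≤ (4 * (m : ℝ) ^ 2 - 2 * m + 1) * p 0 := by rw [k0]; nlinarith
  have a2 : (4 * (m : ℝ) ^ 2 - 2 * m + 1) * p 1 ≤ 4 * m := by rw [k1]; nlinarith
  have a3 : -(4 * m + 2) ≤ (4 * (m : ℝ) ^ 2 - 2 * m + 1) * p 1 := by rw [k1]; nlinarith
  have hD1 : (1 : ℝ) ≤ 4 * m ^ 2 - 2 * m + 1 := by nlinarith
  rw [Set.mem_Icc, Pi.le_def, Pi.le_def]
  constructor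
  · intro i
    fin_cases i
    · show (-10 * m - 10 : ℝ) ≤ p 0
      by_contra hc
      push Not at hc
      nlinarith
    · show (-10 * m - 10 : ℝ) ≤ p 1
      by_contra hc
      push Not at hc
      nlinarith
  · intro i
    fin_cases i
    · show p 0 ≤ (10 * m + 10 : ℝ)
      by_contra hc
      push Not at hc
      nlinarith
    · show p 1 ≤ (10 * m + 10 : ℝ)
      by_contra hc
      push Not at hc
      nlinarith

theorem hex_bary (m : ℕ) (hm : 1 ≤ m) : ∀ i, ∫ p in (hexData m hm).P, p i = 0 := by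
  have hc : IsCompact (hexData m hm).P :=
    Metric.isCompact_of_isClosed_isBounded (hexData m hm).P_closed (hex_bounded m hm)
  have I : ∀ i, IntegrableOn (fun p : Fin 2 → ℝ => p i) (hexData m hm).P := fun i =>
    (continuous_apply i).continuousOn.integrableOn_compact hc
  have hM : (!![0, 1; -1, -1] : Matrix (Fin 2) (Fin 2) ℝ) * !![-1, -1; 1, 0] = 1 := by
    ext i j
    fin_cases i <;> fin_cases j <;> simp [Matrix.mul_apply, Fin.sum_univ_two]
  have hN : (!![-1, -1; 1, 0] : Matrix (Fin 2) (Fin 2) ℝ) * !![0, 1; -1, -1] = 1 := by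
    ext i j
    fin_cases i <;> fin_cases j <;> simp [Matrix.mul_apply, Fin.sum_univ_two]
  have key := lin_inv !![0, 1; -1, -1] !![-1, -1; 1, 0] hM hN (by simp) (hexData m hm).P (by
      intro p hp
      rw [mem_hex] at hp ⊢
      obtain ⟨⟨h1, h2, h3⟩, ⟨h4, h5, h6⟩⟩ := hp
      simp [Matrix.mulVec, dotProduct, Fin.sum_univ_two]
      refine ⟨⟨?_, ?_, ?_⟩, ⟨?_, ?_, ?_⟩⟩ <;> nlinarith) (by
      intro p hp
      rw [mem_hex] at hp ⊢
      obtain ⟨⟨h1, h2, h3⟩, ⟨h4, h5, h6⟩⟩ := hp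
      simp [Matrix.mulVec, dotProduct, Fin.sum_univ_two]
      refine ⟨⟨?_, ?_, ?_⟩, ⟨?_, ?_, ?_⟩⟩ <;> nlinarith)
  have e0 : ∀ p : Fin 2 → ℝ, (Matrix.mulVec !![0, 1; -1, -1] p) 0 = p 1 := by
    intro p
    simp [Matrix.mulVec, dotProduct, Fin.sum_univ_two]
  have e1 : ∀ p : Fin 2 → ℝ, (Matrix.mulVec !![0, 1; -1, -1] p) 1 = -p 0 - p 1 := by
    intro p
    simp [Matrix.mulVec, dotProduct, Fin.sum_univ_two]
    ring
  have k0 := key (fun p => p 0)
  have k1 := key (fun p => p 1)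
  simp only [e0] at k0
  simp only [e1] at k1
  have h3 : ∫ p in (hexData m hm).P, (-p 0 - p 1) =
      (∫ p in (hexData m hm).P, -p 0) - ∫ p in (hexData m hm).P, p 1 :=
    integral_sub (f := fun p : Fin 2 → ℝ => -p 0) (g := fun p : Fin 2 → ℝ => p 1) (I 0).neg (I 1)
  rw [h3, integral_neg] at k1
  intro i
  fin_cases i
  · show ∫ p in (hexData m hm).P, p 0 = 0
    linarith
  · show ∫ p in (hexData m hm).P, p 1 = 0
    linarith

theorem j12796_num1 (m k A C W : ℤ) (hm : 1 ≤ m)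
    (h : m * (2 * m + 1) * A = -((4 * m ^ 2 - 2 * m + 1) * W) - (m - 1) * C)
    (hW : -k ≤ W) (hC : -k ≤ C) : A * (2 * m + 1) ≤ (4 * m - 1) * k := by
  have hD : 0 ≤ 4 * m ^ 2 - 2 * m + 1 := by nlinarith
  have h1 : 0 ≤ (4 * m ^ 2 - 2 * m + 1) * (W + k) := mul_nonneg hD (by linarith)
  have h2 : 0 ≤ (m - 1) * (C + k) := mul_nonneg (by linarith) (by linarith)
  have h3 : m * (A * (2 * m + 1)) ≤ m * ((4 * m - 1) * k) := by nlinarith
  exact le_of_mul_le_mul_left h3 (by linarith)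

theorem j12796_num2 (m k A C W : ℤ) (hm : 1 ≤ m) (hk : 0 ≤ k)
    (h : m * (2 * m + 1) * A = -((4 * m ^ 2 - 2 * m + 1) * W) - (m - 1) * C)
    (hA : -k ≤ A) (hC : -k ≤ C) : W * (2 * m + 1) ≤ (4 * m - 1) * k := by
  have hD : 0 < 4 * m ^ 2 - 2 * m + 1 := by nlinarith
  have h1 : 0 ≤ (m * (2 * m + 1)) * (A + k) :=
    mul_nonneg (mul_nonneg (by linarith) (by linarith)) (by linarith)
  have h2 : 0 ≤ (m - 1) * (C + k) := mul_nonneg (by linarith) (by linarith)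
  have h3 : (4 * m ^ 2 - 2 * m + 1) * W ≤ (2 * m ^ 2 + 2 * m - 1) * k := by nlinarith
  have h4 : (2 * m + 1) * ((4 * m ^ 2 - 2 * m + 1) * W) ≤
      (2 * m + 1) * ((2 * m ^ 2 + 2 * m - 1) * k) := mul_le_mul_of_nonneg_left h3 (by linarith)
  have h5 : 0 ≤ 6 * m * ((2 * m - 1) * (m - 1)) * k := by
    refine mul_nonneg (mul_nonneg (by linarith) (mul_nonneg (by linarith) (by linarith))) hk
  have h6 : (4 * m ^ 2 - 2 * m + 1) * (W * (2 * m + 1)) ≤
      (4 * m ^ 2 - 2 * m + 1) * ((4 * m - 1) * k) := by nlinarith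
  exact le_of_mul_le_mul_left h6 hD

theorem j12796_vec (m : ℤ) (u : Fin 2 → ℤ) (σ : Fin 6) (j : Fin 2) :
    Matrix.vecMul u (hexR m σ) j = u 0 * hexR m σ 0 j + u 1 * hexR m σ 1 j := by
  simp [Matrix.vecMul, dotProduct, Fin.sum_univ_two]

theorem j12796_main (m k : ℤ) (hm : 1 ≤ m) (hk : 0 ≤ k) (u : Fin 2 → ℤ)
    (hu : ∀ (σ : Fin 6) (j : Fin 2), -k ≤ Matrix.vecMul u (hexR m σ) j) (σ : Fin 6) (j : Fin 2) :
    Matrix.vecMul u (hexR m σ) j * (2 * m + 1) ≤ (4 * m - 1) * k := by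
  have h40 := hu 4 0
  have h00 := hu 0 0
  have h20 := hu 2 0
  have h10 := hu 1 0
  have h30 := hu 3 0
  have h50 := hu 5 0
  rw [j12796_vec] at h40 h00 h20 h10 h30 h50 ⊢
  simp only [hexR, Matrix.of_apply, Matrix.cons_val', Matrix.cons_val_zero, Matrix.cons_val_one,
    Matrix.cons_val_fin_one] at h40 h00 h20 h10 h30 h50
  have a0 := j12796_num1 m k (u 0 * 1 + u 1 * (2 * m)) (u 0 * (2 * m - 1) + u 1 * -1)
    (u 0 * -1 + u 1 * (-m - 1)) hm (by ring) h10 h20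
  have a1 := j12796_num1 m k (u 0 * (-2 * m) + u 1 * (1 - 2 * m)) (u 0 * 1 + u 1 * (2 * m))
    (u 0 * (m + 1) + u 1 * m) hm (by ring) h30 h40
  have a2 := j12796_num1 m k (u 0 * (2 * m - 1) + u 1 * -1) (u 0 * (-2 * m) + u 1 * (1 - 2 * m))
    (u 0 * -m + u 1 * 1) hm (by ring) h50 h00
  have b0 := j12796_num2 m k (u 0 * 1 + u 1 * (2 * m)) (u 0 * (2 * m - 1) + u 1 * -1)
    (u 0 * -1 + u 1 * (-m - 1)) hm hk (by ring) h40 h20
  have b1 := j12796_num2 m k (u 0 * (-2 * m) + u 1 * (1 - 2 * m)) (u 0 * 1 + u 1 * (2 * m))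
    (u 0 * (m + 1) + u 1 * m) hm hk (by ring) h00 h40
  have b2 := j12796_num2 m k (u 0 * (2 * m - 1) + u 1 * -1) (u 0 * (-2 * m) + u 1 * (1 - 2 * m))
    (u 0 * -m + u 1 * 1) hm hk (by ring) h20 h00
  fin_cases σ <;> fin_cases j
  · exact a1
  · exact b0
  · exact b0
  · exact a2
  · exact a2
  · exact b1
  · exact b1
  · exact a0
  · exact a0
  · exact b2
  · exact b2
  · exact a1

theorem hex_max (m : ℕ) (hm : 1 ≤ m) (k : ℕ) (u : Fin 2 → ℤ) (hk : 1 ≤ k)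
    (hu : u ∈ (hexData m hm).pts k) (σ : (hexData m hm).ι) (j : Fin 2) :
    ((Matrix.vecMul u ((hexData m hm).R σ) j : ℤ) : ℝ) ≤ (4 * m - 1) / (2 * m + 1) * k := by
  have h1 := j12796_main (m : ℤ) (k : ℤ) (by exact_mod_cast hm) (by positivity) u
    (fun σ j => hu σ j) σ j
  have hm' : (0 : ℝ) < 2 * m + 1 := by positivity
  rw [div_mul_eq_mul_div, le_div_iff₀ hm']
  have h2 : ((Matrix.vecMul u (hexR m σ) j * (2 * m + 1) : ℤ) : ℝ) ≤
    (((4 * m - 1) * k : ℤ) : ℝ) := by exact_mod_cast h1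
  push_cast at h2
  exact h2

theorem hex_attained (m : ℕ) (hm : 1 ≤ m) :
    ∃ (Em Rm : Matrix (Fin 2) (Fin 2) ℤ) (i : Fin 2) (σ : (hexData m hm).ι) (j : Fin 2) (k : ℕ)
      (u : Fin 2 → ℤ), Em * Rm = 1 ∧ (∀ l, Rm l i = (hexData m hm).R σ l j) ∧ 1 ≤ k ∧
      u ∈ (hexData m hm).pts k ∧
      ((Matrix.vecMul u ((hexData m hm).R σ) j : ℤ) : ℝ) = (4 * m - 1) / (2 * m + 1) * k := by
  have hm' : (0 : ℝ) < 2 * m + 1 := by positivity
  refine ⟨!![1, 0; -2 * (m : ℤ), 1], !![1, 0; 2 * (m : ℤ), 1], 0, (4 : Fin 6), 0,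
    (2 * m ^ 2 + 1) * (2 * m + 1), hexW m 1, ?_, ?_, ?_, ?_, ?_⟩
  · ext i j
    fin_cases i <;> fin_cases j <;> simp [Matrix.mul_apply, Fin.sum_univ_two]
  · intro l
    show _ = hexR m 4 l 0
    fin_cases l <;> simp [hexR]
  · exact Nat.one_le_iff_ne_zero.2 (by positivity)
  · intro σ j
    have := hex_vert m (by exact_mod_cast hm) 1 σ j
    push_cast at this ⊢
    exact this
  · have h1 : Matrix.vecMul (hexW m 1) (hexR m 4) 0 = (4 * m - 1) * (2 * m ^ 2 + 1) := by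
      rw [j12796_vec]
      simp [hexR, hexW]
      ring
    have h2 : ((Matrix.vecMul (hexW m 1) (hexR m 4) 0 : ℤ) : ℝ) =
        (4 * m - 1) * (2 * m ^ 2 + 1) := by
      rw [h1]
      push_cast
      ring
    refine Eq.trans h2 ?_
    push_cast
    field_simp

end Pool.Agent.Helper774.KSing
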