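import Pool.Agent.Helper774.KSing.Bd
import Pool.Agent.Helper774.KStab.Polytope

open scoped ENNReal

noncomputable section

namespace Pool.Agent.Helper774.KSing

open Pool.Agent.Helper774.KStab (TorusField IntVal)
open Pool.Agent.Helper774.KStab (finrank_le_card finrank_span_image lattice_count layer_cake)

variable {n : ℕ} {K : Type} [Field K] [Algebra ℂ K]

open MeasureTheory

theorem SData.P_closed (D : SData n) : IsClosed D.P := by
  have h : D.P = ⋂ σ, ⋂ j, {p : Fin n → ℝ | -1 ≤ ∑ i, p i * ((D.R σ i j : ℤ) : ℝ)} := by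
    ext p
    simp [SData.P]
  rw [h]
  exact isClosed_iInter fun σ => isClosed_iInter fun j =>
    isClosed_le continuous_const (by fun_prop)

theorem SData.P_convex (D : SData n) : Convex ℝ D.P := by
  intro p hp q hq a b ha hb hab σ j
  have h1 := hp σ j
  have h2 := hq σ j
  have h3 : ∑ i, (a • p + b • q) i * ((D.R σ i j : ℤ) : ℝ) =
      a * ∑ i, p i * ((D.R σ i j : ℤ) : ℝ) + b * ∑ i, q i * ((D.R σ i j : ℤ) : ℝ) := by
    rw [Finset.mul_sum, Finset.mul_sum, ← Finset.sum_add_distrib]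
    refine Finset.sum_congr rfl fun i _ => ?_
    simp only [Pi.add_apply, Pi.smul_apply, smul_eq_mul]
    ring
  rw [h3]
  nlinarith

theorem SData.P_volume_pos (D : SData n) : 0 < volume D.P := by
  set U : Set (Fin n → ℝ) :=
    ⋂ σ, ⋂ j, {p : Fin n → ℝ | -1 < ∑ i, p i * ((D.R σ i j : ℤ) : ℝ)} with hU
  have hUo : IsOpen U :=
    isOpen_iInter_of_finite fun σ => isOpen_iInter_of_finite fun j =>
      isOpen_lt continuous_const (by fun_prop)
  have h0 : (0 : Fin n → ℝ) ∈ U := by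
    simp [hU]
  have hUP : U ⊆ D.P := by
    intro p hp σ j
    have h1 : p ∈ {p : Fin n → ℝ | -1 < ∑ i, p i * ((D.R σ i j : ℤ) : ℝ)} :=
      Set.mem_iInter.1 (Set.mem_iInter.1 hp σ) j
    exact le_of_lt h1
  exact lt_of_lt_of_le (hUo.measure_pos volume ⟨0, h0⟩) (measure_mono hUP)

/-- rescaling of the lattice points -/
theorem SData.pts_iff (D : SData n) (m : ℕ) (hm : 1 ≤ m) (u : Fin n → ℤ) :
    u ∈ D.pts m ↔ (fun i => (u i : ℝ) / (m : ℝ)) ∈ D.P := by
  have hm0 : (0 : ℝ) < m := by exact_mod_cast hm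
  unfold SData.pts SData.P
  refine forall_congr' fun σ => forall_congr' fun j => ?_
  have h1 : ∑ i, (u i : ℝ) / (m : ℝ) * ((D.R σ i j : ℤ) : ℝ) =
      ((Matrix.vecMul u (D.R σ) j : ℤ) : ℝ) / m := by
    simp only [Matrix.vecMul, dotProduct]
    push_cast
    rw [Finset.sum_div]
    refine Finset.sum_congr rfl fun i _ => ?_
    ring
  rw [h1, le_div_iff₀ hm0, neg_one_mul]
  constructor
  · intro h
    exact_mod_cast h
  · intro h
    exact_mod_cast h

theorem SData.pts_finite (D : SData n) (hb : Bornology.IsBounded D.P) (m : ℕ) (hm : 1 ≤ m) :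
    (D.pts m).Finite := by
  obtain ⟨B, hB⟩ := hb.exists_norm_le
  have hm0 : (0 : ℝ) < m := by exact_mod_cast hm
  set N : ℤ := ⌈B * m⌉ with hN
  refine (Set.finite_Icc (fun _ : Fin n => -N) (fun _ => N)).subset fun u hu => ?_
  have h1 := hB _ ((D.pts_iff m hm u).1 hu)
  have h2 : ∀ i, |u i| ≤ N := by
    intro i
    have h3 : ‖(u i : ℝ) / (m : ℝ)‖ ≤ B :=
      (norm_le_pi_norm (fun i => (u i : ℝ) / (m : ℝ)) i).trans h1
    rw [Real.norm_eq_abs, abs_div, abs_of_pos hm0, div_le_iff₀ hm0] at h3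
    have h4 : (|u i| : ℝ) ≤ (N : ℝ) := h3.trans (Int.le_ceil _)
    exact_mod_cast h4
  exact ⟨fun i => (abs_le.1 (h2 i)).1, fun i => (abs_le.1 (h2 i)).2⟩

theorem toric_antican_finrank (T : TorusField n K) (D : SData n) (m : ℕ) :
    Module.finrank ℂ ((toricVar T D).antican m) = (D.pts m).ncard := by
  have h : (toricVar T D).antican m = Submodule.span ℂ (T.χ '' D.pts m) := by
    ext f
    exact toric_antican T D m f
  rw [h, finrank_span_image _ T.li]

/-- The anticanonical volume of a toric variety. -/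
theorem toric_vol (T : TorusField n K) (D : SData n) (hb : Bornology.IsBounded D.P) :
    (toricVar T D).vol = (Nat.factorial n : ℝ≥0∞) * volume D.P := by
  have h1 := lattice_count n D.P hb D.P_convex D.P_closed
  have h2 : Filter.Tendsto (fun m : ℕ =>
      ((Nat.factorial n * Module.finrank ℂ ((toricVar T D).antican m) : ℕ) : ℝ≥0∞) /
        (m : ℝ≥0∞) ^ n) Filter.atTop (nhds ((Nat.factorial n : ℝ≥0∞) * volume D.P)) := by
    have h3 := ENNReal.Tendsto.const_mul (a := (Nat.factorial n : ℝ≥0∞)) h1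
      (Or.inr (ENNReal.natCast_ne_top _))
    refine h3.congr' ?_
    filter_upwards [Filter.eventually_ge_atTop 1] with m hm
    rw [toric_antican_finrank]
    have h4 : {u : Fin n → ℤ | (fun i => (u i : ℝ) / (m : ℝ)) ∈ D.P} = D.pts m := by
      ext u
      exact (D.pts_iff m hm u).symm
    rw [h4]
    push_cast
    rw [mul_div_assoc]
  exact h2.limsup_eq

theorem cut_closed (D : SData n) (b : Fin n → ℝ) (A t : ℝ) :
    IsClosed (D.P ∩ {p | t ≤ ∑ i, b i * p i + A}) :=
  D.P_closed.inter (isClosed_le continuous_const (by fun_prop))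

theorem cut_convex (D : SData n) (b : Fin n → ℝ) (A t : ℝ) :
    Convex ℝ (D.P ∩ {p | t ≤ ∑ i, b i * p i + A}) := by
  refine D.P_convex.inter ?_
  intro x hx y hy a c ha hc hac
  simp only [Set.mem_ofPred_eq] at *
  have h : ∑ i, b i * (a • x + c • y) i = a * ∑ i, b i * x i + c * ∑ i, b i * y i := by
    rw [Finset.mul_sum, Finset.mul_sum, ← Finset.sum_add_distrib]
    refine Finset.sum_congr rfl fun i _ => ?_
    simp only [Pi.add_apply, Pi.smul_apply, smul_eq_mul]
    ring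
  rw [h]
  have h1 := mul_le_mul_of_nonneg_left hx ha
  have h2 := mul_le_mul_of_nonneg_left hy hc
  have h3 : a * A + c * A = A := by rw [← add_mul, hac, one_mul]
  have h4 : a * t + c * t = t := by rw [← add_mul, hac, one_mul]
  nlinarith

theorem cut_count (D : SData n) (b : Fin n → ℝ) (A t : ℝ) (m : ℕ) (hm : 1 ≤ m) :
    {u : Fin n → ℤ | (fun i => (u i : ℝ) / (m : ℝ)) ∈ D.P ∩ {p | t ≤ ∑ i, b i * p i + A}} =
      {u ∈ D.pts m | (m : ℝ) * t ≤ ∑ i, b i * (u i : ℝ) + A * m} := by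
  ext u
  simp only [Set.mem_inter_iff, Set.mem_ofPred_eq]
  rw [← D.pts_iff m hm u]
  refine and_congr_right fun _ => ?_
  have hm' : (0 : ℝ) < m := by exact_mod_cast hm
  have h : ∑ i, b i * ((u i : ℝ) / (m : ℝ)) = (∑ i, b i * (u i : ℝ)) / m := by
    rw [Finset.sum_div]
    refine Finset.sum_congr rfl fun i _ => ?_
    ring
  rw [h]
  constructor
  · intro h1
    have h2 := mul_le_mul_of_nonneg_left h1 hm'.le
    have h3 : (m : ℝ) * ((∑ i, b i * (u i : ℝ)) / m + A) = ∑ i, b i * (u i : ℝ) + A * m := by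
      field_simp
    rw [h3] at h2
    exact h2
  · intro h1
    have h3 : (m : ℝ) * ((∑ i, b i * (u i : ℝ)) / m + A) = ∑ i, b i * (u i : ℝ) + A * m := by
      field_simp
    rw [← h3] at h1
    exact le_of_mul_le_mul_left h1 hm'

theorem cut_lim (D : SData n) (hb : Bornology.IsBounded D.P) (b : Fin n → ℝ) (A t : ℝ) :
    Filter.Tendsto (fun m : ℕ =>
      ((Nat.factorial n * {u ∈ D.pts m | (m : ℝ) * t ≤ ∑ i, b i * (u i : ℝ) + A * m}.ncard : ℕ) :
        ℝ≥0∞) / (m : ℝ≥0∞) ^ n) Filter.atTop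
      (nhds ((Nat.factorial n : ℝ≥0∞) * volume (D.P ∩ {p | t ≤ ∑ i, b i * p i + A}))) := by
  have h1 := lattice_count n (D.P ∩ {p | t ≤ ∑ i, b i * p i + A})
    (hb.subset Set.inter_subset_left) (cut_convex D b A t) (cut_closed D b A t)
  have h3 := ENNReal.Tendsto.const_mul (a := (Nat.factorial n : ℝ≥0∞)) h1
    (Or.inr (ENNReal.natCast_ne_top _))
  refine h3.congr' ?_
  filter_upwards [Filter.eventually_ge_atTop 1] with m hm
  rw [cut_count D b A t m hm]
  push_cast
  rw [mul_div_assoc]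

/-- Transfer from counts of lattice points to `S`, upper bound. -/
theorem toric_S_le (T : TorusField n K) (D : SData n) (hb : Bornology.IsBounded D.P)
    (E : (toricVar T D).DivVal) (b : Fin n → ℝ) (A : ℝ)
    (hpos : ∀ p ∈ D.P, 0 ≤ ∑ i, b i * p i + A)
    (hf : ∀ (m : ℕ) (t : ℝ), 1 ≤ m → 0 < t → Module.finrank ℂ (E.filt m t) ≤
      {u ∈ D.pts m | (m : ℝ) * t ≤ ∑ i, b i * (u i : ℝ) + A * m}.ncard) :
    E.S ≤ ENNReal.ofReal (∑ i, b i * (∫ p in D.P, p i) + A * volume.real D.P) / volume D.P := by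
  have hN0 : (Nat.factorial n : ℝ≥0∞) ≠ 0 := by
    exact_mod_cast Nat.factorial_ne_zero n
  have hNt : (Nat.factorial n : ℝ≥0∞) ≠ ⊤ := ENNReal.natCast_ne_top _
  have h1 : ∀ t : ℝ, 0 < t → E.vol t ≤
      (Nat.factorial n : ℝ≥0∞) * volume (D.P ∩ {p | t ≤ ∑ i, b i * p i + A}) := by
    intro t ht
    rw [← (cut_lim D hb b A t).limsup_eq]
    refine Filter.limsup_le_limsup ?_
    filter_upwards [Filter.eventually_ge_atTop 1] with m hm
    refine ENNReal.div_le_div_right ?_ _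
    exact_mod_cast Nat.mul_le_mul_left _ (hf m t hm ht)
  have h2 : ∫⁻ t in Set.Ioi (0 : ℝ), E.vol t ≤ (Nat.factorial n : ℝ≥0∞) *
      ENNReal.ofReal (∑ i, b i * (∫ p in D.P, p i) + A * volume.real D.P) := by
    rw [← layer_cake D.P hb D.P_closed b A hpos, ← lintegral_const_mul' _ _ hNt]
    exact setLIntegral_mono' measurableSet_Ioi fun t ht => h1 t ht
  unfold Variety.DivVal.S
  rw [toric_vol T D hb, ← ENNReal.mul_div_mul_left
    (ENNReal.ofReal (∑ i, b i * (∫ p in D.P, p i) + A * volume.real D.P)) (volume D.P) hN0 hNt]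
  exact ENNReal.div_le_div_right h2 _

/-- A toric Fano variety with barycentre `0` is K-semistable. -/
theorem toric_KSemistable (T : TorusField n K) (D : SData n) (hb : Bornology.IsBounded D.P)
    (hbar : ∀ i, ∫ p in D.P, p i = 0) : (toricVar T D).KSemistable := by
  intro E
  by_cases hlog : E.logDisc = ⊤
  · rw [hlog]; exact le_top
  obtain ⟨-, σ, a, ha0, haA, hbd⟩ := toric_bound T D E hlog
  have hV0 : volume D.P ≠ 0 := D.P_volume_pos.ne'
  have hVt : volume D.P ≠ ⊤ := hb.measure_lt_top.ne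
  have hpos : ∀ p ∈ D.P, 0 ≤ ∑ i, (∑ j, ((D.R σ i j : ℤ) : ℝ) * a j) * p i + ∑ j, a j := by
    intro p hp
    have h1 : ∑ i, (∑ j, ((D.R σ i j : ℤ) : ℝ) * a j) * p i + ∑ j, a j =
        ∑ j, a j * (∑ i, p i * ((D.R σ i j : ℤ) : ℝ) + 1) := by
      have h2 : ∀ j, a j * (∑ i, p i * ((D.R σ i j : ℤ) : ℝ) + 1) =
          ∑ i, ((D.R σ i j : ℤ) : ℝ) * a j * p i + a j := by
        intro j
        rw [mul_add, mul_one, Finset.mul_sum]
        congr 1
        exact Finset.sum_congr rfl (fun i _ => by ring)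
      simp_rw [h2]
      rw [Finset.sum_add_distrib]
      congr 1
      simp_rw [Finset.sum_mul]
      exact Finset.sum_comm
    rw [h1]
    refine Finset.sum_nonneg (fun j _ => mul_nonneg (ha0 j) ?_)
    have := hp σ j
    linarith
  have hf : ∀ (m : ℕ) (t : ℝ), 1 ≤ m → 0 < t → Module.finrank ℂ (E.filt m t) ≤
      {u ∈ D.pts m | (m : ℝ) * t ≤ ∑ i, (∑ j, ((D.R σ i j : ℤ) : ℝ) * a j) * (u i : ℝ) +
        (∑ j, a j) * m}.ncard := by
    intro m t hm ht
    set Us : Set (Fin n → ℤ) := {u ∈ D.pts m | (m : ℝ) * t ≤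
      ∑ i, (∑ j, ((D.R σ i j : ℤ) : ℝ) * a j) * (u i : ℝ) + (∑ j, a j) * m} with hUs
    have hUfin : Us.Finite := (D.pts_finite hb m hm).subset fun u hu => hu.1
    rw [Set.ncard_eq_toFinset_card _ hUfin]
    apply finrank_le_card T.χ T.li
    intro f hf hf0
    obtain ⟨hfa, hft⟩ := hf
    rw [toric_antican, Finsupp.mem_span_image_iff_linearCombination] at hfa
    obtain ⟨c, hc, hcf⟩ := hfa
    rw [Finsupp.mem_supported] at hc
    refine ⟨c, hcf.symm, ?_⟩
    have hc0 : c ≠ 0 := by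
      rintro rfl
      rw [map_zero] at hcf
      exact hf0 hcf.symm
    obtain ⟨u, hu, hest⟩ := hbd m c hc0 (fun u hu => hc hu)
    rw [hcf] at hest
    refine ⟨u, ?_, Finsupp.mem_support_iff.1 hu⟩
    rw [Set.Finite.mem_toFinset]
    refine ⟨hc hu, ?_⟩
    obtain ⟨k, hk⟩ := iv_fin E (show (f : (toricVar T D).K) ≠ 0 from hf0)
    have h3 := hft k hk
    have h4 : E.ord m f = (k : ℝ) + m * E.canOrd := by
      unfold Variety.DivVal.ord
      rw [hk]
      rfl
    rw [h4] at hest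
    refine h3.trans (hest.trans (le_of_eq ?_))
    have h2 : ∀ j, a j * ((Matrix.vecMul u (D.R σ) j : ℤ) + (m : ℝ)) =
        ∑ i, ((D.R σ i j : ℤ) : ℝ) * a j * (u i : ℝ) + a j * m := by
      intro j
      have h3 : ((Matrix.vecMul u (D.R σ) j : ℤ) : ℝ) = ∑ i, (u i : ℝ) * ((D.R σ i j : ℤ) : ℝ) := by
        simp only [Matrix.vecMul, dotProduct]
        push_cast
        rfl
      rw [h3, mul_add, Finset.mul_sum]
      congr 1
      exact Finset.sum_congr rfl (fun i _ => by ring)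
    simp_rw [h2]
    rw [Finset.sum_add_distrib, Finset.sum_mul]
    congr 1
    simp_rw [Finset.sum_mul]
    exact Finset.sum_comm
  have hS := toric_S_le T D hb E (fun i => ∑ j, ((D.R σ i j : ℤ) : ℝ) * a j)
    (∑ j, a j) hpos hf
  refine hS.trans (le_trans (le_of_eq ?_) haA)
  have h0 : ∑ i, (∑ j, ((D.R σ i j : ℤ) : ℝ) * a j) * (∫ p in D.P, p i) = 0 :=
    Finset.sum_eq_zero (fun i _ => by rw [hbar i, mul_zero])
  have hA0 : 0 ≤ ∑ j, a j := Finset.sum_nonneg (fun j _ => ha0 j)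
  show ENNReal.ofReal (∑ i, (∑ j, ((D.R σ i j : ℤ) : ℝ) * a j) * (∫ p in D.P, p i) +
    (∑ j, a j) * volume.real D.P) / volume D.P = _
  rw [h0, zero_add, ENNReal.ofReal_mul hA0]
  have hreal : ENNReal.ofReal (volume.real D.P) = volume D.P := ENNReal.ofReal_toReal hVt
  rw [hreal]
  exact ENNReal.mul_div_cancel_right hV0 hVt

end Pool.Agent.Helper774.KSing
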