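import Pool.Agent.Helper774.KSing.Prod

open scoped ENNReal

noncomputable section

namespace Pool.Agent.Helper774.KSing

open Pool.Agent.Helper774.KStab (TorusField IntVal)

variable {n : ℕ} {K : Type} [Field K] [Algebra ℂ K]

theorem good_mem {n : ℕ} (D : SData (n + 1)) (M : ℝ) (hM : 0 ≤ M) (h : Good D M) :
    ENNReal.ofReal (1 / (1 + M)) ∈ alphaSet (n + 1) := by
  obtain ⟨K, _, _, ⟨T⟩⟩ := Pool.Agent.Helper774.KStab.exists_torusField (n + 1)
  obtain ⟨hb, hbar, hmax, Em, Rm, i, σ, j, k, u, h1, h2, h3, h4, h5⟩ := h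
  refine ⟨toricVar T D, rfl, toric_isFano T D, toric_klt T D, toric_KSemistable T D hb hbar, ?_⟩
  exact le_antisymm (alpha_ge T D M hM hmax) (alpha_le T D Em Rm h1 i σ j h2 k h3 u h4 M hM h5)

theorem hex_good (m : ℕ) (hm : 1 ≤ m) : Good (hexData m hm) ((4 * m - 1) / (2 * m + 1)) :=
  ⟨hex_bounded m hm, hex_bary m hm, fun k u hk hu σ j => hex_max m hm k u hk hu σ j,
    hex_attained m hm⟩

theorem exists_good (m : ℕ) (hm : 1 ≤ m) (n : ℕ) :
    ∃ D : SData (n + 2), Good D ((4 * m - 1) / (2 * m + 1)) := by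
  have hm' : (1 : ℝ) ≤ m := by exact_mod_cast hm
  induction n with
  | zero => exact ⟨hexData m hm, hex_good m hm⟩
  | succ n ih =>
    obtain ⟨D, hD⟩ := ih
    refine ⟨prodData D, good_prod D _ ?_ hD⟩
    rw [le_div_iff₀ (by positivity)]
    linarith

/-- For all `n ≥ 2` and `m ≥ 1` there is a K-semistable klt Fano variety of dimension `n` with alpha
invariant `1/3 + 1/(6m)`. -/
theorem mem_alphaSet (n : ℕ) (hn : 2 ≤ n) (m : ℕ) (hm : 1 ≤ m) :
    ENNReal.ofReal (1 / 3 + 1 / (6 * m)) ∈ alphaSet n := by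
  obtain ⟨k, rfl⟩ := Nat.exists_eq_add_of_le' hn
  obtain ⟨D, hD⟩ := exists_good m hm k
  have hm' : (1 : ℝ) ≤ m := by exact_mod_cast hm
  have h0 : (0 : ℝ) ≤ (4 * m - 1) / (2 * m + 1) := by
    apply div_nonneg <;> linarith
  have h := good_mem D _ h0 hD
  have e : (1 : ℝ) / (1 + (4 * m - 1) / (2 * m + 1)) = 1 / 3 + 1 / (6 * m) := by
    have h1 : (0 : ℝ) < 2 * m + 1 := by linarith
    have h2 : (0 : ℝ) < m := by linarith
    have h3 : (1 : ℝ) + (4 * m - 1) / (2 * m + 1) = 6 * m / (2 * m + 1) := by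
      field_simp
      ring
    rw [h3]
    field_simp
    ring
  rw [e] at h
  exact h

end Pool.Agent.Helper774.KSing
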