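import Pool.Agent.Helper774.KStab.Mono
import Pool.Agent.Helper774.KSing.Defs

open scoped ENNReal

noncomputable section

namespace Pool.Agent.Helper774.KSing

open Pool.Agent.Helper774.KStab (TorusField IntVal)

variable {n : ℕ} {K : Type} [Field K] [Algebra ℂ K]

/-- Exponents `u` with `⟨u, v_j⟩ ≥ k` for all columns `v_j` of `R`. -/
def Mset (R : Matrix (Fin n) (Fin n) ℤ) (k : ℤ) : Set (Fin n → ℤ) :=
  {u | ∀ j, k ≤ Matrix.vecMul u R j}

/-- Span of the monomials with exponents in `Mset R k`. -/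
def mspan (T : TorusField n K) (R : Matrix (Fin n) (Fin n) ℤ) (k : ℤ) : Submodule ℂ K :=
  Submodule.span ℂ (T.χ '' Mset R k)

/-- The coordinate ring of the affine toric variety of the cone spanned by the columns of `R`. -/
def cone (T : TorusField n K) (R : Matrix (Fin n) (Fin n) ℤ) : Subalgebra ℂ K :=
  Algebra.adjoin ℂ (T.χ '' Mset R 0)

/-- The logarithmic derivation in the direction of the column `j` of `R`. -/
def dth (T : TorusField n K) (R : Matrix (Fin n) (Fin n) ℤ) (j : Fin n) : Derivation ℂ K K :=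
  ∑ i, ((R i j : ℤ) : K) • T.θ i

/-- The localisation of `S` at the multiplicative set `W`. -/
def locW (S : Subalgebra ℂ K) (W : Submonoid K) : Set K := {z | ∃ s ∈ W, z * s ∈ S}

/-- Sections of `O(-m K)` over `A`, with the standard derivations. -/
def secSet (T : TorusField n K) (m : ℕ) (A : Set K) : Set K :=
  {t | ∀ a : Fin m → K, (∀ k, ∃ g : Fin n → K, (∀ j, g j ∈ A) ∧
    a k = Matrix.det (Matrix.of fun i j => T.θ i (g j))) → t * ∏ k, a k ∈ A}

theorem mspan_mul (T : TorusField n K) (R : Matrix (Fin n) (Fin n) ℤ) (k l : ℤ) {f g : K}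
    (hf : f ∈ mspan T R k) (hg : g ∈ mspan T R l) : f * g ∈ mspan T R (k + l) := by
  have h : f * g ∈ mspan T R k * mspan T R l := Submodule.mul_mem_mul hf hg
  unfold mspan at h
  rw [Submodule.span_mul_span] at h
  refine Submodule.span_mono ?_ h
  rintro _ ⟨_, ⟨u, hu, rfl⟩, _, ⟨v, hv, rfl⟩, rfl⟩
  refine ⟨u + v, ?_, T.χ_add u v⟩
  intro j
  rw [Matrix.add_vecMul]
  exact add_le_add (hu j) (hv j)

theorem mem_cone (T : TorusField n K) (R : Matrix (Fin n) (Fin n) ℤ) (f : K) :
    f ∈ cone T R ↔ f ∈ mspan T R 0 := by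
  constructor
  · intro h
    unfold cone at h
    induction h using Algebra.adjoin_induction with
    | mem x hx => exact Submodule.subset_span hx
    | algebraMap r =>
      rw [Algebra.algebraMap_eq_smul_one, ← T.χ_zero]
      refine Submodule.smul_mem _ _ (Submodule.subset_span ⟨0, ?_, rfl⟩)
      intro j
      rw [Matrix.zero_vecMul]
      exact le_rfl
    | add x y _ _ hx hy => exact Submodule.add_mem _ hx hy
    | mul x y _ _ hx hy =>
      have := mspan_mul T R 0 0 hx hy
      rwa [add_zero] at this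
  · intro h
    exact Algebra.span_le_adjoin ℂ _ h

theorem mspan_mono (T : TorusField n K) (R : Matrix (Fin n) (Fin n) ℤ) {k l : ℤ} (h : k ≤ l) :
    mspan T R l ≤ mspan T R k := by
  apply Submodule.span_mono
  rintro _ ⟨u, hu, rfl⟩
  exact ⟨u, fun j => h.trans (hu j), rfl⟩

theorem mspan_shift (T : TorusField n K) (R : Matrix (Fin n) (Fin n) ℤ) (k l : ℤ)
    (w : Fin n → ℤ) (hw : ∀ j, Matrix.vecMul w R j = l) (f : K) :
    f ∈ mspan T R k ↔ T.χ w * f ∈ mspan T R (k + l) := by
  constructor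
  · intro h
    rw [mul_comm]
    exact mspan_mul T R k l h (Submodule.subset_span ⟨w, fun j => (hw j).ge, rfl⟩)
  · intro h
    have h1 : T.χ (-w) ∈ mspan T R (-l) := by
      refine Submodule.subset_span ⟨-w, ?_, rfl⟩
      intro j
      rw [Matrix.neg_vecMul, Pi.neg_apply, hw j]
    have h2 := mspan_mul T R _ _ h h1
    have h3 : T.χ w * f * T.χ (-w) = f := by
      rw [mul_comm (T.χ w) f, mul_assoc, ← T.χ_add, add_neg_cancel, T.χ_zero, mul_one]
    rwa [h3, add_neg_cancel_right] at h2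

theorem mem_mspan_iff (T : TorusField n K) (R : Matrix (Fin n) (Fin n) ℤ) (k : ℤ)
    (c : (Fin n → ℤ) →₀ ℂ) :
    Finsupp.linearCombination ℂ T.χ c ∈ mspan T R k ↔ ∀ u ∈ c.support, u ∈ Mset R k := by
  unfold mspan
  rw [Finsupp.mem_span_image_iff_linearCombination]
  constructor
  · rintro ⟨c', hc', h⟩
    have h1 : c' = c := T.li h
    rw [← h1]
    intro u hu
    exact (Finsupp.mem_supported ℂ c').1 hc' hu
  · intro h
    exact ⟨c, (Finsupp.mem_supported ℂ c).2 h, rfl⟩

theorem exists_dual (R : Matrix (Fin n) (Fin n) ℤ) (hR : R.det ≠ 0) :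
    ∃ (d : ℤ) (e : Fin n → Fin n → ℤ), 0 < d ∧ ∀ i, Matrix.vecMul (e i) R = Pi.single i d := by
  refine ⟨|R.det|, fun i => (Int.sign R.det) • R.adjugate i, abs_pos.2 hR, ?_⟩
  intro i
  rw [Matrix.smul_vecMul]
  have h1 : Matrix.vecMul (R.adjugate i) R = (R.adjugate * R) i := rfl
  rw [h1, Matrix.adjugate_mul]
  funext j
  simp only [Pi.smul_apply, Matrix.smul_apply, smul_eq_mul, Matrix.one_apply, Pi.single_apply]
  by_cases hij : i = j
  · rw [if_pos hij, if_pos hij.symm, mul_one, Int.sign_mul_self_eq_abs]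
  · rw [if_neg hij, if_neg (Ne.symm hij), mul_zero, mul_zero]

theorem j12284_exists_level (T : TorusField n K) (R : Matrix (Fin n) (Fin n) ℤ) {a : K}
    (ha : a ∈ Submodule.span ℂ (Set.range T.χ)) : ∃ N : ℤ, a ∈ mspan T R N := by
  induction ha using Submodule.span_induction with
  | mem x hx =>
    obtain ⟨u, rfl⟩ := hx
    refine ⟨-∑ j, |Matrix.vecMul u R j|, Submodule.subset_span ⟨u, ?_, rfl⟩⟩
    intro j
    have h1 : |Matrix.vecMul u R j| ≤ ∑ j, |Matrix.vecMul u R j| :=
      Finset.single_le_sum (f := fun j => |Matrix.vecMul u R j|) (fun _ _ => abs_nonneg _)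
        (Finset.mem_univ j)
    have h2 := neg_abs_le (Matrix.vecMul u R j)
    linarith
  | zero => exact ⟨0, Submodule.zero_mem _⟩
  | add x y _ _ hx hy =>
    obtain ⟨N1, h1⟩ := hx
    obtain ⟨N2, h2⟩ := hy
    exact ⟨min N1 N2, Submodule.add_mem _ (mspan_mono T R (min_le_left _ _) h1)
      (mspan_mono T R (min_le_right _ _) h2)⟩
  | smul c x _ hx =>
    obtain ⟨N1, h1⟩ := hx
    exact ⟨N1, Submodule.smul_mem _ c h1⟩

theorem j12284_chi_ne (T : TorusField n K) (u : Fin n → ℤ) : T.χ u ≠ 0 := by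
  intro h
  have h1 : T.χ (u + -u) = T.χ u * T.χ (-u) := T.χ_add u (-u)
  rw [add_neg_cancel, T.χ_zero, h, zero_mul] at h1
  exact one_ne_zero h1

theorem j12284_chi_nsmul (T : TorusField n K) (u : Fin n → ℤ) (m : ℕ) :
    T.χ (m • u) = T.χ u ^ m := by
  induction m with
  | zero => rw [zero_smul, T.χ_zero, pow_zero]
  | succ m ih => rw [succ_nsmul, T.χ_add, ih, pow_succ]

theorem j12284_lift (T : TorusField n K) (R : Matrix (Fin n) (Fin n) ℤ) (hR : R.det ≠ 0) (N : ℤ) :
    ∃ w : Fin n → ℤ, ∀ a ∈ mspan T R N, T.χ w * a ∈ cone T R := by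
  obtain ⟨d, e, hd, he⟩ := exists_dual R hR
  have hsum : ∀ j, Matrix.vecMul (∑ i, e i) R j = d := by
    intro j
    rw [Matrix.sum_vecMul, Finset.sum_apply]
    simp only [he]
    rw [Finset.sum_pi_single]
    simp
  refine ⟨N.natAbs • ∑ i, e i, fun a ha => ?_⟩
  have hw : ∀ j, Matrix.vecMul (N.natAbs • ∑ i, e i) R j = (N.natAbs : ℤ) * d := by
    intro j
    rw [Matrix.smul_vecMul, Pi.smul_apply, hsum j, nsmul_eq_mul]
  rw [mem_cone]
  have h1 := (mspan_shift T R N ((N.natAbs : ℤ) * d) _ hw a).1 ha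
  refine mspan_mono T R ?_ h1
  have h2 : -N ≤ (N.natAbs : ℤ) := by omega
  have h3 : (0 : ℤ) ≤ (N.natAbs : ℤ) := by omega
  nlinarith

theorem cone_frac (T : TorusField n K) (R : Matrix (Fin n) (Fin n) ℤ) (hR : R.det ≠ 0) :
    IsFractionRing (cone T R) K := by
  apply IsFractionRing.of_field
  intro z
  obtain ⟨a, ha, b, hb, hb0, hz⟩ := T.frac z
  obtain ⟨N1, h1⟩ := j12284_exists_level T R ha
  obtain ⟨N2, h2⟩ := j12284_exists_level T R hb
  obtain ⟨w, hw⟩ := j12284_lift T R hR (min N1 N2)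
  have ha' := hw a (mspan_mono T R (min_le_left _ _) h1)
  have hb' := hw b (mspan_mono T R (min_le_right _ _) h2)
  refine ⟨⟨_, ha'⟩, ⟨_, hb'⟩, ?_⟩
  have hχ := j12284_chi_ne T w
  change z = (T.χ w * a) / (T.χ w * b)
  rw [← hz]
  field_simp

theorem cone_fg (T : TorusField n K) (R : Matrix (Fin n) (Fin n) ℤ) (hR : R.det ≠ 0) :
    (cone T R).FG := by
  obtain ⟨d, e, hd, he⟩ := exists_dual R hR
  rw [Subalgebra.fg_def]
  set B : Set (Fin n → ℤ) := (fun u => Matrix.vecMul u R) ⁻¹'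
    (Set.univ.pi fun _ => Set.Ico 0 d) with hB
  have hinj : Function.Injective (fun u : Fin n → ℤ => Matrix.vecMul u R) := by
    intro u v huv
    have h1 : Matrix.vecMul (u - v) R = 0 := by
      rw [Matrix.sub_vecMul]
      exact sub_eq_zero.2 huv
    exact sub_eq_zero.1 (Matrix.eq_zero_of_vecMul_eq_zero hR h1)
  have hBf : B.Finite := (Set.Finite.pi (fun _ => Set.finite_Ico 0 d)).preimage hinj.injOn
  refine ⟨T.χ '' B ∪ Set.range (fun i => T.χ (e i)), (hBf.image _).union (Set.finite_range _), ?_⟩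
  apply le_antisymm
  · apply Algebra.adjoin_mono
    rintro x (⟨u, hu, rfl⟩ | ⟨i, rfl⟩)
    · exact ⟨u, fun j => (hu j (Set.mem_univ j)).1, rfl⟩
    · refine ⟨e i, fun j => ?_, rfl⟩
      rw [he i]
      rw [Pi.single_apply]
      split_ifs
      · exact hd.le
      · exact le_rfl
  · apply Algebra.adjoin_le
    rintro x ⟨u, hu, rfl⟩
    set A := Algebra.adjoin ℂ (T.χ '' B ∪ Set.range (fun i => T.χ (e i))) with hA
    let q : Fin n → ℕ := fun i => (Matrix.vecMul u R i / d).toNat
    have hq : ∀ i, ((q i : ℕ) : ℤ) = Matrix.vecMul u R i / d := by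
      intro i
      exact Int.toNat_of_nonneg (Int.ediv_nonneg (hu i) hd.le)
    have hsum : ∀ j, Matrix.vecMul (∑ i, q i • e i) R j = (Matrix.vecMul u R j / d) * d := by
      intro j
      rw [Matrix.sum_vecMul, Finset.sum_apply, Finset.sum_eq_single j]
      · rw [Matrix.smul_vecMul, Pi.smul_apply, he j, Pi.single_eq_same, nsmul_eq_mul, ← hq j]
      · intro i _ hij
        rw [Matrix.smul_vecMul, Pi.smul_apply, he i, Pi.single_eq_of_ne (Ne.symm hij), smul_zero]
      · intro h; exact absurd (Finset.mem_univ j) h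
    have h0 : u - ∑ i, q i • e i ∈ B := by
      intro j _
      simp only [Matrix.sub_vecMul, Pi.sub_apply]
      rw [hsum j]
      have e1 : Matrix.vecMul u R j - Matrix.vecMul u R j / d * d = Matrix.vecMul u R j % d := by
        have := Int.mul_ediv_add_emod (Matrix.vecMul u R j) d
        linarith
      rw [e1]
      exact ⟨Int.emod_nonneg _ hd.ne', Int.emod_lt_of_pos _ hd⟩
    have h1 : T.χ (u - ∑ i, q i • e i) ∈ A :=
      Algebra.subset_adjoin (Or.inl ⟨_, h0, rfl⟩)
    have h2 : ∀ s : Finset (Fin n), T.χ (∑ i ∈ s, q i • e i) ∈ A := by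
      intro s
      classical
      induction s using Finset.induction_on with
      | empty => rw [Finset.sum_empty, T.χ_zero]; exact A.one_mem
      | insert i s hi ih =>
        rw [Finset.sum_insert hi, T.χ_add, j12284_chi_nsmul]
        exact A.mul_mem (A.pow_mem (Algebra.subset_adjoin (Or.inr ⟨i, rfl⟩)) _) ih
    have h3 : T.χ u = T.χ (u - ∑ i, q i • e i) * T.χ (∑ i, q i • e i) := by
      rw [← T.χ_add, sub_add_cancel]
    rw [SetLike.mem_coe, h3]
    exact A.mul_mem h1 (h2 _)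

end Pool.Agent.Helper774.KSing
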