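import Pool.Agent.Helper774.KSing.Bd

open scoped ENNReal

noncomputable section

namespace Pool.Agent.Helper774.KSing

open Pool.Agent.Helper774.KStab (TorusField IntVal)
open Pool.Agent.Helper774.KStab (exists_monomialVal monomialVal_det deriv_sum_apply)

variable {n : ℕ} {K : Type} [Field K] [Algebra ℂ K]

theorem aux_chi_sum (T : TorusField n K) {ι : Type} (s : Finset ι) (f : ι → Fin n → ℤ) :
    T.χ (∑ k ∈ s, f k) = ∏ k ∈ s, T.χ (f k) := by
  classical
  induction s using Finset.induction_on with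
  | empty => rw [Finset.sum_empty, Finset.prod_empty, T.χ_zero]
  | insert a s ha ih => rw [Finset.sum_insert ha, Finset.prod_insert ha, T.χ_add, ih]

theorem aux_chi_nsmul (T : TorusField n K) (a : ℕ) (w : Fin n → ℤ) :
    T.χ (a • w) = T.χ w ^ a := by
  induction a with
  | zero => rw [zero_smul, pow_zero, T.χ_zero]
  | succ a ih => rw [succ_nsmul, T.χ_add, ih, pow_succ]

/-- the exponent vector of a monomial in the coordinates different from `x_i` -/
def aux_um (i : Fin (n + 1)) (m : Fin n →₀ ℕ) : Fin (n + 1) → ℤ :=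
  ∑ k, m k • (Pi.single (i.succAbove k) (1 : ℤ) : Fin (n + 1) → ℤ)

theorem aux_um_self (i : Fin (n + 1)) (m : Fin n →₀ ℕ) : aux_um i m i = 0 := by
  unfold aux_um
  rw [Finset.sum_apply]
  apply Finset.sum_eq_zero
  intro k _
  rw [Pi.smul_apply, Pi.single_eq_of_ne (Fin.succAbove_ne i k).symm, smul_zero]

theorem aux_um_succAbove (i : Fin (n + 1)) (m : Fin n →₀ ℕ) (k : Fin n) :
    aux_um i m (i.succAbove k) = m k := by
  unfold aux_um
  rw [Finset.sum_apply, Finset.sum_eq_single k]
  · rw [Pi.smul_apply, Pi.single_eq_same]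
    simp
  · intro l _ hl
    rw [Pi.smul_apply, Pi.single_eq_of_ne, smul_zero]
    intro h
    exact hl (Fin.succAbove_right_injective h).symm
  · intro h
    exact absurd (Finset.mem_univ k) h

theorem aux_um_inj (i : Fin (n + 1)) : Function.Injective (aux_um (n := n) i) := by
  intro m m' h
  ext k
  have h1 := congrFun h (i.succAbove k)
  rw [aux_um_succAbove, aux_um_succAbove] at h1
  exact_mod_cast h1

theorem exists_rayVal (T : TorusField (n + 1) K) (Em Rm : Matrix (Fin (n + 1)) (Fin (n + 1)) ℤ)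
    (h : Em * Rm = 1) (i : Fin (n + 1)) :
    ∃ v : AddValuation K (WithTop ℤ),
      (∀ c : (Fin (n + 1) → ℤ) →₀ ℂ, c ≠ 0 → ∃ u ∈ c.support,
        v (Finsupp.linearCombination ℂ T.χ c) = ((Matrix.vecMul u Rm i : ℤ) : WithTop ℤ) ∧
        ∀ u' ∈ c.support, Matrix.vecMul u Rm i ≤ Matrix.vecMul u' Rm i) ∧
      (∃ z, v z = 1) ∧ (∀ c : ℂ, c ≠ 0 → v (algebraMap ℂ K c) = 0) ∧
      (∃ t : Fin n → K, ∀ P : MvPolynomial (Fin n) ℂ, P ≠ 0 → v (MvPolynomial.aeval t P) = 0) ∧
      ∀ g : Fin (n + 1) → K, (∀ j, 0 ≤ v (g j)) →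
        1 ≤ v (Matrix.det (Matrix.of fun i j => T.θ i (g j))) := by
  classical
  have h' : Rm * Em = 1 := mul_eq_one_comm.mp h
  obtain ⟨v, hv⟩ := exists_monomialVal (T.reindex Em Rm h) i
  have hχ : ∀ u, (T.reindex Em Rm h).χ u = T.χ (Matrix.vecMul u Em) := fun _ => rfl
  have hsingle : ∀ (u : Fin (n + 1) → ℤ) (c : ℂ), c ≠ 0 →
      v (c • (T.reindex Em Rm h).χ u) = ((u i : ℤ) : WithTop ℤ) := by
    intro u c hc
    obtain ⟨u', hu', hvu, -⟩ := hv (Finsupp.single u c) (by
      rw [Ne, Finsupp.single_eq_zero]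
      exact hc)
    rw [Finsupp.linearCombination_single] at hvu
    have h1 : u' = u := by
      have h2 := Finsupp.support_single_subset hu'
      exact Finset.mem_singleton.1 h2
    rw [hvu, h1]
  refine ⟨v, ?_, ?_, ?_, ?_, ?_⟩
  · intro c hc
    have hinj : Function.Injective (fun u : Fin (n + 1) → ℤ => Matrix.vecMul u Rm) := by
      intro a b hab
      have h1 : Matrix.vecMul (Matrix.vecMul a Rm) Em = Matrix.vecMul (Matrix.vecMul b Rm) Em :=
        congrArg (fun z => Matrix.vecMul z Em) hab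
      rwa [Matrix.vecMul_vecMul, Matrix.vecMul_vecMul, h', Matrix.vecMul_one,
        Matrix.vecMul_one] at h1
    set c' : (Fin (n + 1) → ℤ) →₀ ℂ := c.mapDomain (fun u => Matrix.vecMul u Rm) with hc'
    have hc'0 : c' ≠ 0 := by
      intro h0
      apply hc
      apply Finsupp.mapDomain_injective hinj
      rw [Finsupp.mapDomain_zero]
      exact h0
    have hsupp : c'.support = c.support.image (fun u => Matrix.vecMul u Rm) :=
      Finsupp.mapDomain_support_of_injective hinj c
    have hlc : Finsupp.linearCombination ℂ (T.reindex Em Rm h).χ c' =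
        Finsupp.linearCombination ℂ T.χ c := by
      rw [hc', Finsupp.linearCombination_mapDomain]
      congr 1
      congr 1
      funext u
      change T.χ (Matrix.vecMul (Matrix.vecMul u Rm) Em) = T.χ u
      rw [Matrix.vecMul_vecMul, h', Matrix.vecMul_one]
    obtain ⟨u', hu', hvu, hmin⟩ := hv c' hc'0
    rw [hsupp, Finset.mem_image] at hu'
    obtain ⟨u, hu, rfl⟩ := hu'
    refine ⟨u, hu, ?_, ?_⟩
    · rw [← hlc]
      exact hvu
    · intro w hw
      apply hmin
      rw [hsupp]
      exact Finset.mem_image_of_mem _ hw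
  · refine ⟨(1 : ℂ) • (T.reindex Em Rm h).χ (Pi.single i 1), ?_⟩
    rw [hsingle _ 1 one_ne_zero, Pi.single_eq_same]
    rfl
  · intro c hc
    have h1 : algebraMap ℂ K c = c • (T.reindex Em Rm h).χ 0 := by
      rw [(T.reindex Em Rm h).χ_zero, Algebra.smul_def, mul_one]
    rw [h1, hsingle _ c hc]
    rfl
  · refine ⟨fun k => (T.reindex Em Rm h).χ (Pi.single (i.succAbove k) 1), ?_⟩
    intro P hP
    set c : (Fin (n + 1) → ℤ) →₀ ℂ := ∑ m ∈ P.support, Finsupp.single (aux_um i m) (P.coeff m)
      with hc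
    have hcu : ∀ u, c u = ∑ m ∈ P.support, if aux_um i m = u then P.coeff m else 0 := by
      intro u
      rw [hc, Finsupp.finsetSum_apply]
      apply Finset.sum_congr rfl
      intro m _
      rw [Finsupp.single_apply]
    have hcm : ∀ m ∈ P.support, c (aux_um i m) = P.coeff m := by
      intro m hm
      rw [hcu, Finset.sum_eq_single m]
      · rw [if_pos rfl]
      · intro m' _ hne
        rw [if_neg]
        exact fun h => hne (aux_um_inj i h)
      · intro h
        exact absurd hm h
    obtain ⟨m0, hm0⟩ : P.support.Nonempty := by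
      rw [MvPolynomial.support_nonempty]
      exact hP
    have hc0 : c ≠ 0 := by
      intro h0
      have h1 := hcm m0 hm0
      rw [h0, Finsupp.zero_apply] at h1
      exact MvPolynomial.mem_support_iff.1 hm0 h1.symm
    have hlc : Finsupp.linearCombination ℂ (T.reindex Em Rm h).χ c =
        MvPolynomial.aeval (fun k => (T.reindex Em Rm h).χ (Pi.single (i.succAbove k) 1)) P := by
      rw [hc, map_sum, MvPolynomial.aeval_def, MvPolynomial.eval₂_eq']
      apply Finset.sum_congr rfl
      intro m _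
      rw [Finsupp.linearCombination_single, Algebra.smul_def]
      congr 1
      unfold aux_um
      rw [aux_chi_sum]
      apply Finset.prod_congr rfl
      intro k _
      rw [aux_chi_nsmul]
    obtain ⟨u, hu, hvu, -⟩ := hv c hc0
    rw [← hlc, hvu]
    have h1 : ∃ m, aux_um i m = u := by
      by_contra hcon
      push Not at hcon
      apply Finsupp.mem_support_iff.1 hu
      rw [hcu]
      apply Finset.sum_eq_zero
      intro m _
      rw [if_neg (hcon m)]
    obtain ⟨m, rfl⟩ := h1
    rw [aux_um_self]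
    rfl
  · intro g hg
    have h1 := monomialVal_det (T.reindex Em Rm h) i v hv g hg
    rw [T.det_reindex Em Rm h g] at h1
    rcases TorusField.det_unit Em Rm h with hd | hd
    · rw [hd, Int.cast_one, one_mul] at h1
      exact h1
    · rw [hd, Int.cast_neg, Int.cast_one, neg_one_mul, v.map_neg] at h1
      exact h1

theorem alpha_le_vecMul {n : ℕ} (u : Fin (n + 1) → ℤ) (Rm R : Matrix (Fin (n + 1)) (Fin (n + 1)) ℤ)
    (i j : Fin (n + 1)) (hray : ∀ l, Rm l i = R l j) :
    Matrix.vecMul u Rm i = Matrix.vecMul u R j := by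
  simp only [Matrix.vecMul, dotProduct, hray]

theorem alpha_le (T : TorusField (n + 1) K) (D : SData (n + 1))
    (Em Rm : Matrix (Fin (n + 1)) (Fin (n + 1)) ℤ) (h : Em * Rm = 1) (i : Fin (n + 1))
    (σ : D.ι) (j : Fin (n + 1)) (hray : ∀ l, Rm l i = D.R σ l j)
    (m : ℕ) (hm : 1 ≤ m) (u : Fin (n + 1) → ℤ) (hu : u ∈ D.pts m) (M : ℝ) (hM : 0 ≤ M)
    (hval : ((Matrix.vecMul u (D.R σ) j : ℤ) : ℝ) = M * m) :
    (toricVar T D).alpha ≤ ENNReal.ofReal (1 / (1 + M)) := by
  obtain ⟨v, hv, hnorm, htriv, hres, hform⟩ := exists_rayVal T Em Rm h i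
  let E : (toricVar T D).DivVal := ⟨v, htriv, hnorm, hres⟩
  have hχ : ∀ u' : Fin (n + 1) → ℤ,
      v (T.χ u') = ((Matrix.vecMul u' (D.R σ) j : ℤ) : WithTop ℤ) := by
    intro u'
    obtain ⟨u1, hu1, h1, -⟩ := hv (Finsupp.single u' 1) (by simp)
    rw [Finsupp.linearCombination_single, one_smul] at h1
    have hu2 : u1 = u' := by
      have := Finsupp.support_single_subset hu1
      simpa using this
    rw [h1, hu2, alpha_le_vecMul u' Rm (D.R σ) i j hray]
  have hring : ∀ f ∈ cone T (D.R σ), f ∈ E.ring := by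
    intro f hf
    rw [mem_cone] at hf
    unfold mspan at hf
    show 0 ≤ v f
    induction hf using Submodule.span_induction with
    | mem x hx =>
      obtain ⟨u', hu', rfl⟩ := hx
      rw [hχ]
      have := hu' j
      exact_mod_cast this
    | zero => rw [AddValuation.map_zero]; exact le_top
    | add x y _ _ hx hy => exact (le_min hx hy).trans (v.map_add x y)
    | smul c x _ hx =>
      by_cases hc : c = 0
      · rw [hc, zero_smul, AddValuation.map_zero]; exact le_top
      · rw [Algebra.smul_def, AddValuation.map_mul, htriv c hc, zero_add]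
        exact hx
  have hcan : E.canOrd = 1 := by
    have h1 := toric_canOrd T D E σ hring (-(D.r : ℤ)) (by
      show v (T.χ (D.w σ)) = _
      rw [hχ, D.w_self])
    rw [h1]
    have hr : ((D.r : ℕ) : ℝ) ≠ 0 := by
      have := D.r_pos
      positivity
    push_cast
    rw [neg_neg, div_self hr]
  have hlog : E.logDisc ≤ 1 := by
    unfold Variety.DivVal.logDisc
    refine iSup₂_le (fun k hk => ?_)
    obtain ⟨a, ⟨g, hg, ha⟩, hak⟩ := hk
    have h1 : 1 ≤ v (Matrix.det (Matrix.of fun i j => T.θ i (g j))) := hform g hg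
    have h2 : v (Matrix.det (Matrix.of fun i j => T.θ i (g j))) = (k : WithTop ℤ) := by
      rw [← toric_jac T D g, ← ha]
      exact hak
    rw [h2] at h1
    have h3 : (1 : ℤ) ≤ k := by exact_mod_cast h1
    have h4 : (1 : ℝ) ≤ k := by exact_mod_cast h3
    rw [hcan]
    apply ENNReal.ofReal_le_one.2
    linarith
  have hne : T.χ u ≠ 0 := T.li.ne_zero u
  have h1 : (toricVar T D).alpha ≤ (toricVar T D).lct m (T.χ u) := by
    unfold Variety.alpha
    refine iInf₂_le (m, T.χ u) ⟨hm, ?_, hne⟩
    rw [toric_antican]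
    exact Submodule.subset_span ⟨u, hu, rfl⟩
  refine h1.trans ?_
  unfold Variety.lct
  refine iSup₂_le (fun t ht => ?_)
  obtain ⟨ht0, htE⟩ := ht
  have h2 := (htE E).trans hlog
  rw [ENNReal.ofReal_le_one] at h2
  have h3 : E.ord m (T.χ u) = (M + 1) * m := by
    unfold Variety.DivVal.ord
    have h4 : E.v (T.χ u) = ((Matrix.vecMul u (D.R σ) j : ℤ) : WithTop ℤ) := hχ u
    rw [h4, WithTop.untopD_coe, hcan, hval]
    ring
  rw [h3] at h2
  have hm0 : (m : ℝ) ≠ 0 := by
    have : 0 < m := hm
    positivity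
  rw [mul_div_assoc, div_self hm0, mul_one] at h2
  apply ENNReal.ofReal_le_ofReal
  rw [le_div_iff₀ (by linarith)]
  linarith

end Pool.Agent.Helper774.KSing
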