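import Pool.Agent.Helper774.KSing.Hex
import Pool.Agent.Helper774.KSing.Ray

open scoped ENNReal

noncomputable section

namespace Pool.Agent.Helper774.KSing

open Pool.Agent.Helper774.KStab (TorusField IntVal)

variable {n : ℕ} {K : Type} [Field K] [Algebra ℂ K]

/-- The rays of the product with `ℙ¹` (a new first coordinate). -/
def prodR (R : Matrix (Fin n) (Fin n) ℤ) (b : Bool) : Matrix (Fin (n + 1)) (Fin (n + 1)) ℤ :=
  Matrix.of fun i j => Fin.cases (Fin.cases (if b then 1 else -1) (fun _ => 0) j)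
    (fun i' => Fin.cases 0 (fun j' => R i' j') j) i

theorem prod_vecMul_zero (R : Matrix (Fin n) (Fin n) ℤ) (b : Bool) (u : Fin (n + 1) → ℤ) :
    Matrix.vecMul u (prodR R b) 0 = if b then u 0 else -u 0 := by
  simp only [Matrix.vecMul, dotProduct, Fin.sum_univ_succ, prodR, Matrix.of_apply, Fin.cases_zero,
    Fin.cases_succ, mul_zero, Finset.sum_const_zero, add_zero]
  split_ifs <;> ring

theorem prod_vecMul_succ (R : Matrix (Fin n) (Fin n) ℤ) (b : Bool) (u : Fin (n + 1) → ℤ)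
    (j : Fin n) : Matrix.vecMul u (prodR R b) j.succ = Matrix.vecMul (Fin.tail u) R j := by
  simp only [Matrix.vecMul, dotProduct, Fin.sum_univ_succ, prodR, Matrix.of_apply, Fin.cases_zero,
    Fin.cases_succ, mul_zero, zero_add, Fin.tail]

theorem prod_det (R : Matrix (Fin n) (Fin n) ℤ) (b : Bool) :
    (prodR R b).det = (if b then 1 else -1) * R.det := by
  rw [Matrix.det_succ_row_zero, Fin.sum_univ_succ]
  have h1 : ∀ j : Fin n, prodR R b 0 j.succ = 0 := fun j => by simp [prodR]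
  have h2 : (prodR R b).submatrix Fin.succ Fin.succ = R := by
    ext i j
    simp [prodR]
  have h3 : prodR R b 0 0 = if b then 1 else -1 := by simp [prodR]
  simp [h1, h2, h3]

/-- The data of the product of a toric Fano variety with `ℙ¹`. -/
def prodData (D : SData n) : SData (n + 1) where
  pos := Nat.succ_pos n
  ι := D.ι × Bool
  R := fun s => prodR (D.R s.1) s.2
  det_ne := by
    intro σ
    rw [prod_det]
    refine mul_ne_zero ?_ (D.det_ne σ.1)
    split_ifs <;> decide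
  prim := by
    intro σ j
    refine Fin.cases ?_ (fun j' => ?_) j
    · refine ⟨Fin.cons (if σ.2 then 1 else -1) 0, ?_⟩
      rw [prod_vecMul_zero, Fin.cons_zero]
      split_ifs <;> norm_num
    · obtain ⟨u, hu⟩ := D.prim σ.1 j'
      refine ⟨Fin.cons 0 u, ?_⟩
      rw [prod_vecMul_succ, Fin.tail_cons]
      exact hu
  r := D.r
  r_pos := D.r_pos
  w := fun s => Fin.cons (if s.2 then -(D.r : ℤ) else D.r) (D.w s.1)
  w_self := by
    intro σ j
    refine Fin.cases ?_ (fun j' => ?_) j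
    · rw [prod_vecMul_zero, Fin.cons_zero]
      split_ifs <;> rfl
    · rw [prod_vecMul_succ, Fin.tail_cons]
      exact D.w_self σ.1 j'
  vert := by
    intro σ τ j
    refine Fin.cases ?_ (fun j' => ?_) j
    · rw [prod_vecMul_zero, Fin.cons_zero]
      split_ifs <;> omega
    · rw [prod_vecMul_succ, Fin.tail_cons]
      exact D.vert σ.1 τ.1 j'
  strict := by
    intro σ τ j
    refine Fin.cases ?_ (fun j' => ?_) j
    · intro h
      rw [prod_vecMul_zero, Fin.cons_zero] at h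
      have hr := D.r_pos
      have hb : τ.2 = σ.2 := by
        rcases h1 : σ.2 <;> rcases h2 : τ.2 <;> simp [h1, h2] at h ⊢ <;> omega
      refine ⟨0, fun i => ?_⟩
      rw [hb]
      refine Fin.cases ?_ (fun i' => ?_) i
      · simp [prodR]
      · simp [prodR]
    · intro h
      rw [prod_vecMul_succ, Fin.tail_cons] at h
      obtain ⟨k, hk⟩ := D.strict σ.1 τ.1 j' h
      refine ⟨k.succ, fun i => ?_⟩
      refine Fin.cases ?_ (fun i' => ?_) i
      · simp [prodR]
      · simpa [prodR] using hk i'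
  nbr := by
    intro σ i
    have hr := D.r_pos
    refine Fin.cases ?_ (fun i' => ?_) i
    · refine ⟨(σ.1, !σ.2), fun j => ?_, ?_⟩
      · refine Fin.cases (fun h => absurd rfl h) (fun j' _ => ?_) j
        rw [prod_vecMul_succ, Fin.tail_cons]
        exact D.w_self σ.1 j'
      · rw [prod_vecMul_zero, Fin.cons_zero]
        rcases h1 : σ.2 <;> simp <;> omega
    · obtain ⟨τ, h1, h2⟩ := D.nbr σ.1 i'
      refine ⟨(τ, σ.2), fun j => ?_, ?_⟩
      · refine Fin.cases (fun _ => ?_) (fun j' hj => ?_) j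
        · rw [prod_vecMul_zero, Fin.cons_zero]
          split_ifs <;> rfl
        · rw [prod_vecMul_succ, Fin.tail_cons]
          exact h1 j' fun h => hj (by rw [h])
      · rw [prod_vecMul_succ, Fin.tail_cons]
        exact h2
  ne := by
    obtain ⟨σ⟩ := D.ne
    exact ⟨(σ, true)⟩

theorem prod_P (D : SData n) (p : Fin (n + 1) → ℝ) :
    p ∈ (prodData D).P ↔ |p 0| ≤ 1 ∧ Fin.tail p ∈ D.P := by
  have e0 : ∀ (R : Matrix (Fin n) (Fin n) ℤ) (b : Bool),
      ∑ i, p i * ((prodR R b i 0 : ℤ) : ℝ) = if b then p 0 else -p 0 := by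
    intro R b
    rw [Fin.sum_univ_succ]
    rcases b <;> simp [prodR]
  have e1 : ∀ (R : Matrix (Fin n) (Fin n) ℤ) (b : Bool) (j : Fin n),
      ∑ i, p i * ((prodR R b i j.succ : ℤ) : ℝ) = ∑ i, Fin.tail p i * ((R i j : ℤ) : ℝ) := by
    intro R b j
    rw [Fin.sum_univ_succ]
    simp [prodR, Fin.tail]
  constructor
  · intro h
    obtain ⟨σ⟩ := D.ne
    have h1 := h (σ, true) 0
    have h2 := h (σ, false) 0
    have h1' : -1 ≤ ∑ i, p i * ((prodR (D.R σ) true i 0 : ℤ) : ℝ) := h1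
    have h2' : -1 ≤ ∑ i, p i * ((prodR (D.R σ) false i 0 : ℤ) : ℝ) := h2
    rw [e0] at h1' h2'
    refine ⟨?_, fun τ j => ?_⟩
    · rw [abs_le]
      simp at h1' h2'
      constructor <;> linarith
    · have h3 : -1 ≤ ∑ i, p i * ((prodR (D.R τ) true i j.succ : ℤ) : ℝ) := h (τ, true) j.succ
      rwa [e1] at h3
  · rintro ⟨h1, h2⟩ ⟨σ, b⟩ j
    rw [abs_le] at h1
    refine Fin.cases ?_ (fun j' => ?_) j
    · show -1 ≤ ∑ i, p i * ((prodR (D.R σ) b i 0 : ℤ) : ℝ)
      rw [e0]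
      split_ifs <;> linarith
    · show -1 ≤ ∑ i, p i * ((prodR (D.R σ) b i j'.succ : ℤ) : ℝ)
      rw [e1]
      exact h2 σ j'

theorem prod_pts (D : SData n) (k : ℕ) (u : Fin (n + 1) → ℤ) :
    u ∈ (prodData D).pts k ↔ |u 0| ≤ (k : ℤ) ∧ Fin.tail u ∈ D.pts k := by
  constructor
  · intro h
    obtain ⟨σ⟩ := D.ne
    have h1' : -(k : ℤ) ≤ Matrix.vecMul u (prodR (D.R σ) true) 0 := h (σ, true) 0
    have h2' : -(k : ℤ) ≤ Matrix.vecMul u (prodR (D.R σ) false) 0 := h (σ, false) 0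
    rw [prod_vecMul_zero] at h1' h2'
    refine ⟨?_, fun τ j => ?_⟩
    · rw [abs_le]
      simp at h1' h2'
      constructor <;> linarith
    · have h3 : -(k : ℤ) ≤ Matrix.vecMul u (prodR (D.R τ) true) j.succ := h (τ, true) j.succ
      rwa [prod_vecMul_succ] at h3
  · rintro ⟨h1, h2⟩ ⟨σ, b⟩ j
    rw [abs_le] at h1
    refine Fin.cases ?_ (fun j' => ?_) j
    · show -(k : ℤ) ≤ Matrix.vecMul u (prodR (D.R σ) b) 0
      rw [prod_vecMul_zero]
      split_ifs <;> linarith
    · show -(k : ℤ) ≤ Matrix.vecMul u (prodR (D.R σ) b) j'.succ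
      rw [prod_vecMul_succ]
      exact h2 σ j'

/-- The properties of the data which give K-semistability and the alpha invariant `1 / (1 + M)`. -/
def Good {n : ℕ} (D : SData (n + 1)) (M : ℝ) : Prop :=
  Bornology.IsBounded D.P ∧ (∀ i, ∫ p in D.P, p i = 0) ∧
  (∀ (k : ℕ) (u : Fin (n + 1) → ℤ), 1 ≤ k → u ∈ D.pts k → ∀ σ j,
      ((Matrix.vecMul u (D.R σ) j : ℤ) : ℝ) ≤ M * k) ∧
  ∃ (Em Rm : Matrix (Fin (n + 1)) (Fin (n + 1)) ℤ) (i : Fin (n + 1)) (σ : D.ι) (j : Fin (n + 1))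
      (k : ℕ) (u : Fin (n + 1) → ℤ), Em * Rm = 1 ∧ (∀ l, Rm l i = D.R σ l j) ∧ 1 ≤ k ∧
      u ∈ D.pts k ∧ ((Matrix.vecMul u (D.R σ) j : ℤ) : ℝ) = M * k

theorem jg7_setInt {n : ℕ} (D : SData (n + 1)) (F : ℝ × (Fin (n + 1) → ℝ) → ℝ) :
    ∫ p in (prodData D).P, F (p 0, Fin.tail p) =
      ∫ z in (Set.Icc (-1 : ℝ) 1) ×ˢ D.P, F z := by
  have hmp := MeasureTheory.volume_preserving_piFinSuccAbove (fun _ : Fin (n + 2) => ℝ) 0
  have hpre : (prodData D).P =
      (MeasurableEquiv.piFinSuccAbove (fun _ : Fin (n + 2) => ℝ) 0) ⁻¹'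
        ((Set.Icc (-1 : ℝ) 1) ×ˢ D.P) := by
    ext p
    rw [prod_P]
    simp only [Set.mem_preimage, Set.mem_prod, Set.mem_Icc, abs_le]
    rfl
  rw [hpre]
  have := hmp.setIntegral_preimage_emb
    (MeasurableEquiv.piFinSuccAbove (fun _ : Fin (n + 2) => ℝ) 0).measurableEmbedding F
    ((Set.Icc (-1 : ℝ) 1) ×ˢ D.P)
  exact this

theorem jg7_mul {n : ℕ} (A B : Matrix (Fin n) (Fin n) ℤ) :
    prodR A true * prodR B true = prodR (A * B) true := by
  ext a b
  refine Fin.cases ?_ (fun a' => ?_) a <;> refine Fin.cases ?_ (fun b' => ?_) b <;>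
    simp [prodR, Matrix.mul_apply, Fin.sum_univ_succ]

theorem jg7_one {n : ℕ} : prodR (1 : Matrix (Fin n) (Fin n) ℤ) true = 1 := by
  ext a b
  refine Fin.cases ?_ (fun a' => ?_) a <;> refine Fin.cases ?_ (fun b' => ?_) b <;>
    simp [prodR, Matrix.one_apply, Fin.succ_ne_zero, (Fin.succ_ne_zero _).symm]

theorem good_prod {n : ℕ} (D : SData (n + 1)) (M : ℝ) (hM : 1 ≤ M) (h : Good D M) :
    Good (prodData D) M := by
  obtain ⟨hb, hint, hmax, Em, Rm, i, σ, j, k, u, hER, hRm, hk, hu, hval⟩ := h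
  refine ⟨?_, ?_, ?_, ?_⟩
  · rw [isBounded_iff_forall_norm_le] at hb ⊢
    obtain ⟨C, hC⟩ := hb
    refine ⟨max 1 C, ?_⟩
    intro p hp
    rw [prod_P] at hp
    have hpos : 0 ≤ max 1 C := le_trans zero_le_one (le_max_left _ _)
    rw [pi_norm_le_iff_of_nonneg hpos]
    intro l
    refine Fin.cases ?_ (fun l' => ?_) l
    · exact le_trans hp.1 (le_max_left _ _)
    · exact le_trans (le_trans (norm_le_pi_norm (Fin.tail p) l') (hC _ hp.2)) (le_max_right _ _)
  · intro l
    refine Fin.cases ?_ (fun l' => ?_) l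
    · have h1 := jg7_setInt D (fun z => z.1 * 1)
      simp only [mul_one] at h1
      rw [h1]
      have h2 := MeasureTheory.setIntegral_prod_mul (μ := (MeasureTheory.volume : MeasureTheory.Measure ℝ))
        (ν := (MeasureTheory.volume : MeasureTheory.Measure (Fin (n + 1) → ℝ)))
        (fun x : ℝ => x) (fun _ => (1 : ℝ)) (Set.Icc (-1 : ℝ) 1) D.P
      simp only [mul_one] at h2
      rw [MeasureTheory.Measure.volume_eq_prod, h2]
      have h3 : ∫ x in Set.Icc (-1 : ℝ) 1, x = 0 := by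
        rw [MeasureTheory.integral_Icc_eq_integral_Ioc, ← intervalIntegral.integral_of_le (by norm_num)]
        simp
      rw [h3, zero_mul]
    · have h1 := jg7_setInt D (fun z => 1 * z.2 l')
      simp only [one_mul] at h1
      have h1' : ∫ p in (prodData D).P, p l'.succ = ∫ z in (Set.Icc (-1 : ℝ) 1) ×ˢ D.P, z.2 l' := h1
      rw [h1']
      have h2 := MeasureTheory.setIntegral_prod_mul (μ := (MeasureTheory.volume : MeasureTheory.Measure ℝ))
        (ν := (MeasureTheory.volume : MeasureTheory.Measure (Fin (n + 1) → ℝ)))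
        (fun _ : ℝ => (1 : ℝ)) (fun q => q l') (Set.Icc (-1 : ℝ) 1) D.P
      simp only [one_mul] at h2
      rw [MeasureTheory.Measure.volume_eq_prod, h2, hint l', mul_zero]
  · intro k' u' hk' hu' τ l
    rw [prod_pts] at hu'
    have hkM : (k' : ℝ) ≤ M * k' := by
      have : (0 : ℝ) ≤ k' := by positivity
      nlinarith
    refine Fin.cases ?_ (fun l' => ?_) l
    · have h0 : Matrix.vecMul u' ((prodData D).R τ) 0 = if τ.2 then u' 0 else -u' 0 :=
        prod_vecMul_zero (D.R τ.1) τ.2 u'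
      rw [h0]
      have habs := abs_le.1 hu'.1
      have h2 : (if τ.2 then u' 0 else -u' 0 : ℤ) ≤ (k' : ℤ) := by
        split_ifs <;> omega
      have h3 : (((if τ.2 then u' 0 else -u' 0 : ℤ) : ℤ) : ℝ) ≤ (k' : ℝ) := by exact_mod_cast h2
      exact h3.trans hkM
    · have h0 : Matrix.vecMul u' ((prodData D).R τ) l'.succ = Matrix.vecMul (Fin.tail u') (D.R τ.1) l' :=
        prod_vecMul_succ (D.R τ.1) τ.2 u' l'
      rw [h0]
      exact hmax k' _ hk' hu'.2 τ.1 l'
  · refine ⟨prodR Em true, prodR Rm true, i.succ, (σ, true), j.succ, k, Fin.cons 0 u, ?_, ?_, hk, ?_, ?_⟩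
    · rw [jg7_mul, hER, jg7_one]
    · intro l
      refine Fin.cases ?_ (fun l' => ?_) l
      · rfl
      · exact hRm l'
    · rw [prod_pts]
      refine ⟨by simp, ?_⟩
      rw [Fin.tail_cons]
      exact hu
    · have h0 : Matrix.vecMul (Fin.cons 0 u : Fin (n + 2) → ℤ) ((prodData D).R (σ, true)) j.succ
          = Matrix.vecMul (Fin.tail (Fin.cons 0 u : Fin (n + 2) → ℤ)) (D.R σ) j :=
        prod_vecMul_succ (D.R σ) true _ j
      rw [h0, Fin.tail_cons]
      exact hval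

end Pool.Agent.Helper774.KSing
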