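import Pool.Agent.Helper774.KSing.Mon

open scoped ENNReal

noncomputable section

namespace Pool.Agent.Helper774.KSing

open Pool.Agent.Helper774.KStab (TorusField IntVal)

variable {n : ℕ} {K : Type} [Field K] [Algebra ℂ K]

theorem x_dth_apply (T : TorusField n K) (R : Matrix (Fin n) (Fin n) ℤ) (j : Fin n) (f : K) :
    dth T R j f = ∑ i, ((R i j : ℤ) : K) * T.θ i f := by
  unfold dth
  have : ∀ s : Finset (Fin n), (∑ i ∈ s, ((R i j : ℤ) : K) • T.θ i) f = ∑ i ∈ s, ((R i j : ℤ) : K) * T.θ i f := by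
    intro s
    classical
    induction s using Finset.induction_on with
    | empty => simp
    | insert a s ha ih =>
      rw [Finset.sum_insert ha, Finset.sum_insert ha, Derivation.add_apply, ih, Derivation.smul_apply, smul_eq_mul]
  exact this _

theorem x_chi_sum (T : TorusField n K) (us : Fin n → Fin n → ℤ) :
    T.χ (∑ l, us l) = ∏ l, T.χ (us l) := by
  have : ∀ s : Finset (Fin n), T.χ (∑ l ∈ s, us l) = ∏ l ∈ s, T.χ (us l) := by
    intro s
    classical
    induction s using Finset.induction_on with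
    | empty => simp [T.χ_zero]
    | insert a s ha ih =>
      rw [Finset.sum_insert ha, Finset.prod_insert ha, T.χ_add, ih]
  exact this _


theorem dth_chi (T : TorusField n K) (R : Matrix (Fin n) (Fin n) ℤ) (j : Fin n) (u : Fin n → ℤ) :
    dth T R j (T.χ u) = ((Matrix.vecMul u R j : ℤ) : K) * T.χ u := by
  rw [x_dth_apply]
  simp only [T.θ_χ]
  unfold Matrix.vecMul dotProduct
  push_cast
  rw [Finset.sum_mul]
  refine Finset.sum_congr rfl (fun i _ => ?_)
  ring


theorem det_dth (T : TorusField n K) (R : Matrix (Fin n) (Fin n) ℤ) (g : Fin n → K) :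
    Matrix.det (Matrix.of fun i j => dth T R i (g j)) =
      ((R.det : ℤ) : K) * Matrix.det (Matrix.of fun i j => T.θ i (g j)) := by
  have h1 : (Matrix.of fun i j => dth T R i (g j)) =
      (R.map (Int.castRingHom K)).transpose * (Matrix.of fun i j => T.θ i (g j)) := by
    ext i j
    rw [Matrix.mul_apply]
    simp only [Matrix.of_apply, Matrix.transpose_apply, Matrix.map_apply, x_dth_apply]
    rfl
  rw [h1, Matrix.det_mul, Matrix.det_transpose]
  congr 1
  have := (Int.castRingHom K).map_det R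
  rw [RingHom.mapMatrix_apply] at this
  rw [← this]; rfl


theorem exists_tight (R : Matrix (Fin n) (Fin n) ℤ) (hR : R.det ≠ 0) (j : Fin n)
    (hp : ∃ u, Matrix.vecMul u R j = 1) :
    ∃ us : Fin n → Fin n → ℤ, (∀ l, us l ∈ Mset R 0) ∧ (Matrix.of us).det ≠ 0 ∧
      Matrix.vecMul (∑ l, us l) R j = 1 := by
  classical
  obtain ⟨d, e, hd, he⟩ := exists_dual R hR
  obtain ⟨u, hu⟩ := hp
  set N : ℤ := ∑ l, |Matrix.vecMul u R l| with hN
  have hNl : ∀ l, -N ≤ Matrix.vecMul u R l := by
    intro l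
    have h1 : |Matrix.vecMul u R l| ≤ N :=
      Finset.single_le_sum (f := fun l => |Matrix.vecMul u R l|) (fun i _ => abs_nonneg _) (Finset.mem_univ l)
    have h2 := neg_abs_le (Matrix.vecMul u R l)
    linarith
  have hN0 : 0 ≤ N := Finset.sum_nonneg (fun i _ => abs_nonneg _)
  set uj : Fin n → ℤ := u + N • ∑ k ∈ Finset.univ.erase j, e k with huj
  have hlin : ∀ (l : Fin n), Matrix.vecMul uj R l = Matrix.vecMul u R l + N * ∑ k ∈ Finset.univ.erase j, Matrix.vecMul (e k) R l := by
    intro l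
    have h1 : Matrix.vecMul uj R = (Matrix.vecMulLinear R) uj := rfl
    have h2 : (Matrix.vecMulLinear R) uj = (Matrix.vecMulLinear R) u + N • ∑ k ∈ Finset.univ.erase j, (Matrix.vecMulLinear R) (e k) := by
      rw [huj, map_add, map_smul, map_sum]
    rw [h1, h2]
    simp only [Pi.add_apply, Pi.smul_apply, smul_eq_mul, Finset.sum_apply]
    rfl
  have hujj : Matrix.vecMul uj R j = 1 := by
    rw [hlin, hu]
    have : ∑ k ∈ Finset.univ.erase j, Matrix.vecMul (e k) R j = 0 := by
      refine Finset.sum_eq_zero (fun k hk => ?_)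
      rw [he, Pi.single_eq_of_ne (Finset.ne_of_mem_erase hk).symm]
    rw [this]; ring
  have hujl : ∀ l, l ≠ j → Matrix.vecMul uj R l = Matrix.vecMul u R l + N * d := by
    intro l hl
    rw [hlin]
    congr 2
    rw [Finset.sum_eq_single_of_mem l (Finset.mem_erase.mpr ⟨hl, Finset.mem_univ l⟩)]
    · rw [he, Pi.single_eq_same]
    · intro b _ hb
      rw [he, Pi.single_eq_of_ne hb.symm]
  set us : Fin n → Fin n → ℤ := fun k => if k = j then uj else e k with hus
  have husj : us j = uj := by rw [hus]; simp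
  have husk : ∀ k, k ≠ j → us k = e k := by
    intro k hk; rw [hus]; simp [hk]
  refine ⟨us, ?_, ?_, ?_⟩
  · intro l i
    by_cases hl : l = j
    · subst hl
      rw [husj]
      by_cases hi : i = l
      · subst hi; rw [hujj]; norm_num
      · rw [hujl i hi]
        have := hNl i
        nlinarith
    · rw [husk l hl, he]
      by_cases hi : i = l
      · subst hi; rw [Pi.single_eq_same]; exact hd.le
      · rw [Pi.single_eq_of_ne hi]
  · intro hdet
    rw [← Matrix.exists_vecMul_eq_zero_iff] at hdet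
    obtain ⟨w, hw, hw0⟩ := hdet
    have key : ∀ i, ∑ l, w l * Matrix.vecMul (us l) R i = 0 := by
      intro i
      have h1 : Matrix.vecMul (Matrix.vecMul w (Matrix.of us)) R i = 0 := by
        rw [hw0, Matrix.zero_vecMul]; rfl
      have h2 : Matrix.vecMul w (Matrix.of us) = ∑ l, w l • us l := by
        ext t
        simp only [Matrix.vecMul, dotProduct, Matrix.of_apply, Finset.sum_apply, Pi.smul_apply, smul_eq_mul]
      rw [h2] at h1
      have h3 : Matrix.vecMul (∑ l, w l • us l) R = ∑ l, w l • Matrix.vecMul (us l) R := by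
        have : Matrix.vecMul (∑ l, w l • us l) R = (Matrix.vecMulLinear R) (∑ l, w l • us l) := rfl
        rw [this, map_sum]
        refine Finset.sum_congr rfl (fun l _ => ?_)
        rw [map_smul]; rfl
      rw [h3] at h1
      simpa using h1
    have hwj : w j = 0 := by
      have := key j
      rw [Finset.sum_eq_single_of_mem j (Finset.mem_univ j)] at this
      · rw [husj, hujj, mul_one] at this; exact this
      · intro b _ hb
        rw [husk b hb, he, Pi.single_eq_of_ne hb.symm, mul_zero]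
    apply hw
    funext k
    by_cases hk : k = j
    · rw [hk]; exact hwj
    · have := key k
      rw [Finset.sum_eq_single_of_mem k (Finset.mem_univ k)] at this
      · rw [husk k hk, he, Pi.single_eq_same] at this
        rcases mul_eq_zero.mp this with h | h
        · exact h
        · exact absurd h hd.ne'
      · intro b _ hb
        by_cases hbj : b = j
        · rw [hbj, hwj, zero_mul]
        · rw [husk b hbj, he, Pi.single_eq_of_ne hb.symm, mul_zero]
  · have h1 : Matrix.vecMul (∑ l, us l) R j = ∑ l, Matrix.vecMul (us l) R j := by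
      have : Matrix.vecMul (∑ l, us l) R = (Matrix.vecMulLinear R) (∑ l, us l) := rfl
      rw [this, map_sum, Finset.sum_apply]; rfl
    rw [h1, Finset.sum_eq_single_of_mem j (Finset.mem_univ j)]
    · rw [husj, hujj]
    · intro b _ hb
      rw [husk b hb, he, Pi.single_eq_of_ne hb.symm]


theorem det_chi (T : TorusField n K) (us : Fin n → Fin n → ℤ) :
    Matrix.det (Matrix.of fun i j => T.θ i (T.χ (us j))) =
      (((Matrix.of us).det : ℤ) : K) * T.χ (∑ l, us l) := by
  have h1 : (Matrix.of fun i j => T.θ i (T.χ (us j))) =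
      Matrix.of fun i j => T.χ (us j) * ((Matrix.of us).transpose.map (Int.castRingHom K)) i j := by
    ext i j
    simp only [Matrix.of_apply, T.θ_χ, Matrix.map_apply, Matrix.transpose_apply]
    rw [mul_comm]; rfl
  rw [h1, Matrix.det_mul_row, x_chi_sum, mul_comm]
  congr 1
  have := (Int.castRingHom K).map_det (Matrix.of us).transpose
  rw [RingHom.mapMatrix_apply, Matrix.det_transpose] at this
  rw [← this]; rfl

/-- span of the monomials with exponents in the cone, positive at the columns in `S` -/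
def JS_12288 (T : TorusField n K) (R : Matrix (Fin n) (Fin n) ℤ) (S : Finset (Fin n)) :
    Submodule ℂ K :=
  Submodule.span ℂ (T.χ '' {u | ∀ j, 0 ≤ Matrix.vecMul u R j ∧
    (j ∈ S → 1 ≤ Matrix.vecMul u R j)})

theorem JS_mul_12288 (T : TorusField n K) (R : Matrix (Fin n) (Fin n) ℤ) (S S' : Finset (Fin n))
    {f g : K} (hf : f ∈ JS_12288 T R S) (hg : g ∈ JS_12288 T R S') :
    f * g ∈ JS_12288 T R (S ∪ S') := by
  have h := Submodule.mul_mem_mul hf hg
  unfold JS_12288 at h ⊢
  rw [Submodule.span_mul_span] at h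
  refine Submodule.span_mono ?_ h
  rintro _ ⟨_, ⟨u, hu, rfl⟩, _, ⟨v, hv, rfl⟩, rfl⟩
  refine ⟨u + v, ?_, T.χ_add u v⟩
  intro j
  rw [Matrix.add_vecMul, Pi.add_apply]
  obtain ⟨hu1, hu2⟩ := hu j
  obtain ⟨hv1, hv2⟩ := hv j
  refine ⟨by linarith, fun hj => ?_⟩
  rw [Finset.mem_union] at hj
  rcases hj with hj | hj
  · have := hu2 hj; linarith
  · have := hv2 hj; linarith

theorem JS_one_12288 (T : TorusField n K) (R : Matrix (Fin n) (Fin n) ℤ) :
    (1 : K) ∈ JS_12288 T R ∅ := by
  unfold JS_12288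
  apply Submodule.subset_span
  refine ⟨0, ?_, T.χ_zero⟩
  intro j
  rw [Matrix.zero_vecMul]
  exact ⟨le_rfl, fun h => absurd h (Finset.notMem_empty _)⟩

theorem JS_prod_12288 (T : TorusField n K) (R : Matrix (Fin n) (Fin n) ℤ)
    (t : Finset (Fin n)) (a : Fin n → Fin n) (f : Fin n → K)
    (hf : ∀ i, f i ∈ JS_12288 T R {a i}) : ∏ i ∈ t, f i ∈ JS_12288 T R (t.image a) := by
  classical
  induction t using Finset.induction_on with
  | empty => rw [Finset.prod_empty, Finset.image_empty]; exact JS_one_12288 T R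
  | insert i t hi ih =>
    rw [Finset.prod_insert hi, Finset.image_insert, Finset.insert_eq]
    exact JS_mul_12288 T R _ _ (hf i) ih

theorem cone_JS_12288 (T : TorusField n K) (R : Matrix (Fin n) (Fin n) ℤ) {f : K}
    (hf : f ∈ cone T R) : f ∈ JS_12288 T R ∅ := by
  rw [mem_cone] at hf
  refine Submodule.span_mono ?_ hf
  apply Set.image_mono
  intro u hu j
  exact ⟨hu j, fun h => absurd h (Finset.notMem_empty _)⟩

theorem dth_cone_12288 (T : TorusField n K) (R : Matrix (Fin n) (Fin n) ℤ) (i : Fin n) {f : K}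
    (hf : f ∈ cone T R) : dth T R i f ∈ JS_12288 T R {i} := by
  rw [mem_cone] at hf
  unfold mspan at hf
  induction hf using Submodule.span_induction with
  | mem x hx =>
    obtain ⟨u, hu, rfl⟩ := hx
    rw [dth_chi]
    have hui : 0 ≤ Matrix.vecMul u R i := hu i
    rcases hui.eq_or_lt with h0 | h0
    · rw [← h0, Int.cast_zero, zero_mul]; exact zero_mem _
    · rw [← zsmul_eq_mul]
      apply zsmul_mem
      apply Submodule.subset_span
      refine ⟨u, ?_, rfl⟩
      intro j
      refine ⟨hu j, fun hj => ?_⟩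
      rw [Finset.mem_singleton] at hj
      subst hj
      exact h0
  | zero => rw [map_zero]; exact zero_mem _
  | add x y _ _ hx hy => rw [map_add]; exact add_mem hx hy
  | smul a x _ hx => rw [Derivation.map_smul]; exact Submodule.smul_mem _ _ hx

theorem dth_loc_12288 (T : TorusField n K) (R : Matrix (Fin n) (Fin n) ℤ) (i : Fin n) {z s : K}
    (hs : s ∈ cone T R) (hzs : z * s ∈ cone T R) : s ^ 2 * dth T R i z ∈ JS_12288 T R {i} := by
  have h1 : dth T R i (z * s) = z * dth T R i s + s * dth T R i z := by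
    rw [Derivation.leibniz]; rfl
  have h2 : s ^ 2 * dth T R i z = s * dth T R i (z * s) - (z * s) * dth T R i s := by
    rw [h1]; ring
  rw [h2]
  have h3 := JS_mul_12288 T R ∅ {i} (cone_JS_12288 T R hs) (dth_cone_12288 T R i hzs)
  have h4 := JS_mul_12288 T R ∅ {i} (cone_JS_12288 T R hzs) (dth_cone_12288 T R i hs)
  rw [Finset.empty_union] at h3 h4
  exact sub_mem h3 h4

theorem forms_loc (T : TorusField n K) (R : Matrix (Fin n) (Fin n) ℤ) (hR : R.det ≠ 0)
    (W : Submonoid K) (hW : ∀ s ∈ W, s ∈ cone T R) (hW0 : (0 : K) ∉ W)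
    (g : Fin n → K) (hg : ∀ j, g j ∈ locW (cone T R) W) :
    ∃ s ∈ W, Matrix.det (Matrix.of fun i j => T.θ i (g j)) * s ∈ mspan T R 1 := by
  classical
  choose s hsW hs using hg
  refine ⟨∏ j, s j ^ 2, prod_mem fun j _ => pow_mem (hsW j) 2, ?_⟩
  have h1 : (∏ j, s j ^ 2) * Matrix.det (Matrix.of fun i j => dth T R i (g j)) ∈ mspan T R 1 := by
    rw [← Matrix.det_mul_row, Matrix.det_apply]
    apply sum_mem
    intro σ _
    apply Submodule.smul_of_tower_mem
    have h2 := JS_prod_12288 T R Finset.univ (fun i => σ i)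
      (fun i => (Matrix.of fun i j => s j ^ 2 * (Matrix.of fun i j => dth T R i (g j)) i j)
        (σ i) i) (fun i => by
        simp only [Matrix.of_apply]
        exact dth_loc_12288 T R (σ i) (hW _ (hsW i)) (hs i))
    refine Submodule.span_mono ?_ h2
    apply Set.image_mono
    intro u hu j
    apply (hu j).2
    rw [Finset.mem_image]
    exact ⟨σ.symm j, Finset.mem_univ _, σ.apply_symm_apply j⟩
  rw [det_dth] at h1
  have h3 : algebraMap ℂ K (R.det : ℂ) = ((R.det : ℤ) : K) := map_intCast _ _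
  have h4 : ((R.det : ℤ) : ℂ) ≠ 0 := by exact_mod_cast hR
  have h5 : ((R.det : ℤ) : K) ≠ 0 := by
    rw [← h3]
    intro h6
    exact h4 ((map_eq_zero _).mp h6)
  have h6 : Matrix.det (Matrix.of fun i j => T.θ i (g j)) * ∏ j, s j ^ 2 =
      ((R.det : ℂ)⁻¹) • ((∏ j, s j ^ 2) * (((R.det : ℤ) : K) *
        Matrix.det (Matrix.of fun i j => T.θ i (g j)))) := by
    rw [Algebra.smul_def, map_inv₀, h3]
    field_simp
  rw [h6]
  exact Submodule.smul_mem _ _ h1

theorem secSet_loc_one (T : TorusField n K) (R : Matrix (Fin n) (Fin n) ℤ) :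
    (1 : K) ∈ mspan T R 0 := (mem_cone T R 1).mp (one_mem _)

theorem secSet_loc_prod (T : TorusField n K) (R : Matrix (Fin n) (Fin n) ℤ) :
    ∀ (m : ℕ) (b : Fin m → K), (∀ k, b k ∈ mspan T R 1) → ∏ k, b k ∈ mspan T R (m : ℤ) := by
  intro m
  induction m with
  | zero => intro b _; simpa using secSet_loc_one T R
  | succ m ih =>
    intro b hb
    rw [Fin.prod_univ_castSucc]
    have h := mspan_mul T R (m : ℤ) 1 (ih (fun k => b k.castSucc) (fun k => hb _)) (hb (Fin.last m))
    push_cast
    exact h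

theorem secSet_loc_pow (T : TorusField n K) (y : Fin n → ℤ) (m : ℕ) :
    T.χ y ^ m = T.χ (m • y) := by
  induction m with
  | zero => rw [pow_zero, zero_smul, T.χ_zero]
  | succ m ih => rw [pow_succ, ih, ← T.χ_add, succ_nsmul]

theorem secSet_loc_shift (T : TorusField n K) (w : Fin n → ℤ) (c : (Fin n → ℤ) →₀ ℂ) :
    T.χ w * Finsupp.linearCombination ℂ T.χ c =
      Finsupp.linearCombination ℂ T.χ (Finsupp.mapDomain (fun u => u + w) c) := by
  rw [Finsupp.linearCombination_mapDomain, Finsupp.linearCombination_apply,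
    Finsupp.linearCombination_apply, Finsupp.sum, Finsupp.sum, Finset.mul_sum]
  refine Finset.sum_congr rfl fun u _ => ?_
  rw [Function.comp_apply, T.χ_add, mul_smul_comm, mul_comm (T.χ w)]

theorem secSet_loc_lau (T : TorusField n K) (R : Matrix (Fin n) (Fin n) ℤ) (w : Fin n → ℤ) (f : K)
    (h : f * T.χ w ∈ mspan T R 0) : ∃ c, f = Finsupp.linearCombination ℂ T.χ c := by
  have h1 : f * T.χ w ∈ Submodule.span ℂ (Set.range T.χ) :=
    Submodule.span_mono (Set.image_subset_range _ _) h
  rw [Finsupp.mem_span_range_iff_exists_finsupp] at h1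
  obtain ⟨c, hc⟩ := h1
  refine ⟨Finsupp.mapDomain (fun u => u + (-w)) c, ?_⟩
  rw [← secSet_loc_shift, Finsupp.linearCombination_apply, hc]
  have h2 : T.χ (-w) * T.χ w = 1 := by rw [← T.χ_add, neg_add_cancel, T.χ_zero]
  calc f = f * (T.χ (-w) * T.χ w) := by rw [h2, mul_one]
    _ = T.χ (-w) * (f * T.χ w) := by ring

theorem secSet_loc_facet (T : TorusField n K) (R : Matrix (Fin n) (Fin n) ℤ)
    (hR : R.det ≠ 0) (hp : ∀ j, ∃ u, Matrix.vecMul u R j = 1)
    (W : Submonoid K) (m : ℕ) (t : K)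
    (ht : t ∈ secSet T m (locW (cone T R) W)) (j : Fin n) :
    ∃ s ∈ W, ∃ y : Fin n → ℤ, Matrix.vecMul y R j = 1 ∧ (t * s) * T.χ (m • y) ∈ mspan T R 0 := by
  have : CharZero K := charZero_of_injective_algebraMap (algebraMap ℂ K).injective
  obtain ⟨us, hus, hdet, hy⟩ := exists_tight R hR j (hp j)
  have h1 := ht (fun _ => Matrix.det (Matrix.of fun i j => T.θ i (T.χ (us j)))) (fun k =>
    ⟨fun j => T.χ (us j), fun j => ⟨1, W.one_mem, by
      rw [mul_one]
      exact Algebra.subset_adjoin ⟨us j, hus j, rfl⟩⟩, rfl⟩)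
  obtain ⟨s, hs, h2⟩ := h1
  refine ⟨s, hs, ∑ l, us l, hy, ?_⟩
  rw [mem_cone] at h2
  rw [Finset.prod_const, Finset.card_univ, Fintype.card_fin, det_chi, mul_pow,
    secSet_loc_pow] at h2
  obtain ⟨d, hd⟩ : ∃ d : ℤ, d = (Matrix.of us).det := ⟨_, rfl⟩
  rw [← hd] at h2 hdet
  have hd0 : ((d : ℂ) ^ m) ≠ 0 := pow_ne_zero _ (by exact_mod_cast hdet)
  have h3 : (t * ((d : K) ^ m * T.χ (m • ∑ l, us l))) * s =
      ((d : ℂ) ^ m) • ((t * s) * T.χ (m • ∑ l, us l)) := by
    generalize T.χ (m • ∑ l, us l) = X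
    rw [Algebra.smul_def, map_pow, map_intCast]
    ring
  rw [h3] at h2
  exact (Submodule.smul_mem_iff _ hd0).mp h2

theorem secSet_loc (T : TorusField n K) (hn : 0 < n) (R : Matrix (Fin n) (Fin n) ℤ)
    (hR : R.det ≠ 0) (hp : ∀ j, ∃ u, Matrix.vecMul u R j = 1)
    (W : Submonoid K) (hW : ∀ s ∈ W, s ∈ cone T R) (hW0 : (0 : K) ∉ W) (m : ℕ) (t : K) :
    t ∈ secSet T m (locW (cone T R) W) ↔ ∃ s ∈ W, t * s ∈ mspan T R (-(m : ℤ)) := by
  constructor
  · intro ht
    choose s hs y hy h using secSet_loc_facet T R hR hp W m t ht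
    refine ⟨∏ j, s j, prod_mem (fun j _ => hs j), ?_⟩
    -- multiply by the other factors
    have h1 : ∀ j, (t * ∏ j, s j) * T.χ (m • y j) ∈ mspan T R 0 := by
      intro j
      have e1 : (t * ∏ j, s j) * T.χ (m • y j) =
          ((t * s j) * T.χ (m • y j)) * ∏ i ∈ Finset.univ.erase j, s i := by
        rw [← Finset.mul_prod_erase Finset.univ s (Finset.mem_univ j)]
        ring
      have e2 : ∏ i ∈ Finset.univ.erase j, s i ∈ mspan T R 0 := by
        rw [← mem_cone]
        exact prod_mem (fun i _ => hW _ (hs i))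
      rw [e1]
      have := mspan_mul T R 0 0 (h j) e2
      rwa [add_zero] at this
    obtain ⟨c, hc⟩ := secSet_loc_lau T R _ _ (h1 ⟨0, hn⟩)
    rw [hc, mem_mspan_iff]
    intro u hu j
    have h2 := h1 j
    rw [hc, mul_comm, secSet_loc_shift, mem_mspan_iff] at h2
    have hinj : Function.Injective (fun u : Fin n → ℤ => u + m • y j) := add_left_injective _
    have h3 : u + m • y j ∈ (Finsupp.mapDomain (fun u => u + m • y j) c).support := by
      rw [Finsupp.mapDomain_support_of_injective hinj]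
      exact Finset.mem_image_of_mem _ hu
    have h4 := h2 _ h3 j
    rw [Matrix.add_vecMul, Matrix.smul_vecMul] at h4
    simp only [Pi.add_apply, Pi.smul_apply, hy j] at h4
    simp only [nsmul_eq_mul, mul_one] at h4
    linarith
  · rintro ⟨s, hs, h⟩ a ha
    have h1 : ∀ k, ∃ s' ∈ W, a k * s' ∈ mspan T R 1 := by
      intro k
      obtain ⟨g, hg, hgk⟩ := ha k
      obtain ⟨s', hs', h2⟩ := forms_loc T R hR W hW hW0 g hg
      exact ⟨s', hs', by rw [hgk]; exact h2⟩
    choose s' hs' h2 using h1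
    refine ⟨s * ∏ k, s' k, W.mul_mem hs (prod_mem (fun k _ => hs' k)), ?_⟩
    rw [mem_cone]
    have h3 := mspan_mul T R _ _ h (secSet_loc_prod T R m (fun k => a k * s' k) h2)
    rw [neg_add_cancel, Finset.prod_mul_distrib] at h3
    have e : (t * ∏ k, a k) * (s * ∏ k, s' k) = t * s * ((∏ k, a k) * ∏ k, s' k) := by ring
    rw [e]
    exact h3

end Pool.Agent.Helper774.KSing
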