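import Pool.Agent.Helper774.KSing.Val
import Pool.Agent.Helper774.KSing.Sec

open scoped ENNReal

noncomputable section

namespace Pool.Agent.Helper774.KSing

open Pool.Agent.Helper774.KStab (TorusField IntVal)

variable {n : ℕ} {K : Type} [Field K] [Algebra ℂ K]

/-- Combinatorial data of a (simplicial) toric Fano variety: for every maximal cone `σ` the matrix
`R σ` whose columns are the primitive generators of its rays, and `w σ = r p_σ` where `p_σ` is
the corresponding vertex of the moment polytope and `r` a common denominator. -/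
structure SData (n : ℕ) where
  pos : 0 < n
  ι : Type
  [fin : Finite ι]
  R : ι → Matrix (Fin n) (Fin n) ℤ
  det_ne : ∀ σ, (R σ).det ≠ 0
  prim : ∀ σ j, ∃ u, Matrix.vecMul u (R σ) j = 1
  r : ℕ
  r_pos : 1 ≤ r
  w : ι → Fin n → ℤ
  w_self : ∀ σ j, Matrix.vecMul (w σ) (R σ) j = -(r : ℤ)
  vert : ∀ σ τ j, -(r : ℤ) ≤ Matrix.vecMul (w σ) (R τ) j
  strict : ∀ σ τ j, Matrix.vecMul (w σ) (R τ) j = -(r : ℤ) → ∃ k, ∀ i, R τ i j = R σ i k
  nbr : ∀ σ i, ∃ τ, (∀ j, j ≠ i → Matrix.vecMul (w τ) (R σ) j = -(r : ℤ)) ∧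
    Matrix.vecMul (w τ) (R σ) i ≠ -(r : ℤ)
  ne : Nonempty ι

attribute [instance] SData.fin

/-- Lattice points of `m P`. -/
def SData.pts {n : ℕ} (D : SData n) (m : ℕ) : Set (Fin n → ℤ) :=
  {u | ∀ σ j, -(m : ℤ) ≤ Matrix.vecMul u (D.R σ) j}

/-- The polytope `P`. -/
def SData.P {n : ℕ} (D : SData n) : Set (Fin n → ℝ) :=
  {p | ∀ σ j, -1 ≤ ∑ i, p i * ((D.R σ i j : ℤ) : ℝ)}

theorem chi_nsmul' (T : TorusField n K) (k : ℕ) (u : Fin n → ℤ) : T.χ (k • u) = T.χ u ^ k := by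
  induction k with
  | zero => rw [zero_smul, T.χ_zero, pow_zero]
  | succ k ih => rw [succ_nsmul, T.χ_add, ih, pow_succ]

theorem chi_neg_mul' (T : TorusField n K) (u : Fin n → ℤ) : T.χ (-u) * T.χ u = 1 := by
  rw [← T.χ_add, neg_add_cancel, T.χ_zero]

theorem chi_ne' (T : TorusField n K) (u : Fin n → ℤ) : T.χ u ≠ 0 := by
  intro h
  have := chi_neg_mul' T u
  rw [h, mul_zero] at this
  exact zero_ne_one this

theorem chi_neg' (T : TorusField n K) (u : Fin n → ℤ) : T.χ (-u) = (T.χ u)⁻¹ :=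
  eq_inv_of_mul_eq_one_left (chi_neg_mul' T u)

theorem mem_cone_chi (T : TorusField n K) (R : Matrix (Fin n) (Fin n) ℤ) {u : Fin n → ℤ}
    (hu : u ∈ Mset R 0) : T.χ u ∈ cone T R :=
  Algebra.subset_adjoin ⟨u, hu, rfl⟩

theorem w_diff (D : SData n) (σ τ : D.ι) (j : Fin n) :
    Matrix.vecMul (D.w σ - D.w τ) (D.R τ) j = Matrix.vecMul (D.w σ) (D.R τ) j + D.r := by
  rw [Matrix.sub_vecMul, Pi.sub_apply, D.w_self τ j]; ring

theorem w_diff_mem (D : SData n) (σ τ : D.ι) : D.w σ - D.w τ ∈ Mset (D.R τ) 0 := by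
  intro j
  rw [w_diff]
  have := D.vert σ τ j
  linarith

theorem shift_mem (D : SData n) (σ τ : D.ι) {u : Fin n → ℤ} (hu : u ∈ Mset (D.R σ) 0) :
    ∃ N : ℕ, u + N • (D.w σ - D.w τ) ∈ Mset (D.R τ) 0 := by
  refine ⟨∑ j, (Matrix.vecMul u (D.R τ) j).natAbs, ?_⟩
  intro j
  rw [Matrix.add_vecMul, Pi.add_apply, Matrix.smul_vecMul, Pi.smul_apply, w_diff, nsmul_eq_mul]
  set N := ∑ j, (Matrix.vecMul u (D.R τ) j).natAbs with hN
  have hNj : (Matrix.vecMul u (D.R τ) j).natAbs ≤ N :=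
    Finset.single_le_sum (f := fun j => (Matrix.vecMul u (D.R τ) j).natAbs)
      (fun _ _ => Nat.zero_le _) (Finset.mem_univ j)
  have hNj' : |Matrix.vecMul u (D.R τ) j| ≤ (N : ℤ) := by
    rw [Int.abs_eq_natAbs]; exact_mod_cast hNj
  have hge := D.vert σ τ j
  rcases eq_or_lt_of_le hge with h0 | h0
  · obtain ⟨k, hk⟩ := D.strict σ τ j h0.symm
    have h1 : Matrix.vecMul u (D.R τ) j = Matrix.vecMul u (D.R σ) k := by
      simp only [Matrix.vecMul, dotProduct]
      exact Finset.sum_congr rfl fun i _ => by rw [hk i]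
    rw [← h0, h1]
    have := hu k
    simpa using this
  · have h1 : (1:ℤ) ≤ Matrix.vecMul (D.w σ) (D.R τ) j + D.r := by linarith
    have h2 : (N : ℤ) ≤ (N : ℤ) * (Matrix.vecMul (D.w σ) (D.R τ) j + D.r) := by
      nlinarith [Int.natCast_nonneg N]
    have h3 := neg_abs_le (Matrix.vecMul u (D.R τ) j)
    linarith

theorem cone_le_of (T : TorusField n K) (D : SData n) (σ τ : D.ι) (V : ValuationSubring K)
    (h : ∀ f ∈ cone T (D.R τ), f ∈ V) (h2 : T.χ (D.w τ - D.w σ) ∈ V) :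
    ∀ f ∈ cone T (D.R σ), f ∈ V := by
  intro f hf
  unfold cone at hf
  induction hf using Algebra.adjoin_induction with
  | mem x hx =>
    obtain ⟨u, hu, rfl⟩ := hx
    obtain ⟨N, hN⟩ := shift_mem D σ τ hu
    have h3 : T.χ u = T.χ (u + N • (D.w σ - D.w τ)) * T.χ (D.w τ - D.w σ) ^ N := by
      rw [← chi_nsmul', ← T.χ_add]
      congr 1
      rw [add_assoc, ← smul_add]
      simp
    rw [h3]
    exact V.mul_mem _ _ (h _ (mem_cone_chi T _ hN)) (pow_mem h2 N)
  | algebraMap c => exact h _ ((cone T (D.R τ)).algebraMap_mem c)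
  | add x y _ _ hx hy => exact V.add_mem _ _ hx hy
  | mul x y _ _ hx hy => exact V.mul_mem _ _ hx hy

theorem exists_pow_mem (T : TorusField n K) (D : SData n) (σ τ : D.ι) {a : K}
    (ha : a ∈ cone T (D.R σ)) : ∃ N : ℕ, a * T.χ (D.w σ - D.w τ) ^ N ∈ cone T (D.R τ) := by
  have hb : T.χ (D.w σ - D.w τ) ∈ cone T (D.R τ) := mem_cone_chi T _ (w_diff_mem D σ τ)
  unfold cone at ha
  induction ha using Algebra.adjoin_induction with
  | mem x hx =>
    obtain ⟨u, hu, rfl⟩ := hx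
    obtain ⟨N, hN⟩ := shift_mem D σ τ hu
    refine ⟨N, ?_⟩
    rw [← chi_nsmul', ← T.χ_add]
    exact mem_cone_chi T _ hN
  | algebraMap c =>
    refine ⟨0, ?_⟩
    rw [pow_zero, mul_one]
    exact (cone T (D.R τ)).algebraMap_mem c
  | add x y _ _ hx hy =>
    obtain ⟨N, hN⟩ := hx
    obtain ⟨M, hM⟩ := hy
    refine ⟨N + M, ?_⟩
    have h1 : (x + y) * T.χ (D.w σ - D.w τ) ^ (N + M) =
        (x * T.χ (D.w σ - D.w τ) ^ N) * T.χ (D.w σ - D.w τ) ^ M +
        (y * T.χ (D.w σ - D.w τ) ^ M) * T.χ (D.w σ - D.w τ) ^ N := by ring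
    rw [h1]
    exact add_mem (mul_mem hN (pow_mem hb M)) (mul_mem hM (pow_mem hb N))
  | mul x y _ _ hx hy =>
    obtain ⟨N, hN⟩ := hx
    obtain ⟨M, hM⟩ := hy
    refine ⟨N + M, ?_⟩
    have h1 : (x * y) * T.χ (D.w σ - D.w τ) ^ (N + M) =
        (x * T.χ (D.w σ - D.w τ) ^ N) * (y * T.χ (D.w σ - D.w τ) ^ M) := by ring
    rw [h1]
    exact mul_mem hN hM

theorem sep_aux (T : TorusField n K) (D : SData n) (σ τ : D.ι) (V : ValuationSubring K)
    (h1 : ∀ f ∈ cone T (D.R σ), f ∈ V) :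
    locAtCentre (cone T (D.R σ)) V ⊆ locAtCentre (cone T (D.R τ)) V := by
  rintro z ⟨a, ha, s, hs, hs0, hsV, hz⟩
  have hb : T.χ (D.w σ - D.w τ) ∈ cone T (D.R τ) := mem_cone_chi T _ (w_diff_mem D σ τ)
  obtain ⟨N, hN⟩ := exists_pow_mem T D σ τ ha
  obtain ⟨M, hM⟩ := exists_pow_mem T D σ τ hs
  have hinv : (T.χ (D.w σ - D.w τ))⁻¹ ∈ V := by
    rw [← chi_neg', neg_sub]
    exact h1 _ (mem_cone_chi T _ (w_diff_mem D τ σ))
  refine ⟨a * T.χ (D.w σ - D.w τ) ^ N * T.χ (D.w σ - D.w τ) ^ M, mul_mem hN (pow_mem hb M),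
    s * T.χ (D.w σ - D.w τ) ^ M * T.χ (D.w σ - D.w τ) ^ N, mul_mem hM (pow_mem hb N), ?_, ?_, ?_⟩
  · exact mul_ne_zero (mul_ne_zero hs0 (pow_ne_zero _ (chi_ne' T _))) (pow_ne_zero _ (chi_ne' T _))
  · rw [mul_inv, mul_inv, ← inv_pow, ← inv_pow]
    exact V.mul_mem _ _ (V.mul_mem _ _ hsV (pow_mem hinv M)) (pow_mem hinv N)
  · rw [← hz]; ring

theorem sep (T : TorusField n K) (D : SData n) (σ τ : D.ι) (V : ValuationSubring K)
    (h1 : ∀ f ∈ cone T (D.R σ), f ∈ V) (h2 : ∀ f ∈ cone T (D.R τ), f ∈ V) :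
    locAtCentre (cone T (D.R σ)) V = locAtCentre (cone T (D.R τ)) V :=
  Set.Subset.antisymm (sep_aux T D σ τ V h1) (sep_aux T D τ σ V h2)

theorem compl (T : TorusField n K) (D : SData n) (V : ValuationSubring K)
    (h : ∀ c : ℂ, algebraMap ℂ K c ∈ V) : ∃ σ, ∀ f ∈ cone T (D.R σ), f ∈ V := by
  have := D.ne
  obtain ⟨σ, hσ⟩ := Finite.exists_max (fun σ : D.ι => V.valuation (T.χ (D.w σ)))
  refine ⟨σ, ?_⟩
  let S : AddSubmonoid (Fin n → ℤ) :=
    { carrier := {u | T.χ u ∈ V}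
      add_mem' := by
        intro a b ha hb
        simp only [Set.mem_setOf_eq] at ha hb ⊢
        rw [T.χ_add]; exact V.mul_mem _ _ ha hb
      zero_mem' := by
        simp only [Set.mem_setOf_eq]
        rw [T.χ_zero]; exact V.one_mem }
  have hS : ∀ u, u ∈ S ↔ T.χ u ∈ V := fun u => Iff.rfl
  have hdiv : ∀ (k : ℕ) (u : Fin n → ℤ), 0 < k → k • u ∈ S → u ∈ S := by
    intro k u hk hu
    rw [hS] at hu ⊢
    rw [chi_nsmul', ← V.valuation_le_one_iff, map_pow] at hu
    rw [← V.valuation_le_one_iff]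
    exact (pow_le_one_iff hk.ne').mp hu
  have hwS : ∀ τ, D.w τ - D.w σ ∈ S := by
    intro τ
    rw [hS, ← V.valuation_le_one_iff, sub_eq_add_neg, T.χ_add, chi_neg', map_mul, map_inv₀]
    have h0 : V.valuation (T.χ (D.w σ)) ≠ 0 := by
      rw [Valuation.ne_zero_iff]; exact chi_ne' T _
    have := hσ τ
    rw [← div_eq_mul_inv]
    exact (div_le_one₀ (zero_lt_iff.mpr h0)).mpr this
  have key : ∀ u ∈ Mset (D.R σ) 0, T.χ u ∈ V := by
    intro u hu
    choose τ hτ1 hτ2 using D.nbr σ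
    set c : Fin n → ℤ := fun i => Matrix.vecMul (D.w (τ i)) (D.R σ) i + D.r with hc
    have hcpos : ∀ i, 0 < c i := by
      intro i
      have h1 := D.vert (τ i) σ i
      have h2 := hτ2 i
      have h3 : -(D.r : ℤ) < Matrix.vecMul (D.w (τ i)) (D.R σ) i := lt_of_le_of_ne h1 (Ne.symm h2)
      simp only [hc]; linarith
    have he : ∀ i j, Matrix.vecMul (D.w (τ i) - D.w σ) (D.R σ) j = if j = i then c i else 0 := by
      intro i j
      rw [w_diff]
      by_cases hij : j = i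
      · subst hij; simp [hc]
      · rw [if_neg hij, hτ1 i j hij]; ring
    set a : Fin n → ℤ := fun i => Matrix.vecMul u (D.R σ) i with ha
    have ha0 : ∀ i, 0 ≤ a i := fun i => hu i
    have hid : (∏ i, c i) • u = ∑ i, (a i * ∏ j ∈ Finset.univ.erase i, c j) • (D.w (τ i) - D.w σ) := by
      rw [← sub_eq_zero]
      apply Matrix.eq_zero_of_vecMul_eq_zero (D.det_ne σ)
      funext j
      rw [Matrix.sub_vecMul, Pi.sub_apply, Matrix.smul_vecMul, Pi.smul_apply, Matrix.sum_vecMul,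
        Finset.sum_apply]
      simp only [Matrix.smul_vecMul, Pi.smul_apply, he, smul_eq_mul, mul_ite, mul_zero]
      rw [Finset.sum_ite_eq]
      simp only [Finset.mem_univ, if_true, Pi.zero_apply]
      rw [← Finset.mul_prod_erase Finset.univ c (Finset.mem_univ j)]
      simp only [ha]
      ring
    have hCpos : 0 < ∏ i, c i := Finset.prod_pos fun i _ => hcpos i
    have hint : ∀ (k : ℤ) (v : Fin n → ℤ), 0 ≤ k → v ∈ S → k • v ∈ S := by
      intro k v hk hv
      obtain ⟨m, rfl⟩ := Int.eq_ofNat_of_zero_le hk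
      rw [natCast_zsmul]
      exact S.nsmul_mem hv m
    have hmem : (∏ i, c i) • u ∈ S := by
      rw [hid]
      refine S.sum_mem fun i _ => hint _ _ ?_ (hwS _)
      exact mul_nonneg (ha0 i) (Finset.prod_nonneg fun j _ => (hcpos j).le)
    obtain ⟨m, hm⟩ := Int.eq_ofNat_of_zero_le hCpos.le
    rw [hm, natCast_zsmul] at hmem
    refine hdiv m u ?_ hmem
    rw [hm] at hCpos
    exact_mod_cast hCpos
  intro f hf
  unfold cone at hf
  induction hf using Algebra.adjoin_induction with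
  | mem x hx => obtain ⟨u, hu, rfl⟩ := hx; exact key u hu
  | algebraMap c => exact h c
  | add x y _ _ hx hy => exact V.add_mem _ _ hx hy
  | mul x y _ _ hx hy => exact V.mul_mem _ _ hx hy

theorem exists_der (T : TorusField n K) :
    ∃ b : Module.Basis (Fin n) K (Derivation ℂ K K), ∀ i, b i = T.θ i := T.exists_basis

/-- The toric variety of the data `D`, as a normal complete variety. -/
@[reducible] def toricVar (T : TorusField n K) (D : SData n) : Variety where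
  dim := n
  K := K
  ι := D.ι
  chart σ := cone T (D.R σ)
  frac σ := cone_frac T (D.R σ) (D.det_ne σ)
  fg σ := cone_fg T (D.R σ) (D.det_ne σ)
  normal σ := cone_normal T (D.R σ) (D.det_ne σ)
  separated := sep T D
  complete := compl T D
  der := Classical.choose (exists_der T)

theorem toric_jac (T : TorusField n K) (D : SData n) (g : Fin n → K) :
    (toricVar T D).jac g = Matrix.det (Matrix.of fun i j => T.θ i (g j)) := by
  have h := Classical.choose_spec (exists_der T)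
  show Matrix.det (Matrix.of fun i j => (Classical.choose (exists_der T)) i (g j)) = _
  congr 1
  ext i j
  rw [Matrix.of_apply, Matrix.of_apply, h i]

theorem toric_sections (T : TorusField n K) (D : SData n) (m : ℕ) (A : Set K) :
    (toricVar T D).sections m A = secSet T m A := by
  ext s
  constructor
  · intro h a ha
    refine h a fun k => ?_
    obtain ⟨g, hg, e⟩ := ha k
    exact ⟨g, hg, e.trans (toric_jac T D g).symm⟩
  · intro h a ha
    refine h a fun k => ?_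
    obtain ⟨g, hg, e⟩ := ha k
    exact ⟨g, hg, e.trans (toric_jac T D g)⟩

theorem sections_chart (T : TorusField n K) (D : SData n) (σ : D.ι) (m : ℕ) (t : K) :
    t ∈ (toricVar T D).sections m (cone T (D.R σ) : Set K) ↔
      t ∈ mspan T (D.R σ) (-(m : ℤ)) := by
  rw [toric_sections]
  have h1 : (cone T (D.R σ) : Set K) = locW (cone T (D.R σ)) ⊥ := by
    ext z
    constructor
    · intro hz
      refine ⟨1, Submonoid.one_mem _, ?_⟩
      rw [mul_one]
      exact hz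
    · rintro ⟨s, hs, hz⟩
      rw [Submonoid.mem_bot] at hs
      rw [hs, mul_one] at hz
      exact hz
  rw [h1, secSet_loc T D.pos (D.R σ) (D.det_ne σ) (D.prim σ) ⊥
    (fun s hs => by
      rw [Submonoid.mem_bot] at hs
      rw [hs]
      exact (cone T (D.R σ)).one_mem)
    (by
      rw [Submonoid.mem_bot]
      exact zero_ne_one)]
  constructor
  · rintro ⟨s, hs, hz⟩
    rw [Submonoid.mem_bot] at hs
    rw [hs, mul_one] at hz
    exact hz
  · intro h
    refine ⟨1, Submonoid.one_mem _, ?_⟩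
    rw [mul_one]
    exact h

theorem toric_antican (T : TorusField n K) (D : SData n) (m : ℕ) (f : K) :
    f ∈ (toricVar T D).antican m ↔ f ∈ Submodule.span ℂ (T.χ '' D.pts m) := by
  constructor
  · intro h
    have h1 : ∀ σ : D.ι, f ∈ mspan T (D.R σ) (-(m : ℤ)) := fun σ =>
      (sections_chart T D σ m f).1 (h σ)
    obtain ⟨σ₀⟩ := D.ne
    have h2 := h1 σ₀
    rw [mspan, Finsupp.mem_span_image_iff_linearCombination] at h2
    obtain ⟨c, _, hc⟩ := h2
    rw [Finsupp.mem_span_image_iff_linearCombination]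
    refine ⟨c, ?_, hc⟩
    rw [Finsupp.mem_supported]
    intro u hu σ
    have h3 := h1 σ
    rw [← hc, mem_mspan_iff] at h3
    exact h3 u hu
  · intro h σ
    rw [sections_chart]
    refine Submodule.span_mono (Set.image_mono ?_) h
    intro u hu
    exact hu σ

/-- the multiplicative set of the elements of the cone ring outside `p` -/
def gcW (T : TorusField n K) (R : Matrix (Fin n) (Fin n) ℤ) (p : Ideal (cone T R))
    (hp : p.IsPrime) : Submonoid K where
  carrier := {s | ∃ h : s ∈ cone T R, (⟨s, h⟩ : cone T R) ∉ p}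
  mul_mem' := by
    rintro a b ⟨ha, ha'⟩ ⟨hb, hb'⟩
    refine ⟨(cone T R).mul_mem ha hb, fun hab => ?_⟩
    have : (⟨a, ha⟩ : cone T R) * ⟨b, hb⟩ ∈ p := hab
    rcases hp.mem_or_mem this with h | h
    · exact ha' h
    · exact hb' h
  one_mem' := by
    refine ⟨(cone T R).one_mem, fun h => ?_⟩
    have : (1 : cone T R) ∈ p := h
    exact hp.ne_top ((Ideal.eq_top_iff_one p).2 this)

theorem gc_locRing (T : TorusField n K) (R : Matrix (Fin n) (Fin n) ℤ) (p : Ideal (cone T R))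
    (hp : p.IsPrime) : locRing (cone T R) p = locW (cone T R) (gcW T R p hp) := by
  ext z
  constructor
  · rintro ⟨a, s, hs, h⟩
    refine ⟨(s : K), ⟨s.2, hs⟩, ?_⟩
    rw [h]
    exact a.2
  · rintro ⟨s, ⟨hs, hs'⟩, h⟩
    exact ⟨⟨z * s, h⟩, ⟨s, hs⟩, hs', rfl⟩

theorem gc_chi_ne (T : TorusField n K) (u : Fin n → ℤ) : T.χ u ≠ 0 := by
  intro h
  have h1 : T.χ (u + -u) = T.χ u * T.χ (-u) := T.χ_add u (-u)
  rw [h, zero_mul, add_neg_cancel, T.χ_zero] at h1
  exact one_ne_zero h1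

theorem generates_chart (T : TorusField n K) (D : SData n) (σ : D.ι) (p : Ideal (cone T (D.R σ)))
    (hp : p.IsPrime) :
    (toricVar T D).GeneratesAt D.r (T.χ (D.w σ)) (locRing (cone T (D.R σ)) p) := by
  intro t
  rw [toric_sections, gc_locRing T (D.R σ) p hp]
  have hW : ∀ s ∈ gcW T (D.R σ) p hp, s ∈ cone T (D.R σ) := fun s hs => hs.1
  have hW0 : (0 : K) ∉ gcW T (D.R σ) p hp := by
    rintro ⟨h0, h0'⟩
    have h : (⟨(0 : K), h0⟩ : cone T (D.R σ)) = 0 := rfl
    rw [h] at h0'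
    exact h0' p.zero_mem
  rw [secSet_loc T D.pos (D.R σ) (D.det_ne σ) (D.prim σ) (gcW T (D.R σ) p hp) hW hW0]
  have hsh := mspan_shift T (D.R σ) 0 (-(D.r : ℤ)) (D.w σ) (D.w_self σ)
  rw [zero_add] at hsh
  have hne := gc_chi_ne T (D.w σ)
  constructor
  · rintro ⟨s, hs, hts⟩
    refine ⟨(T.χ (D.w σ))⁻¹ * t, ⟨s, hs, ?_⟩, ?_⟩
    · rw [mem_cone, hsh]
      rw [← mul_assoc, ← mul_assoc, mul_inv_cancel₀ hne, one_mul]
      exact hts
    · rw [← mul_assoc, mul_inv_cancel₀ hne, one_mul]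
  · rintro ⟨b, ⟨s, hs, hbs⟩, rfl⟩
    refine ⟨s, hs, ?_⟩
    rw [mem_cone, hsh, ← mul_assoc] at hbs
    exact hbs

/-! ## valuation rings dominating local rings (complete proofs) -/
theorem vr_isUnit (V : ValuationSubring K) (x : V) :
    IsUnit x ↔ (x : K) ≠ 0 ∧ (x : K)⁻¹ ∈ V := by
  constructor
  · intro h
    obtain ⟨y, hy⟩ := h.exists_right_inv
    have h1 : (x : K) * (y : K) = 1 := congrArg Subtype.val hy
    have h2 : (x : K) ≠ 0 := left_ne_zero_of_mul_eq_one h1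
    refine ⟨h2, ?_⟩
    rw [inv_eq_of_mul_eq_one_right h1]
    exact y.2
  · rintro ⟨h0, h1⟩
    exact IsUnit.of_mul_eq_one ⟨(x : K)⁻¹, h1⟩ (Subtype.ext (mul_inv_cancel₀ h0))

theorem vr_dom (A : Subring K) (P : Ideal A) (hP : P.IsPrime) :
    ∃ V : ValuationSubring K, (∀ f ∈ A, f ∈ V) ∧
      ∀ s : A, s ∉ P ↔ (s : K) ≠ 0 ∧ (s : K)⁻¹ ∈ V := by
  obtain ⟨V, hV⟩ := (LocalSubring.ofPrime A P).exists_le_valuationSubring
  obtain ⟨h, hloc⟩ := hV
  refine ⟨V, fun f hf => h (LocalSubring.le_ofPrime A P hf), fun s => ?_⟩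
  have h1 : IsUnit (algebraMap A (LocalSubring.ofPrime A P).toSubring s) ↔ s ∈ P.primeCompl :=
    IsLocalization.AtPrime.isUnit_to_map_iff _ P s
  have h2 : IsUnit (Subring.inclusion h (algebraMap A (LocalSubring.ofPrime A P).toSubring s)) ↔
      IsUnit (algebraMap A (LocalSubring.ofPrime A P).toSubring s) :=
    ⟨fun h => hloc.map_nonunit _ h, fun h' => h'.map _⟩
  have h3 := vr_isUnit V (Subring.inclusion h (algebraMap A (LocalSubring.ofPrime A P).toSubring s))
  exact (h1.symm.trans h2.symm).trans h3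

theorem vr_loc (R : Subalgebra ℂ K) (p : Ideal R) (V : ValuationSubring K)
    (h : ∀ s : R, s ∉ p ↔ (s : K) ≠ 0 ∧ (s : K)⁻¹ ∈ V) : locRing R p = locAtCentre R V := by
  ext z
  constructor
  · rintro ⟨a, s, hs, he⟩
    obtain ⟨h1, h2⟩ := (h s).1 hs
    exact ⟨a, a.2, s, s.2, h1, h2, he⟩
  · rintro ⟨a, ha, s, hs, h1, h2, he⟩
    exact ⟨⟨a, ha⟩, ⟨s, hs⟩, (h ⟨s, hs⟩).2 ⟨h1, h2⟩, he⟩

theorem vr_centre (R : Subalgebra ℂ K) (V : ValuationSubring K) (hR : ∀ f ∈ R, f ∈ V) :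
    ∃ p : Ideal R, p.IsPrime ∧ ∀ s : R, s ∉ p ↔ (s : K) ≠ 0 ∧ (s : K)⁻¹ ∈ V := by
  let φ : R →+* V :=
    { toFun := fun f => ⟨(f : K), hR f f.2⟩
      map_one' := rfl
      map_mul' := fun _ _ => rfl
      map_zero' := rfl
      map_add' := fun _ _ => rfl }
  refine ⟨(IsLocalRing.maximalIdeal V).comap φ, inferInstance, fun s => ?_⟩
  rw [Ideal.mem_comap, IsLocalRing.mem_maximalIdeal, mem_nonunits_iff, not_not]
  exact vr_isUnit V (φ s)

theorem vr_locAtCentre_sub (R : Subalgebra ℂ K) (V : ValuationSubring K)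
    (hR : ∀ f ∈ R, f ∈ V) (z : K) (hz : z ∈ locAtCentre R V) : z ∈ V := by
  obtain ⟨a, ha, s, hs, h1, h2, he⟩ := hz
  have : z = a * s⁻¹ := by
    rw [← he, mul_assoc, mul_inv_cancel₀ h1, mul_one]
  rw [this]
  exact V.mul_mem _ _ (hR a ha) h2

theorem vr_sub_loc (R : Subalgebra ℂ K) (p : Ideal R) (hp : p.IsPrime) :
    (R : Set K) ⊆ locRing R p := by
  intro z hz
  refine ⟨⟨z, hz⟩, 1, (Ideal.ne_top_iff_one p).1 hp.ne_top, ?_⟩
  simp

theorem toric_isFano (T : TorusField n K) (D : SData n) : (toricVar T D).IsFano := by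
  rintro A ⟨σ, p, hp, rfl⟩
  refine ⟨D.r, D.r_pos, T.χ (D.w σ), ?_, generates_chart T D σ p hp, cone T (D.R σ),
    cone_fg T (D.R σ) (D.det_ne σ), ?_⟩
  · rw [toric_antican]
    exact Submodule.subset_span ⟨_, fun τ j => D.vert σ τ j, rfl⟩
  · ext A'
    constructor
    · rintro ⟨⟨τ, q, hq, rfl⟩, hgen⟩
      have hgen2 := generates_chart T D τ q hq
      have h1 : T.χ (D.w τ) ∈ (toricVar T D).sections D.r (locRing (cone T (D.R τ)) q) := by
        rw [hgen2]
        exact ⟨1, vr_sub_loc _ q hq (one_mem _), (mul_one _).symm⟩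
      obtain ⟨b, hb, hb2⟩ := (hgen _).1 h1
      have hb3 : b = T.χ (D.w τ - D.w σ) := by
        have e1 : T.χ (D.w τ) = T.χ (D.w σ) * T.χ (D.w τ - D.w σ) := by
          rw [← T.χ_add]; congr 1; abel
        have e2 : T.χ (D.w σ) ≠ 0 := by
          apply left_ne_zero_of_mul_eq_one (b := T.χ (-D.w σ))
          rw [← T.χ_add, add_neg_cancel, T.χ_zero]
        rw [e1] at hb2
        exact (mul_left_cancel₀ e2 hb2).symm
      let f : (cone T (D.R τ)).toSubring →+* cone T (D.R τ) :=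
        { toFun := fun x => ⟨x.1, x.2⟩
          map_one' := rfl
          map_mul' := fun _ _ => rfl
          map_zero' := rfl
          map_add' := fun _ _ => rfl }
      haveI := hq
      obtain ⟨V, hV1, hV2⟩ := vr_dom (cone T (D.R τ)).toSubring (q.comap f) inferInstance
      have hV1' : ∀ f ∈ cone T (D.R τ), f ∈ V := fun f hf => hV1 f hf
      have hV3 : ∀ s : cone T (D.R τ), s ∉ q ↔ (s : K) ≠ 0 ∧ (s : K)⁻¹ ∈ V := by
        intro s
        exact hV2 ⟨s.1, s.2⟩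
      have hloc := vr_loc (cone T (D.R τ)) q V hV3
      have hbV : T.χ (D.w τ - D.w σ) ∈ V := by
        rw [← hb3]
        apply vr_locAtCentre_sub _ V hV1'
        rw [← hloc]
        exact hb
      have hσV := cone_le_of T D σ τ V hV1' hbV
      obtain ⟨p', hp', hp'2⟩ := vr_centre (cone T (D.R σ)) V hσV
      refine ⟨p', hp', ?_⟩
      have h5 := vr_loc (cone T (D.R σ)) p' V hp'2
      have h6 := sep T D σ τ V hσV hV1'
      exact hloc.trans (h6.symm.trans h5.symm)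
    · rintro ⟨p', hp', rfl⟩
      exact ⟨⟨σ, p', hp', rfl⟩, generates_chart T D σ p' hp'⟩

theorem co_exists_hom (T : TorusField n K) (v : AddValuation K (WithTop ℤ)) :
    ∃ a : (Fin n → ℤ) →+ ℤ, ∀ u, v (T.χ u) = ((a u : ℤ) : WithTop ℤ) := by
  have hne : ∀ u, T.χ u ≠ 0 := by
    intro u h
    have := T.χ_add u (-u)
    rw [add_neg_cancel, T.χ_zero, h, zero_mul] at this
    exact one_ne_zero this
  have hv : ∀ u, ∃ a : ℤ, v (T.χ u) = (a : WithTop ℤ) := by
    intro u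
    have h1 : v (T.χ u) ≠ ⊤ := fun h => hne u ((AddValuation.top_iff v).1 h)
    obtain ⟨a, ha⟩ := WithTop.ne_top_iff_exists.1 h1
    exact ⟨a, ha.symm⟩
  choose a ha using hv
  refine ⟨AddMonoidHom.mk' a ?_, ha⟩
  intro u w
  have h2 : ((a (u + w) : ℤ) : WithTop ℤ) = ((a u + a w : ℤ) : WithTop ℤ) := by
    rw [← ha, T.χ_add, AddValuation.map_mul, ha, ha]
    rfl
  exact_mod_cast h2

theorem co_bound (T : TorusField n K) (D : SData n) (v : AddValuation K (WithTop ℤ))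
    (htriv : ∀ c : ℂ, c ≠ 0 → v (algebraMap ℂ K c) = 0) (σ τ : D.ι)
    (hσ : ∀ f ∈ cone T (D.R σ), 0 ≤ v f) (hτ : ∀ f ∈ cone T (D.R τ), 0 ≤ v f) (k : ℤ)
    (hk : v (T.χ (D.w σ)) = k) (m : ℕ) (t : K) (ht : t ∈ mspan T (D.R τ) (-(m : ℤ)))
    (l : ℤ) (hl : v t = l) : (m : ℤ) * k ≤ D.r * l := by
  obtain ⟨a, ha⟩ := co_exists_hom T v
  have hpos : ∀ (ρ : D.ι), (∀ f ∈ cone T (D.R ρ), 0 ≤ v f) → ∀ u ∈ Mset (D.R ρ) 0, 0 ≤ a u := by
    intro ρ hρ u hu
    have h1 := hρ (T.χ u) (Algebra.subset_adjoin ⟨u, hu, rfl⟩)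
    rw [ha] at h1
    exact_mod_cast h1
  have hak : a (D.w σ) = k := by
    have := ha (D.w σ)
    rw [hk] at this
    exact_mod_cast this.symm
  have hkk : k ≤ a (D.w τ) := by
    have h1 := hpos σ hσ (D.w τ - D.w σ) (fun j => by
      rw [Matrix.sub_vecMul, Pi.sub_apply, D.w_self]
      have := D.vert τ σ j
      linarith)
    rw [map_sub, hak] at h1
    linarith
  have hu : ∀ u ∈ Mset (D.R τ) (-(m : ℤ)), (m : ℤ) * k ≤ D.r * a u := by
    intro u hu
    have h1 := hpos τ hτ ((D.r : ℤ) • u - (m : ℤ) • D.w τ) (fun j => by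
      rw [Matrix.sub_vecMul, Pi.sub_apply, Matrix.smul_vecMul, Matrix.smul_vecMul, Pi.smul_apply,
        Pi.smul_apply, D.w_self, smul_eq_mul, smul_eq_mul]
      have h2 := hu j
      have h3 : (0 : ℤ) ≤ D.r := by positivity
      nlinarith)
    rw [map_sub, map_zsmul, map_zsmul, smul_eq_mul, smul_eq_mul] at h1
    have h4 : (m : ℤ) * k ≤ m * a (D.w τ) := mul_le_mul_of_nonneg_left hkk (by positivity)
    linarith
  have hr : (0 : ℤ) < D.r := by exact_mod_cast D.r_pos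
  have key : ∀ x ∈ mspan T (D.R τ) (-(m : ℤ)), ∀ l : ℤ, v x = l → (m : ℤ) * k ≤ D.r * l := by
    intro x hx
    refine Submodule.span_induction (p := fun x _ => ∀ l : ℤ, v x = l → (m : ℤ) * k ≤ D.r * l)
      ?_ ?_ ?_ ?_ hx
    · rintro _ ⟨u, hu', rfl⟩ l hl
      rw [ha] at hl
      have : a u = l := by exact_mod_cast hl
      rw [← this]
      exact hu u hu'
    · intro l hl
      rw [AddValuation.map_zero] at hl
      exact absurd hl.symm WithTop.coe_ne_top
    · intro x y _ _ hx hy l hl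
      have h := v.map_add x y
      rw [hl] at h
      rcases min_le_iff.1 h with h1 | h1
      · obtain ⟨l', hl'⟩ := WithTop.ne_top_iff_exists.1 (ne_top_of_le_ne_top WithTop.coe_ne_top h1)
        rw [← hl'] at h1
        have h2 := hx l' hl'.symm
        have h3 : l' ≤ l := by exact_mod_cast h1
        nlinarith
      · obtain ⟨l', hl'⟩ := WithTop.ne_top_iff_exists.1 (ne_top_of_le_ne_top WithTop.coe_ne_top h1)
        rw [← hl'] at h1
        have h2 := hy l' hl'.symm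
        have h3 : l' ≤ l := by exact_mod_cast h1
        nlinarith
    · intro c x _ hx l hl
      by_cases hc : c = 0
      · subst hc
        rw [zero_smul, AddValuation.map_zero] at hl
        exact absurd hl.symm WithTop.coe_ne_top
      · rw [Algebra.smul_def, AddValuation.map_mul, htriv c hc, zero_add] at hl
        exact hx l hl
  exact key t ht l hl

theorem toric_canOrd (T : TorusField n K) (D : SData n) (E : (toricVar T D).DivVal) (σ : D.ι)
    (hσ : ∀ f ∈ cone T (D.R σ), f ∈ E.ring) (k : ℤ) (hk : E.v (T.χ (D.w σ)) = k) :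
    E.canOrd = -(k : ℝ) / D.r := by
  have hr : (0 : ℝ) < D.r := by exact_mod_cast D.r_pos
  unfold Variety.DivVal.canOrd
  refine IsGreatest.csSup_eq ⟨?_, ?_⟩
  · refine ⟨σ, D.r, T.χ (D.w σ), k, hσ, D.r_pos, ?_, hk, rfl⟩
    refine (sections_chart T D σ D.r (T.χ (D.w σ))).2 ?_
    exact Submodule.subset_span ⟨D.w σ, fun j => (D.w_self σ j).ge, rfl⟩
  · rintro x ⟨τ, m, t, l, hτ, hm, ht, hl, rfl⟩
    have ht' := (sections_chart T D τ m t).1 ht
    have h1 := co_bound T D E.v E.triv σ τ hσ hτ k hk m t ht' l hl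
    have hm' : (0 : ℝ) < m := by exact_mod_cast hm
    have h2 : (m : ℝ) * k ≤ D.r * l := by exact_mod_cast h1
    rw [div_le_div_iff₀ hm' hr]
    nlinarith

end Pool.Agent.Helper774.KSing
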