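import Pool.Agent.Helper774.KSing.Mon

open scoped ENNReal

noncomputable section

namespace Pool.Agent.Helper774.KSing

open Pool.Agent.Helper774.KStab (TorusField IntVal)
open Pool.Agent.Helper774.KStab (lc_ne LP phiA phiA_apply phiA_inj chiHom)

variable {n : ℕ} {K : Type} [Field K] [Algebra ℂ K]

/-- the characters with their order under an additive map -/
def serHomP (T : TorusField n K) (φ : (Fin n → ℤ) →+ ℤ) :
    Multiplicative (Fin n → ℤ) →* HahnSeries ℤ K where
  toFun u := HahnSeries.single (φ u.toAdd) (T.χ u.toAdd)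
  map_one' := by
    show HahnSeries.single (φ (0 : Fin n → ℤ)) (T.χ 0) = 1
    rw [T.χ_zero, map_zero]; rfl
  map_mul' u v := by
    show HahnSeries.single (φ (u.toAdd + v.toAdd)) (T.χ (u.toAdd + v.toAdd)) = _
    rw [T.χ_add, map_add, HahnSeries.single_mul_single]

attribute [-instance] HahnSeries.powerSeriesAlgebra in
def psiAP (T : TorusField n K) (φ : (Fin n → ℤ) →+ ℤ) : LP n →ₐ[ℂ] HahnSeries ℤ K :=
  AddMonoidAlgebra.lift ℂ (HahnSeries ℤ K) (Fin n → ℤ) (serHomP T φ)

attribute [-instance] HahnSeries.powerSeriesAlgebra in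
theorem psiAP_coeff (T : TorusField n K) (φ : (Fin n → ℤ) →+ ℤ) (x : LP n) (k : ℤ) :
    (psiAP T φ x).coeff k =
      Finsupp.linearCombination ℂ T.χ (x.coeff.filter fun u => φ u = k) := by
  classical
  rw [psiAP, AddMonoidAlgebra.lift_apply, Finsupp.sum, HahnSeries.coeff_sum,
    Finsupp.linearCombination_apply, Finsupp.sum, Finsupp.support_filter, Finset.sum_filter]
  refine Finset.sum_congr rfl fun u _ => ?_
  show (x.coeff u • HahnSeries.single (φ u) (T.χ u)).coeff k = _
  rw [HahnSeries.coeff_smul, HahnSeries.coeff_single]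
  by_cases h : φ u = k
  · rw [if_pos h.symm, if_pos h, Finsupp.filter_apply_pos (fun v : Fin n → ℤ => φ v = k) _ h]
  · rw [if_neg (fun h' => h h'.symm), if_neg h, smul_zero]

theorem exists_min_suppP (c : (Fin n → ℤ) →₀ ℂ) (hc : c ≠ 0) (φ : (Fin n → ℤ) →+ ℤ) :
    ∃ u ∈ c.support, ∀ u' ∈ c.support, φ u ≤ φ u' :=
  Finset.exists_min_image c.support (fun u => φ u) (Finsupp.support_nonempty_iff.2 hc)

attribute [-instance] HahnSeries.powerSeriesAlgebra in
theorem psiAP_orderTop (T : TorusField n K) (φ : (Fin n → ℤ) →+ ℤ) (x : LP n) {u : Fin n → ℤ}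
    (hu : u ∈ x.coeff.support) (hmin : ∀ u' ∈ x.coeff.support, φ u ≤ φ u') :
    (psiAP T φ x).orderTop = ((φ u : ℤ) : WithTop ℤ) := by
  apply HahnSeries.orderTop_eq_of_le
  · rw [HahnSeries.mem_support, psiAP_coeff]
    apply lc_ne
    intro h
    have := DFunLike.congr_fun h u
    rw [Finsupp.filter_apply_pos (fun v : Fin n → ℤ => φ v = φ u) _ rfl, Finsupp.zero_apply] at this
    exact (Finsupp.mem_support_iff.1 hu) this
  · intro k hk
    rw [HahnSeries.mem_support, psiAP_coeff] at hk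
    by_contra hlt
    apply hk
    have : x.coeff.filter (fun v => φ v = k) = 0 := by
      ext v
      by_cases h : φ v = k
      · rw [Finsupp.filter_apply_pos (fun v : Fin n → ℤ => φ v = k) _ h, Finsupp.zero_apply]
        by_contra hne
        exact hlt (h ▸ hmin v (Finsupp.mem_support_iff.2 hne))
      · rw [Finsupp.filter_apply_neg (fun v : Fin n → ℤ => φ v = k) _ h, Finsupp.zero_apply]
    rw [this, map_zero]

attribute [-instance] HahnSeries.powerSeriesAlgebra in
theorem psiAP_inj (T : TorusField n K) (φ : (Fin n → ℤ) →+ ℤ) : Function.Injective (psiAP T φ) := by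
  rw [injective_iff_map_eq_zero]
  intro x hx
  by_contra hne
  have hc : x.coeff ≠ 0 := fun h => hne (AddMonoidAlgebra.coeff_injective (by rw [h]; rfl))
  obtain ⟨u, hu, hmin⟩ := exists_min_suppP x.coeff hc φ
  have := psiAP_orderTop T φ x hu hmin
  rw [hx, HahnSeries.orderTop_zero] at this
  exact WithTop.top_ne_coe this

attribute [-instance] HahnSeries.powerSeriesAlgebra in
/-- The order of a Laurent polynomial under an additive map. -/
theorem exists_phiVal (T : TorusField n K) (φ : (Fin n → ℤ) →+ ℤ) :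
    ∃ v : AddValuation K (WithTop ℤ), ∀ c : (Fin n → ℤ) →₀ ℂ, c ≠ 0 →
      ∃ u ∈ c.support, v (Finsupp.linearCombination ℂ T.χ c) = ((φ u : ℤ) : WithTop ℤ) ∧
        ∀ u' ∈ c.support, φ u ≤ φ u' := by
  classical
  have hdom : IsDomain (LP n) := (phiA_inj T).isDomain (phiA T).toRingHom
  let _ : Algebra (LP n) K := (phiA T).toRingHom.toAlgebra
  have hmap : ∀ x : LP n, algebraMap (LP n) K x = phiA T x := fun x => rfl
  have hfr : IsFractionRing (LP n) K := by
    refine (isLocalization_iff _ _).2 ⟨fun y => ?_, fun z => ?_, fun {x y} h => ?_⟩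
    · rw [hmap]
      refine IsUnit.mk0 _ fun h => ?_
      have : (y : LP n) = 0 := phiA_inj T (by rw [h, map_zero])
      exact nonZeroDivisors.ne_zero y.2 this
    · obtain ⟨a, ha, b, hb, hb0, hab⟩ := T.frac z
      rw [Finsupp.mem_span_range_iff_exists_finsupp] at ha hb
      obtain ⟨ca, rfl⟩ := ha
      obtain ⟨cb, rfl⟩ := hb
      have hb1 : phiA T (AddMonoidAlgebra.ofCoeff cb) = cb.sum fun i a => a • T.χ i := by
        rw [phiA_apply, Finsupp.linearCombination_apply]
      have ha1 : phiA T (AddMonoidAlgebra.ofCoeff ca) = ca.sum fun i a => a • T.χ i := by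
        rw [phiA_apply, Finsupp.linearCombination_apply]
      refine ⟨⟨AddMonoidAlgebra.ofCoeff ca, ⟨AddMonoidAlgebra.ofCoeff cb, ?_⟩⟩, ?_⟩
      · refine mem_nonZeroDivisors_of_ne_zero fun h => hb0 ?_
        rw [← hb1, h, map_zero]
      · rw [hmap, hmap]
        show z * phiA T (AddMonoidAlgebra.ofCoeff cb) = phiA T (AddMonoidAlgebra.ofCoeff ca)
        rw [ha1, hb1]
        exact hab
    · rw [hmap, hmap] at h
      exact ⟨1, by rw [phiA_inj T h]⟩
  have hinj : Function.Injective (psiAP T φ).toRingHom := psiAP_inj T φ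
  let Φ : K →+* HahnSeries ℤ K := IsFractionRing.lift hinj
  refine ⟨(HahnSeries.addVal ℤ K).comap Φ, fun c hc => ?_⟩
  obtain ⟨u, hu, hmin⟩ := exists_min_suppP c hc φ
  refine ⟨u, hu, ?_, hmin⟩
  show HahnSeries.addVal ℤ K (Φ _) = _
  have h1 : Finsupp.linearCombination ℂ T.χ c = algebraMap (LP n) K (AddMonoidAlgebra.ofCoeff c) := by
    rw [hmap, phiA_apply]
  rw [h1, show Φ (algebraMap (LP n) K (AddMonoidAlgebra.ofCoeff c)) =
    (psiAP T φ).toRingHom (AddMonoidAlgebra.ofCoeff c) from IsFractionRing.lift_algebraMap hinj _,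
    HahnSeries.addVal_apply]
  exact psiAP_orderTop T φ (AddMonoidAlgebra.ofCoeff c) hu hmin

theorem chi_ne (T : TorusField n K) (u : Fin n → ℤ) : T.χ u ≠ 0 := by
  intro h
  have h1 : T.χ (u + -u) = 1 := by rw [add_neg_cancel, T.χ_zero]
  rw [T.χ_add, h, zero_mul] at h1
  exact zero_ne_one h1

theorem chi_pow (T : TorusField n K) (u : Fin n → ℤ) (k : ℕ) : T.χ (k • u) = T.χ u ^ k := by
  induction k with
  | zero => rw [zero_smul, pow_zero, T.χ_zero]
  | succ k ih => rw [succ_nsmul, T.χ_add, ih, pow_succ]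

theorem chi_sum (T : TorusField n K) {ι : Type} (s : Finset ι) (u : ι → Fin n → ℤ) :
    T.χ (∑ i ∈ s, u i) = ∏ i ∈ s, T.χ (u i) := by
  classical
  induction s using Finset.induction_on with
  | empty => rw [Finset.sum_empty, Finset.prod_empty, T.χ_zero]
  | insert a s ha ih => rw [Finset.sum_insert ha, Finset.prod_insert ha, T.χ_add, ih]

/-- polynomials inside `K` -/
def toK (T : TorusField n K) : MvPolynomial (Fin n) ℂ →ₐ[ℂ] K :=
  MvPolynomial.aeval (fun i => T.χ (Pi.single i 1))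

/-- exponent of a monomial -/
def jj (s : Fin n →₀ ℕ) : Fin n → ℤ := fun i => (s i : ℤ)

theorem jj_inj : Function.Injective (jj (n := n)) := by
  intro s t h
  ext i
  have := congrFun h i
  simpa [jj] using this

theorem toK_monomial (T : TorusField n K) (s : Fin n →₀ ℕ) (c : ℂ) :
    toK T (MvPolynomial.monomial s c) = c • T.χ (jj s) := by
  classical
  unfold toK
  rw [MvPolynomial.aeval_monomial, Algebra.smul_def]
  congr 1
  rw [Finsupp.prod_fintype _ _ (fun i => by rw [pow_zero])]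
  have h : jj s = ∑ i : Fin n, (s i) • (Pi.single i 1 : Fin n → ℤ) := by
    funext i
    rw [Finset.sum_apply]
    rw [Finset.sum_eq_single i]
    · simp [jj]
    · intro b _ hb
      rw [Pi.smul_apply, Pi.single_eq_of_ne (Ne.symm hb), smul_zero]
    · intro h; exact absurd (Finset.mem_univ i) h
  rw [h, chi_sum]
  refine Finset.prod_congr rfl fun i _ => ?_
  rw [chi_pow]

theorem toK_inj (T : TorusField n K) : Function.Injective (toK T) := by
  rw [injective_iff_map_eq_zero]
  intro p hp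
  rw [MvPolynomial.as_sum p, map_sum] at hp
  simp_rw [toK_monomial] at hp
  have h := (linearIndependent_iff'.mp (T.li.comp jj jj_inj)) p.support
    (fun v => MvPolynomial.coeff v p) hp
  ext v
  rw [MvPolynomial.coeff_zero]
  by_cases hv : v ∈ p.support
  · exact h v hv
  · exact MvPolynomial.notMem_support_iff.mp hv

theorem shift_gen (T : TorusField n K) (Q : Submodule ℂ K) (w : Fin n → ℤ)
    (h : ∀ u : Fin n → ℤ, ∃ N0 : ℕ, ∀ N : ℕ, N0 ≤ N → T.χ (N • w + u) ∈ Q) (g : K)
    (hg : g ∈ Submodule.span ℂ (Set.range T.χ)) :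
    ∃ N0 : ℕ, ∀ N : ℕ, N0 ≤ N → T.χ (N • w) * g ∈ Q := by
  induction hg using Submodule.span_induction with
  | mem x hx =>
    obtain ⟨u, rfl⟩ := hx
    obtain ⟨N0, hN0⟩ := h u
    refine ⟨N0, fun N hN => ?_⟩
    rw [← T.χ_add]
    exact hN0 N hN
  | zero => exact ⟨0, fun N _ => by rw [mul_zero]; exact Q.zero_mem⟩
  | add x y _ _ hx hy =>
    obtain ⟨N1, h1⟩ := hx
    obtain ⟨N2, h2⟩ := hy
    refine ⟨max N1 N2, fun N hN => ?_⟩
    rw [mul_add]
    exact Q.add_mem (h1 N (le_trans (le_max_left _ _) hN)) (h2 N (le_trans (le_max_right _ _) hN))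
  | smul c x _ hx =>
    obtain ⟨N1, h1⟩ := hx
    refine ⟨N1, fun N hN => ?_⟩
    rw [mul_smul_comm]
    exact Q.smul_mem c (h1 N hN)

theorem shift_poly (T : TorusField n K) (g : K) (hg : g ∈ Submodule.span ℂ (Set.range T.χ)) :
    ∃ N0 : ℕ, ∀ N : ℕ, N0 ≤ N → T.χ (N • (fun _ => 1)) * g ∈ LinearMap.range (toK T).toLinearMap := by
  refine shift_gen T _ _ (fun u => ?_) g hg
  refine ⟨∑ i, (u i).natAbs, fun N hN => ?_⟩
  have hpos : ∀ i, 0 ≤ (N : ℤ) + u i := by
    intro i
    have h1 : (u i).natAbs ≤ ∑ i, (u i).natAbs :=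
      Finset.single_le_sum (f := fun i => (u i).natAbs) (fun _ _ => Nat.zero_le _) (Finset.mem_univ i)
    omega
  refine ⟨MvPolynomial.monomial (Finsupp.equivFunOnFinite.symm (fun i => ((N : ℤ) + u i).toNat)) 1, ?_⟩
  show toK T _ = _
  rw [toK_monomial, one_smul]
  congr 1
  funext i
  show (((Finsupp.equivFunOnFinite.symm (fun i => ((N : ℤ) + u i).toNat)) i : ℕ) : ℤ) = _
  rw [Finsupp.equivFunOnFinite_symm_apply_apply]
  simp [Int.toNat_of_nonneg (hpos i)]

theorem toK_mem (T : TorusField n K) (p : MvPolynomial (Fin n) ℂ) :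
    toK T p ∈ Submodule.span ℂ (Set.range T.χ) := by
  rw [MvPolynomial.as_sum p, map_sum]
  refine Submodule.sum_mem _ fun v _ => ?_
  rw [toK_monomial]
  exact Submodule.smul_mem _ _ (Submodule.subset_span ⟨_, rfl⟩)

theorem poly_closed (T : TorusField n K) (f : K)
    (hf : ∃ q : Polynomial K, q.Monic ∧ (∀ i, q.coeff i ∈ Set.range (toK T)) ∧ q.eval f = 0) :
    f ∈ Set.range (toK T) := by
  letI : Algebra (MvPolynomial (Fin n) ℂ) K := (toK T).toRingHom.toAlgebra
  have hmap : ∀ p, algebraMap (MvPolynomial (Fin n) ℂ) K p = toK T p := fun p => rfl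
  haveI : IsFractionRing (MvPolynomial (Fin n) ℂ) K := by
    refine (isLocalization_iff _ _).mpr ⟨?_, ?_, ?_⟩
    · rintro ⟨y, hy⟩
      rw [isUnit_iff_ne_zero]
      intro h
      rw [hmap] at h
      have h0 : y = 0 := toK_inj T (by rw [map_zero]; exact h)
      rw [h0] at hy
      exact zero_notMem_nonZeroDivisors hy
    · intro z
      obtain ⟨a, ha, b, hb, hb0, hab⟩ := T.frac z
      obtain ⟨N1, h1⟩ := shift_poly T a ha
      obtain ⟨N2, h2⟩ := shift_poly T b hb
      obtain ⟨p, hp⟩ := h1 (max N1 N2) (le_max_left _ _)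
      obtain ⟨q, hq⟩ := h2 (max N1 N2) (le_max_right _ _)
      have hp' : toK T p = T.χ ((max N1 N2) • (fun _ => 1)) * a := hp
      have hq' : toK T q = T.χ ((max N1 N2) • (fun _ => 1)) * b := hq
      have hq0 : q ≠ 0 := by
        rintro rfl
        rw [map_zero] at hq'
        exact (mul_ne_zero (chi_ne T _) hb0) hq'.symm
      refine ⟨(p, ⟨q, mem_nonZeroDivisors_of_ne_zero hq0⟩), ?_⟩
      rw [hmap, hmap]
      show z * toK T q = toK T p
      rw [hp', hq', ← hab]
      ring
    · intro x y hxy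
      exact ⟨1, by rw [toK_inj T hxy]⟩
  obtain ⟨q, hqm, hqc, hq0⟩ := hf
  have hl : q ∈ Polynomial.lifts (algebraMap (MvPolynomial (Fin n) ℂ) K) := by
    rw [Polynomial.lifts_iff_coeff_lifts]
    intro i
    exact hqc i
  obtain ⟨r, hr1, -, hr3⟩ := Polynomial.lifts_and_natDegree_eq_and_monic hl hqm
  have hint : IsIntegral (MvPolynomial (Fin n) ℂ) f := by
    refine ⟨r, hr3, ?_⟩
    rw [← Polynomial.eval_map, hr1]
    exact hq0
  haveI : IsIntegrallyClosed (MvPolynomial (Fin n) ℂ) := inferInstance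
  obtain ⟨y, hy⟩ := (isIntegrallyClosed_iff K).mp this hint
  exact ⟨y, hy⟩

theorem laurent_closed (T : TorusField n K) (S : Subalgebra ℂ K)
    (hS : ∀ f ∈ S, f ∈ Submodule.span ℂ (Set.range T.χ)) (f : K) (hf : IsIntegral S f) :
    f ∈ Submodule.span ℂ (Set.range T.χ) := by
  classical
  obtain ⟨p, hpm, hp0⟩ := hf
  set q : Polynomial K := p.map (algebraMap S K) with hq
  have hqm : q.Monic := hpm.map _
  have hq0 : q.eval f = 0 := by rw [hq, Polynomial.eval_map]; exact hp0
  have hqc : ∀ i, q.coeff i ∈ Submodule.span ℂ (Set.range T.χ) := by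
    intro i
    rw [hq, Polynomial.coeff_map]
    exact hS _ (p.coeff i).2
  choose N0 hN0 using fun i => shift_poly T (q.coeff i) (hqc i)
  set N : ℕ := ∑ i ∈ Finset.range (q.natDegree + 1), N0 i with hN
  set m : K := T.χ (N • (fun _ => 1)) with hm
  have hmc : ∀ i, i ≤ q.natDegree → m * q.coeff i ∈ Set.range (toK T) := by
    intro i hi
    have h1 : N0 i ≤ N := Finset.single_le_sum (f := N0) (fun _ _ => Nat.zero_le _)
      (Finset.mem_range.mpr (by omega))
    obtain ⟨r, hr⟩ := hN0 i N h1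
    exact ⟨r, hr⟩
  have hmm : m ∈ Set.range (toK T) := by
    have := hmc q.natDegree le_rfl
    rw [hqm.coeff_natDegree, mul_one] at this
    exact this
  have key : m * f ∈ Set.range (toK T) := by
    apply poly_closed
    refine ⟨q.scaleRoots m, (Polynomial.monic_scaleRoots_iff m).mpr hqm, ?_, ?_⟩
    · intro i
      rw [Polynomial.coeff_scaleRoots]
      rcases lt_trichotomy i q.natDegree with h | h | h
      · obtain ⟨k, hk⟩ : ∃ k, q.natDegree - i = k + 1 := ⟨q.natDegree - i - 1, by omega⟩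
        rw [hk, pow_succ]
        obtain ⟨r1, hr1⟩ := hmc i h.le
        obtain ⟨r2, hr2⟩ := hmm
        refine ⟨r1 * r2 ^ k, ?_⟩
        rw [map_mul, map_pow, hr1, hr2]
        ring
      · rw [h, Nat.sub_self, pow_zero, mul_one, hqm.coeff_natDegree]
        exact ⟨1, map_one _⟩
      · rw [Polynomial.coeff_eq_zero_of_natDegree_lt h, zero_mul]
        exact ⟨0, map_zero _⟩
    · have := Polynomial.scaleRoots_eval₂_mul (p := q) (RingHom.id K) (r := f) (s := m)
      rw [RingHom.id_apply, ← Polynomial.eval, ← Polynomial.eval, hq0, mul_zero] at this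
      exact this
  obtain ⟨r, hr⟩ := key
  have h1 : f = T.χ (-(N • (fun _ => 1))) * toK T r := by
    rw [hr, hm, ← mul_assoc, ← T.χ_add, neg_add_cancel, T.χ_zero, one_mul]
  rw [h1]
  have h2 := toK_mem T r
  generalize toK T r = g0 at h2
  induction h2 using Submodule.span_induction with
  | mem x hx =>
    obtain ⟨u, rfl⟩ := hx
    rw [← T.χ_add]
    exact Submodule.subset_span ⟨_, rfl⟩
  | zero => rw [mul_zero]; exact Submodule.zero_mem _
  | add x y _ _ hx hy => rw [mul_add]; exact Submodule.add_mem _ hx hy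
  | smul c x _ hx => rw [mul_smul_comm]; exact Submodule.smul_mem _ _ hx

theorem mspan_le (T : TorusField n K) (R : Matrix (Fin n) (Fin n) ℤ) (k : ℤ) :
    mspan T R k ≤ Submodule.span ℂ (Set.range T.χ) :=
  Submodule.span_mono (Set.image_subset_range _ _)

theorem cone_frac' (T : TorusField n K) (R : Matrix (Fin n) (Fin n) ℤ) (hR : R.det ≠ 0) :
    IsFractionRing (cone T R) K := by
  obtain ⟨d, e, hd, he⟩ := exists_dual R hR
  have hw : ∀ j, Matrix.vecMul (∑ i, e i) R j = d := by
    intro j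
    rw [Matrix.sum_vecMul, Finset.sum_apply]
    simp_rw [he]
    rw [Finset.sum_eq_single j]
    · simp
    · intro b _ hb
      rw [Pi.single_eq_of_ne (Ne.symm hb)]
    · intro h; exact absurd (Finset.mem_univ j) h
  have hshift : ∀ g ∈ Submodule.span ℂ (Set.range T.χ), ∃ N0 : ℕ, ∀ N : ℕ, N0 ≤ N →
      T.χ (N • (∑ i, e i)) * g ∈ mspan T R 0 := by
    intro g hg
    refine shift_gen T _ _ (fun u => ?_) g hg
    refine ⟨∑ j, (Matrix.vecMul u R j).natAbs, fun N hN => ?_⟩
    refine Submodule.subset_span ⟨_, ?_, rfl⟩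
    intro j
    rw [Matrix.add_vecMul, Pi.add_apply, Matrix.smul_vecMul, Pi.smul_apply, hw]
    have h1 : (Matrix.vecMul u R j).natAbs ≤ ∑ j, (Matrix.vecMul u R j).natAbs :=
      Finset.single_le_sum (f := fun j => (Matrix.vecMul u R j).natAbs)
        (fun _ _ => Nat.zero_le _) (Finset.mem_univ j)
    have h2 : (N : ℤ) ≤ N • d := by
      rw [nsmul_eq_mul]
      nlinarith
    omega
  refine (isLocalization_iff _ _).mpr ⟨?_, ?_, ?_⟩
  · rintro ⟨y, hy⟩
    rw [isUnit_iff_ne_zero]
    intro h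
    have h0 : y = 0 := Subtype.ext h
    rw [h0] at hy
    exact zero_notMem_nonZeroDivisors hy
  · intro z
    obtain ⟨a, ha, b, hb, hb0, hab⟩ := T.frac z
    obtain ⟨N1, h1⟩ := hshift a ha
    obtain ⟨N2, h2⟩ := hshift b hb
    have hp := (mem_cone T R _).mpr (h1 (max N1 N2) (le_max_left _ _))
    have hq := (mem_cone T R _).mpr (h2 (max N1 N2) (le_max_right _ _))
    have hq0 : (⟨_, hq⟩ : cone T R) ≠ 0 := by
      intro h
      have h' := congrArg Subtype.val h
      exact (mul_ne_zero (chi_ne T _) hb0) h'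
    refine ⟨(⟨_, hp⟩, ⟨⟨_, hq⟩, mem_nonZeroDivisors_of_ne_zero hq0⟩), ?_⟩
    show z * (T.χ _ * b) = T.χ _ * a
    rw [← hab]
    ring
  · intro x y hxy
    exact ⟨1, by rw [Subtype.ext hxy]⟩

theorem val_integral (v : AddValuation K (WithTop ℤ)) (S : Subalgebra ℂ K)
    (hS : ∀ s ∈ S, 0 ≤ v s) (f : K) (hf : IsIntegral S f) : 0 ≤ v f := by
  by_contra hneg
  push Not at hneg
  obtain ⟨p, hpm, hp0⟩ := hf
  obtain ⟨a, ha⟩ : ∃ a : ℤ, v f = (a : WithTop ℤ) := by
    have : v f ≠ ⊤ := ne_top_of_lt hneg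
    exact ⟨(v f).untop this, (WithTop.coe_untop _ this).symm⟩
  have ha0 : a < 0 := by
    rw [ha] at hneg
    exact_mod_cast hneg
  set d := p.natDegree with hd
  have h1 : f ^ d = -∑ i ∈ Finset.range d, (p.coeff i : K) * f ^ i := by
    rw [Polynomial.eval₂_eq_sum_range, Finset.sum_range_succ] at hp0
    have h2 : algebraMap S K (p.coeff p.natDegree) = 1 := by
      rw [hpm.coeff_natDegree, map_one]
    rw [h2, one_mul] at hp0
    have h3 : ∀ i, algebraMap S K (p.coeff i) = (p.coeff i : K) := fun i => rfl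
    simp_rw [h3] at hp0
    exact eq_neg_of_add_eq_zero_right hp0
  have hpow : ∀ i : ℕ, v (f ^ i) = ((i * a : ℤ) : WithTop ℤ) := by
    intro i
    rw [AddValuation.map_pow, ha]
    rw [← WithTop.coe_nsmul, nsmul_eq_mul]
  have h4 : ((d * a : ℤ) : WithTop ℤ) < v (∑ i ∈ Finset.range d, (p.coeff i : K) * f ^ i) := by
    apply AddValuation.map_lt_sum
    · exact WithTop.coe_ne_top
    · intro i hi
      rw [AddValuation.map_mul, hpow]
      have h5 : 0 ≤ v (p.coeff i : K) := hS _ (p.coeff i).2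
      have h6 : ((d * a : ℤ) : WithTop ℤ) < ((i * a : ℤ) : WithTop ℤ) := by
        rw [WithTop.coe_lt_coe]
        have : (i : ℤ) < d := by exact_mod_cast Finset.mem_range.mp hi
        nlinarith
      calc ((d * a : ℤ) : WithTop ℤ) < ((i * a : ℤ) : WithTop ℤ) := h6
        _ = 0 + ((i * a : ℤ) : WithTop ℤ) := (zero_add _).symm
        _ ≤ v (p.coeff i : K) + ((i * a : ℤ) : WithTop ℤ) := by gcongr
  rw [← AddValuation.map_neg, ← h1, hpow] at h4
  exact lt_irrefl _ h4

theorem cone_normal (T : TorusField n K) (R : Matrix (Fin n) (Fin n) ℤ) (hR : R.det ≠ 0) :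
    IsIntegrallyClosed (cone T R) := by
  haveI := cone_frac' T R hR
  rw [isIntegrallyClosed_iff K]
  intro f hf
  have hL : f ∈ Submodule.span ℂ (Set.range T.χ) :=
    laurent_closed T (cone T R) (fun g hg => mspan_le T R 0 ((mem_cone T R g).mp hg)) f hf
  suffices h : f ∈ cone T R from ⟨⟨f, h⟩, rfl⟩
  rw [mem_cone]
  obtain ⟨c, rfl⟩ := (Finsupp.mem_span_range_iff_exists_finsupp.mp hL : ∃ c : (Fin n → ℤ) →₀ ℂ,
    (c.sum fun i a => a • T.χ i) = f)
  change Finsupp.linearCombination ℂ T.χ c ∈ _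
  change IsIntegral (cone T R) (Finsupp.linearCombination ℂ T.χ c) at hf
  rw [mem_mspan_iff]
  by_cases hc : c = 0
  · intro u hu
    rw [hc] at hu
    simp at hu
  have hj : ∀ j, ∀ u ∈ c.support, 0 ≤ Matrix.vecMul u R j := by
    intro j
    let φ : (Fin n → ℤ) →+ ℤ :=
      { toFun := fun u => Matrix.vecMul u R j
        map_zero' := by rw [Matrix.zero_vecMul]; rfl
        map_add' := fun u u' => by rw [Matrix.add_vecMul]; rfl }
    obtain ⟨v, hv⟩ := exists_phiVal T φ
    have hpos : 0 ≤ v (Finsupp.linearCombination ℂ T.χ c) := by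
      apply val_integral v (cone T R) _ _ hf
      intro s hs
      have hs' := (mem_cone T R s).mp hs
      obtain ⟨b, hb⟩ := (Finsupp.mem_span_range_iff_exists_finsupp.mp (mspan_le T R 0 hs') :
        ∃ b : (Fin n → ℤ) →₀ ℂ, (b.sum fun i a => a • T.χ i) = s)
      have hb' : Finsupp.linearCombination ℂ T.χ b = s := hb
      by_cases hb0 : b = 0
      · rw [← hb', hb0, map_zero, AddValuation.map_zero]
        exact le_top
      · obtain ⟨u, hu, hvu, -⟩ := hv b hb0
        rw [← hb', hvu]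
        have h1 := (mem_mspan_iff T R 0 b).mp (by rw [hb']; exact hs') u hu j
        exact_mod_cast h1
    obtain ⟨u, hu, hvu, hmin⟩ := hv c hc
    rw [hvu] at hpos
    have h0 : 0 ≤ φ u := by exact_mod_cast hpos
    intro u' hu'
    exact h0.trans (hmin u' hu')
  intro u hu j
  exact hj j u hu

end Pool.Agent.Helper774.KSing
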